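import Pool.Agent.L7h84.TT.Geo

/-! # Torus invariant metrics on `S³`: periodic geodesics through a singular orbit, exchange of the circles -/

open Real Set MeasureTheory
open scoped ContDiff

namespace Pool.Agent.L7h84.TT

open Pool.Agent.H206R2.Rot2 (IsProfile2)

variable {L : ℝ} {f h σ : ℝ → ℝ}

lemma even_int {F : ℝ → ℝ} {q : ℝ} (hq : 0 < q) (hF : ∀ x, F (-x) = F x)
    (hi : IntegrableOn F (Ioo 0 q)) : ∫ x in Ioo (-q) q, F x = 2 * ∫ x in Ioo 0 q, F x := by
  have h1 : IntervalIntegrable F volume 0 q := by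
    rw [intervalIntegrable_iff_integrableOn_Ioo_of_le hq.le]
    exact hi
  have h2 : IntervalIntegrable F volume (-q) 0 := by
    have h3 := (IntervalIntegrable.iff_comp_neg (f := F) (a := 0) (b := q)).1 h1
    simp only [hF, neg_zero] at h3
    exact h3.symm
  rw [← integral_Ioc_eq_integral_Ioo, ← integral_Ioc_eq_integral_Ioo,
    ← intervalIntegral.integral_of_le (by linarith), ← intervalIntegral.integral_of_le hq.le,
    ← intervalIntegral.integral_add_adjacent_intervals h2 h1]
  have h4 : ∫ x in (-q)..0, F x = ∫ x in (0 : ℝ)..q, F x := by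
    have := intervalIntegral.integral_comp_neg (a := 0) (b := q) F
    simp only [hF, neg_zero] at this
    exact this.symm
  rw [h4]
  ring

lemma gW_even (M : IsTorusMetric L f h σ) (r : ℝ) : gW f h σ (-r) = gW f h σ r := by
  unfold gW
  rw [M.prof.h_even, M.even_zero, M.prof.f_odd]
  ring

/-- the potential for `c = (0, y)` -/
noncomputable def V0 (f h σ : ℝ → ℝ) (y r : ℝ) : ℝ := y ^ 2 / gW f h σ r

/-- the angular velocities for `c = (0, y)` -/
noncomputable def w1 (f h σ : ℝ → ℝ) (y r : ℝ) : ℝ := -(y * σ r * h r ^ 2) / gW f h σ r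

noncomputable def w2 (f h σ : ℝ → ℝ) (y r : ℝ) : ℝ := y / gW f h σ r

lemma V0_contDiffOn (M : IsTorusMetric L f h σ) (y : ℝ) :
    ContDiffOn ℝ ∞ (V0 f h σ y) (Ioo (-L) L) := by
  unfold V0
  exact contDiff_const.contDiffOn.div (gW_smooth M).contDiffOn fun r hr => (gW_pos M hr.1 hr.2).ne'

lemma w1_contDiffOn (M : IsTorusMetric L f h σ) (y : ℝ) :
    ContDiffOn ℝ ∞ (w1 f h σ y) (Ioo (-L) L) := by
  unfold w1
  exact ((contDiff_const.mul M.smooth).mul (M.prof.smooth_h.pow 2)).neg.contDiffOn.div
    (gW_smooth M).contDiffOn fun r hr => (gW_pos M hr.1 hr.2).ne'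

lemma w2_contDiffOn (M : IsTorusMetric L f h σ) (y : ℝ) :
    ContDiffOn ℝ ∞ (w2 f h σ y) (Ioo (-L) L) := by
  unfold w2
  exact contDiff_const.contDiffOn.div (gW_smooth M).contDiffOn fun r hr => (gW_pos M hr.1 hr.2).ne'

lemma V0_hasDerivAt (M : IsTorusMetric L f h σ) (y : ℝ) {r : ℝ} (h0 : -L < r) (hL : r < L) :
    HasDerivAt (V0 f h σ y) (-(deriv (gA f) r * w1 f h σ y r ^ 2 +
      2 * deriv (gB f h σ) r * (w1 f h σ y r * w2 f h σ y r) +
      deriv (gC h) r * w2 f h σ y r ^ 2)) r := by
  have df := hasDerivAt_of _ M.prof.smooth_f r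
  have dh := hasDerivAt_of _ M.prof.smooth_h r
  have ds := hasDerivAt_of _ M.smooth r
  have dA : HasDerivAt (gA f) (2 * f r * deriv f r) r := by
    have := df.fun_pow 2
    refine this.congr_deriv ?_
    push_cast
    ring
  have dC : HasDerivAt (gC h) (2 * h r * deriv h r) r := by
    have := dh.fun_pow 2
    refine this.congr_deriv ?_
    push_cast
    ring
  have dB : HasDerivAt (gB f h σ) (deriv σ r * f r ^ 2 * h r ^ 2 +
      σ r * (2 * f r * deriv f r) * h r ^ 2 + σ r * f r ^ 2 * (2 * h r * deriv h r)) r := by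
    have := (ds.fun_mul (df.fun_pow 2)).fun_mul (dh.fun_pow 2)
    refine this.congr_deriv ?_
    push_cast
    ring
  have dW : HasDerivAt (gW f h σ) (2 * h r * deriv h r * (1 - (σ r * f r * h r) ^ 2) -
      h r ^ 2 * (2 * (σ r * f r * h r) * ((deriv σ r * f r + σ r * deriv f r) * h r +
        σ r * f r * deriv h r))) r := by
    have := (dh.fun_pow 2).fun_mul ((hasDerivAt_const r (1 : ℝ)).fun_sub
      (((ds.fun_mul df).fun_mul dh).fun_pow 2))
    refine this.congr_deriv ?_
    push_cast
    ring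
  have hW := (gW_pos M h0 hL).ne'
  have := (hasDerivAt_const r (y ^ 2)).fun_div dW hW
  refine this.congr_deriv ?_
  rw [dA.deriv, dB.deriv, dC.deriv]
  unfold w1 w2
  field_simp
  ring

/-- Geodesics through the singular orbit `r = 0`. -/
theorem closed_core (M : IsTorusMetric L f h σ) {y q : ℝ} (hq0 : 0 < q) (hqL : q < L)
    (hVq : V0 f h σ y q = 1) (hq' : 0 < deriv (V0 f h σ y) q)
    (hin : ∀ x ∈ Ico 0 q, V0 f h σ y x < 1)
    (hint : IntegrableOn (fun r => 1 / √(1 - V0 f h σ y r)) (Ioo 0 q)) {n m : ℤ}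
    (h1 : 4 * ∫ x in Ioo 0 q, w1 f h σ y x / √(1 - V0 f h σ y x) = 2 * π * n)
    (h2 : 4 * ∫ x in Ioo 0 q, w2 f h σ y x / √(1 - V0 f h σ y x) = 2 * π * m) :
    Per L f h σ (4 * ∫ x in Ioo 0 q, 1 / √(1 - V0 f h σ y x)) := by
  have hV0 : ∀ r, V0 f h σ y (-r) = V0 f h σ y r := fun r => by unfold V0; rw [gW_even M]
  have hw1 : ∀ r, w1 f h σ y (-r) = w1 f h σ y r := fun r => by
    unfold w1; rw [gW_even M, M.even_zero, M.prof.h_even]
  have hw2 : ∀ r, w2 f h σ y (-r) = w2 f h σ y r := fun r => by unfold w2; rw [gW_even M]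
  set V : ℝ → ℝ := fun x => V0 f h σ y (x - L) with hVdef
  have hmap : MapsTo (fun x : ℝ => x - L) (Ioo 0 (2 * L)) (Ioo (-L) L) := fun x hx =>
    ⟨by simp only; linarith [hx.1], by simp only; linarith [hx.2]⟩
  have hVs : ContDiffOn ℝ ∞ V (Ioo 0 (2 * L)) :=
    (V0_contDiffOn M y).comp (contDiff_id.sub contDiff_const).contDiffOn hmap
  have hdV : ∀ x, deriv V x = deriv (V0 f h σ y) (x - L) := fun x => by
    exact deriv_comp_sub_const (f := V0 f h σ y) L x
  have hdneg : deriv (V0 f h σ y) (-q) = -deriv (V0 f h σ y) q := by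
    have e : V0 f h σ y = fun x => V0 f h σ y (-x) := funext fun x => (hV0 x).symm
    conv_lhs => rw [e]
    rw [deriv_comp_neg, neg_neg]
  have hin' : ∀ x ∈ Ioo (L - q) (L + q), V x < 1 := by
    intro x hx
    simp only [hVdef]
    rcases le_total 0 (x - L) with h | h
    · exact hin _ ⟨h, by linarith [hx.2]⟩
    · rw [← hV0]
      exact hin _ ⟨by linarith, by linarith [hx.1]⟩
  obtain ⟨r, T, hT, hTeq, hr, hrI, hr2, hr1, hrT, hrint⟩ :=
    H206R2.Rot2.TH.oscillator (L := 2 * L) (V := V) (p := L - q) (q := L + q) (by linarith)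
      (by linarith) (by linarith) hVs
      (by simp only [hVdef]; rw [show L - q - L = -q by ring, hV0, hVq])
      (by simp only [hVdef]; rw [show L + q - L = q by ring, hVq])
      (by rw [hdV, show L - q - L = -q by ring, hdneg]; linarith)
      (by rw [hdV, show L + q - L = q by ring]; exact hq') hin'
  have hrI' : ∀ t, r t - L ∈ Ioo (-L) L := fun t =>
    ⟨by linarith [(hrI t).1], by linarith [(hrI t).2]⟩
  have hrs : ContDiff ℝ 2 fun t => r t - L := hr.sub contDiff_const
  -- the integrals
  have key : ∀ g : ℝ → ℝ, ContinuousOn g (Ioo (-L) L) → (∀ x, g (-x) = g x) →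
      ∫ t in (0 : ℝ)..T, g (r t - L) = 4 * ∫ x in Ioo 0 q, g x / √(1 - V0 f h σ y x) := by
    intro g hg hge
    have hgc : ContinuousOn g (Icc 0 q) := hg.mono fun x hx => ⟨by linarith [hx.1], by linarith [hx.2]⟩
    have i0 : IntegrableOn (fun x => g x / √(1 - V0 f h σ y x)) (Ioo 0 q) := by
      obtain ⟨x₁, hx₁, hmax⟩ := isCompact_Icc.exists_isMaxOn (nonempty_Icc.2 hq0.le) hgc.abs
      have hVc : ContinuousOn (V0 f h σ y) (Ioo 0 q) :=
        (V0_contDiffOn M y).continuousOn.mono fun x hx => ⟨by linarith [hx.1], by linarith [hx.2]⟩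
      refine (hint.const_mul |g x₁|).mono' ?_ ?_
      · apply ContinuousOn.aestronglyMeasurable _ measurableSet_Ioo
        refine (hgc.mono Ioo_subset_Icc_self).div (continuousOn_const.sub hVc).sqrt ?_
        intro x hx
        exact (Real.sqrt_pos.mpr (by linarith [hin x ⟨hx.1.le, hx.2⟩])).ne'
      · refine (ae_restrict_iff' measurableSet_Ioo).mpr (ae_of_all _ fun x hx => ?_)
        have hs : 0 < √(1 - V0 f h σ y x) :=
          Real.sqrt_pos.mpr (by linarith [hin x ⟨hx.1.le, hx.2⟩])
        rw [Real.norm_eq_abs, abs_div, abs_of_pos hs, mul_one_div]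
        have h1 : |g x| ≤ |g x₁| := hmax (Ioo_subset_Icc_self hx)
        gcongr
    have e1 := hrint (fun x => g (x - L)) (hg.comp (continuous_id.sub continuous_const).continuousOn
      fun x hx => ⟨by show -L < x - L; linarith [hx.1], by show x - L < L; linarith [hx.2]⟩)
    rw [e1]
    have e2 : ∫ x in Ioo (L - q) (L + q), g (x - L) / √(1 - V x) =
        ∫ x in Ioo (-q) q, g x / √(1 - V0 f h σ y x) := by
      rw [← integral_Ioc_eq_integral_Ioo, ← integral_Ioc_eq_integral_Ioo,
        ← intervalIntegral.integral_of_le (by linarith),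
        ← intervalIntegral.integral_of_le (by linarith)]
      have := intervalIntegral.integral_comp_sub_right (a := L - q) (b := L + q)
        (fun x => g x / √(1 - V0 f h σ y x)) L
      rw [show L - q - L = -q by ring, show L + q - L = q by ring] at this
      exact this
    rw [e2, even_int hq0 (fun x => by rw [hge, hV0]) i0]
    ring
  have c1 : ContDiff ℝ 1 fun t => w1 f h σ y (r t - L) :=
    ((w1_contDiffOn M y).of_le (by exact_mod_cast le_top)).comp_contDiff
      (hrs.of_le (by norm_num)) hrI'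
  have c2 : ContDiff ℝ 1 fun t => w2 f h σ y (r t - L) :=
    ((w2_contDiffOn M y).of_le (by exact_mod_cast le_top)).comp_contDiff
      (hrs.of_le (by norm_num)) hrI'
  obtain ⟨α, hα, hαd, hαT⟩ := angle' (T := T) c1 fun t => by simp only [hrT]
  obtain ⟨β, hβ, hβd, hβT⟩ := angle' (T := T) c2 fun t => by simp only [hrT]
  have i1 := key (w1 f h σ y) (w1_contDiffOn M y).continuousOn hw1
  have i2 := key (w2 f h σ y) (w2_contDiffOn M y).continuousOn hw2
  have i3 := key (fun _ => 1) continuousOn_const fun _ => rfl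
  simp only [intervalIntegral.integral_const, sub_zero, smul_eq_mul, mul_one] at i3
  rw [← i3]
  have hds : ∀ t, deriv (fun t => r t - L) t = deriv r t := fun t => by
    rw [deriv_sub_const_fun]
  have hdds : ∀ t, deriv (deriv fun t => r t - L) t = deriv (deriv r) t := fun t => by
    rw [show (deriv fun t => r t - L) = deriv r from funext hds]
  refine ⟨fun t => pt L (r t - L) (α t) (β t),
    geod_of (r := fun t => r t - L) (c₁ := 0) (c₂ := y) hrs hα hβ ?_ ?_ ?_ ?_, ?_⟩
  · intro t
    rw [hαd, hβd]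
    have hW := (gW_pos M (hrI' t).1 (hrI' t).2).ne'
    unfold w1 w2 gA gB
    field_simp
    ring
  · intro t
    rw [hαd, hβd]
    have hW := (gW_pos M (hrI' t).1 (hrI' t).2).ne'
    have e : gW f h σ (r t - L) = h (r t - L) ^ 2 *
      (1 - (σ (r t - L) * f (r t - L) * h (r t - L)) ^ 2) := rfl
    unfold w1 w2 gB gC
    field_simp
    rw [e]
    ring
  · intro t
    rw [hdds, hr2, hdV, (V0_hasDerivAt M y (hrI' t).1 (hrI' t).2).deriv, hαd, hβd]
    ring
  · intro t
    rw [hds, hr1, hαd, hβd]
    simp only [hVdef]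
    unfold w1 w2 V0
    ring
  · intro t
    simp only
    rw [hrT, hαT, hβT, i1, i2, h1, h2, pt_add]

/-! ### Exchange of the two circles -/

lemma swap (M : IsTorusMetric L f h σ) :
    IsTorusMetric L (fun r => h (L - r)) (fun r => f (L - r)) (fun r => σ (L - r)) where
  prof := by
    refine ⟨M.prof.pos, M.prof.smooth_h.comp (contDiff_const.sub contDiff_id),
      M.prof.smooth_f.comp (contDiff_const.sub contDiff_id), ?_, ?_, ?_, ?_, ?_, ?_, ?_, ?_⟩
    · intro r
      have := M.prof.h_odd r
      rw [show L - -r = L + r by ring, this]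
    · intro r
      have := M.prof.h_even r
      rw [show L - (L + r) = -r by ring, show L - (L - r) = r by ring, this]
    · intro r
      have := M.prof.f_even r
      rw [show L - -r = L + r by ring, this]
    · intro r
      have := M.prof.f_odd r
      rw [show L - (L + r) = -r by ring, show L - (L - r) = r by ring, this]
    · intro r h0 hL
      exact M.prof.h_pos _ (by linarith) (by linarith)
    · intro r h0 hL
      exact M.prof.f_pos _ (by linarith) (by linarith)
    · rw [deriv_comp_const_sub]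
      simp [M.prof.h_deriv]
    · rw [deriv_comp_const_sub]
      simp [M.prof.f_deriv]
  smooth := M.smooth.comp (contDiff_const.sub contDiff_id)
  even_zero := by
    intro r
    rw [show L - -r = L + r by ring, M.even_L]
  even_L := by
    intro r
    rw [show L - (L + r) = -r by ring, show L - (L - r) = r by ring, M.even_zero]
  lt_one := by
    intro r
    have := M.lt_one (L - r)
    calc (σ (L - r) * h (L - r) * f (L - r)) ^ 2 = (σ (L - r) * f (L - r) * h (L - r)) ^ 2 := by ring
      _ < 1 := this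

lemma Per.swap (hL : 0 < L) {T : ℝ}
    (hP : Per L (fun r => h (L - r)) (fun r => f (L - r)) (fun r => σ (L - r)) T) :
    Per L f h σ T := by
  obtain ⟨γ, ⟨r, α, β, hr, hα, hβ, hγ, h1, h2, h3, h4⟩, hT⟩ := hP
  have eA : gA (fun r => h (L - r)) = fun r => gC h (L - r) := rfl
  have eC : gC (fun r => f (L - r)) = fun r => gA f (L - r) := rfl
  have eB : gB (fun r => h (L - r)) (fun r => f (L - r)) (fun r => σ (L - r)) =
      fun r => gB f h σ (L - r) := by
    funext r
    unfold gB
    ring
  have hd1 : ∀ t, deriv (fun t => L - r t) t = -deriv r t := fun t => by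
    rw [deriv_const_sub]
  have hd2 : ∀ t, deriv (deriv fun t => L - r t) t = -deriv (deriv r) t := fun t => by
    rw [show (deriv fun t => L - r t) = fun t => -deriv r t from funext hd1]
    exact deriv.fun_neg
  simp only [eA, eB, eC, deriv_comp_const_sub] at h1 h2 h3 h4
  refine ⟨fun t => ((γ t).2, (γ t).1), ⟨fun t => L - r t, β, α, contDiff_const.sub hr, hβ, hα, ?_, ?_, ?_,
    ?_, ?_⟩, fun t => by simp only [hT]⟩
  · intro t
    show ((γ t).2, (γ t).1) = pt L (L - r t) (β t) (α t)
    rw [hγ]
    unfold pt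
    have e1 : π * (L - r t) / (2 * L) = π / 2 - π * r t / (2 * L) := by
      field_simp
    rw [e1, Real.sin_pi_div_two_sub, Real.cos_pi_div_two_sub]
  · intro t
    rw [hd2, h1]
    ring
  · intro t
    refine (h3 t).congr_of_eventuallyEq ?_ |>.congr_deriv rfl
    exact Filter.Eventually.of_forall fun t => by ring
  · intro t
    refine (h2 t).congr_of_eventuallyEq ?_ |>.congr_deriv rfl
    exact Filter.Eventually.of_forall fun t => by ring
  · intro t
    rw [hd1, ← h4 t]
    ring

end Pool.Agent.L7h84.TT
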