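import Pool.Agent.H206R2.Rot2.Defs

/-!
# Metrics on `S³` invariant under a torus `T²`: definitions

Up to an equivariant diffeomorphism the metrics on `S³ ⊂ ℂ²` which are invariant under the standard action
of the torus `T²` (every effective smooth action of `T²` on `S³` is conjugate to it) are the metrics
`dr² + f(r)² dα² + 2 σ(r) f(r)² h(r)² dα dβ + h(r)² dβ²`, `0 ≤ r ≤ L`, in the coordinates
`(sin (π r / 2 L) exp (i α), cos (π r / 2 L) exp (i β))`; here `r` is the distance from the singular orbit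
`{0} × S¹`, `L` is the distance of the two singular orbits, `f` is odd about `0` and even about `L`,
`h` is even about `0` and odd about `L`, `f'(0) = 1`, `h'(L) = -1`, and `σ` is even about `0` and about
`L`. The scalar product of the two Killing fields `∂_α`, `∂_β` is `σ f² h²`, and `|σ f h| < 1` says that
the metric is positive definite.
-/

open Real Set MeasureTheory
open scoped ContDiff

namespace Pool.Agent.L7h84.TT

open Pool.Agent.H206R2.Rot2 (IsProfile2)

/-- The metrics `dr² + f² dα² + 2 σ f² h² dα dβ + h² dβ²` on `S³`. -/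
structure IsTorusMetric (L : ℝ) (f h σ : ℝ → ℝ) : Prop where
  prof : IsProfile2 L f h
  smooth : ContDiff ℝ ∞ σ
  even_zero : ∀ r, σ (-r) = σ r
  even_L : ∀ r, σ (L + r) = σ (L - r)
  lt_one : ∀ r, (σ r * f r * h r) ^ 2 < 1

/-- `|∂_α|²` -/
noncomputable def gA (f : ℝ → ℝ) (r : ℝ) : ℝ := f r ^ 2

/-- `⟨∂_α, ∂_β⟩` -/
noncomputable def gB (f h σ : ℝ → ℝ) (r : ℝ) : ℝ := σ r * f r ^ 2 * h r ^ 2

/-- `|∂_β|²` -/
noncomputable def gC (h : ℝ → ℝ) (r : ℝ) : ℝ := h r ^ 2

/-- The point of `S³ ⊂ ℂ²` with the coordinates `(r, α, β)`. -/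
noncomputable def pt (L r α β : ℝ) : ℂ × ℂ :=
  ((Real.sin (π * r / (2 * L)) : ℂ) * Complex.exp (α * Complex.I),
    (Real.cos (π * r / (2 * L)) : ℂ) * Complex.exp (β * Complex.I))

/-- `γ` is a geodesic of speed `v` of the metric `dr² + f² dα² + 2 σ f² h² dα dβ + h² dβ²` on `S³`, written
in extended coordinates `(r, α, β)`: the Euler-Lagrange equations of the energy. -/
def IsGeodesicT (L : ℝ) (f h σ : ℝ → ℝ) (v : ℝ) (γ : ℝ → ℂ × ℂ) : Prop :=
  ∃ r α β : ℝ → ℝ, ContDiff ℝ 2 r ∧ ContDiff ℝ 2 α ∧ ContDiff ℝ 2 β ∧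
    (∀ t, γ t = pt L (r t) (α t) (β t)) ∧
    (∀ t, deriv (deriv r) t = (deriv (gA f) (r t) * deriv α t ^ 2 +
      2 * deriv (gB f h σ) (r t) * (deriv α t * deriv β t) + deriv (gC h) (r t) * deriv β t ^ 2) / 2) ∧
    (∀ t, HasDerivAt (fun t => gA f (r t) * deriv α t + gB f h σ (r t) * deriv β t) 0 t) ∧
    (∀ t, HasDerivAt (fun t => gB f h σ (r t) * deriv α t + gC h (r t) * deriv β t) 0 t) ∧
    (∀ t, deriv r t ^ 2 + gA f (r t) * deriv α t ^ 2 +
      2 * gB f h σ (r t) * (deriv α t * deriv β t) + gC h (r t) * deriv β t ^ 2 = v ^ 2)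

/-- The determinant of the metric of the torus orbits. -/
noncomputable def gD (f h σ : ℝ → ℝ) (r : ℝ) : ℝ := gA f r * gC h r - gB f h σ r ^ 2

/-- The norm squared of the covector `c`. -/
noncomputable def VV (f h σ : ℝ → ℝ) (c : ℝ × ℝ) (r : ℝ) : ℝ :=
  (c.1 ^ 2 * gC h r - 2 * c.1 * c.2 * gB f h σ r + c.2 ^ 2 * gA f r) / gD f h σ r

end Pool.Agent.L7h84.TT
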