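import Pool.Agent.L7h84.TT.Defs

/-! # Torus invariant metrics on `S³`: independent parts, statements -/

open Real Set MeasureTheory Filter Topology
open scoped ContDiff

namespace Pool.Agent.L7h84.TT

/-- PART VOL (integrate over `c ∈ ℝ²`; for fixed `r` the integral of `√(1 - VV c r)` over the plane is
`(2 π / 3) √ gD`, and the integral of `π (R - |c₁| - |c₂|)₊` is `(2 π / 3) R³`). -/
def S_VOL : Prop := ∀ (L : ℝ) (f h σ : ℝ → ℝ), IsTorusMetric L f h σ → ∀ R : ℝ, 0 < R →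
  (∀ c : ℝ × ℝ, c.1 ≠ 0 → c.2 ≠ 0 → |c.1| + |c.2| < R →
    π * (R - |c.1| - |c.2|) ≤ 2 * ∫ r in Ioo 0 L, √(1 - VV f h σ c r)) →
  R ^ 3 / 2 ≤ ∫ r in (0 : ℝ)..L, √(gD f h σ r)

/-- PART ROUND (from the starting file `Pool.Agent.H206R2.Rot2.TC.round_length2`, `k = m = 2`, with
`u = (cos α, sin α)`, `w = (cos β, sin β)`). -/
def S_ROUND : Prop := IsTorusMetric (π / 2) Real.sin Real.cos (fun _ => 0) ∧
  ∀ (γ : ℝ → ℂ × ℂ) (v T : ℝ), 0 < v → 0 < T →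
    IsGeodesicT (π / 2) Real.sin Real.cos (fun _ => 0) v γ → (∀ t, γ (t + T) = γ t) → 2 * π ≤ v * T

/-- PART SING (the first variation of `∫ √(1 - V)` under a perturbation with the singular term
`ε² W ~ ε² / r²` at `0`). -/
def S_SING : Prop := ∀ (q : ℝ) (V B W : ℝ → ℝ), 0 < q → ContinuousOn V (Icc 0 q) →
  ContinuousOn B (Icc 0 q) → ContinuousOn W (Ioc 0 q) → (∀ r ∈ Ico 0 q, V r < 1) →
  (∀ r ∈ Ioc 0 q, 0 ≤ W r) → Tendsto (fun r => r ^ 2 * W r) (𝓝[>] 0) (𝓝 1) →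
  IntegrableOn (fun r => 1 / √(1 - V r)) (Ioo 0 q) → ∀ η : ℝ, 0 < η →
  ∀ᶠ ε in 𝓝[>] (0 : ℝ), ∫ r in Ioo 0 q, √(1 - (V r + ε * B r + ε ^ 2 * W r)) ≤
    (∫ r in Ioo 0 q, √(1 - V r)) - ε * ((∫ r in Ioo 0 q, B r / √(1 - V r)) / 2 + π / 2 - η)

end Pool.Agent.L7h84.TT
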