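import Pool.Agent.L7h84.TT.Reg
import Pool.Agent.L7h84.TT.Stm

/-! # Torus invariant metrics on `S³`: minima at wells which contain a singular orbit -/

open Real Set MeasureTheory Filter Topology
open scoped ContDiff

namespace Pool.Agent.L7h84.TT

open Pool.Agent.H206R2.Rot2

variable {L : ℝ} {f h σ : ℝ → ℝ}

lemma VV_zero_eq (M : IsTorusMetric L f h σ) (y : ℝ) {r : ℝ} (h0 : 0 < r) (hL : r < L) :
    VV f h σ (0, y) r = V0 f h σ y r := by
  have hA := (gA_pos M h0 hL.le).ne'
  have hW := (gW_pos M (by linarith) hL).ne'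
  unfold VV V0
  rw [gD_eq]
  field_simp
  ring

lemma v1_zero_eq (M : IsTorusMetric L f h σ) (y : ℝ) {r : ℝ} (h0 : 0 < r) (hL : r < L) :
    v1 f h σ (0, y) r = w1 f h σ y r := by
  have hA : f r ≠ 0 := (M.prof.f_pos r h0 hL.le).ne'
  have hW := (gW_pos M (by linarith) hL).ne'
  unfold v1 w1
  rw [gD_eq]
  unfold gA gB
  field_simp
  ring

lemma v2_zero_eq (M : IsTorusMetric L f h σ) (y : ℝ) {r : ℝ} (h0 : 0 < r) (hL : r < L) :
    v2 f h σ (0, y) r = w2 f h σ y r := by
  have hA := (gA_pos M h0 hL.le).ne'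
  have hW := (gW_pos M (by linarith) hL).ne'
  unfold v2 w2
  rw [gD_eq]
  field_simp
  ring

lemma W_limit (M : IsTorusMetric L f h σ) {d : ℝ × ℝ} (hd : d.1 ^ 2 = 1) :
    Tendsto (fun r => r ^ 2 * VV f h σ d r) (𝓝[>] 0) (𝓝 1) := by
  have hf0 := f_zero M
  have hh0 := M.prof.h_pos 0 le_rfl M.prof.pos
  have d1 : Tendsto (fun r => f r / r) (𝓝[>] 0) (𝓝 1) := by
    have := hasDerivAt_of _ M.prof.smooth_f 0
    rw [M.prof.f_deriv, hasDerivAt_iff_tendsto_slope_zero] at this
    have h3 := this.mono_left (nhdsWithin_mono (0 : ℝ) (fun x hx => (ne_of_gt hx : x ≠ 0)) :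
        𝓝[>] (0 : ℝ) ≤ 𝓝[≠] 0)
    refine h3.congr fun ε => ?_
    simp only [zero_add, hf0, sub_zero, smul_eq_mul]
    rw [div_eq_inv_mul]
  have hc : Continuous fun r => gQ f h σ d r := by
    have := gA_cont M
    have := gB_cont M
    have := gC_cont M
    unfold gQ
    fun_prop
  have hWc : Continuous (gW f h σ) := (gW_smooth M).continuous
  have hW0 : gW f h σ 0 ≠ 0 := (gW_pos M (by linarith [M.prof.pos]) M.prof.pos).ne'
  have d2 : Tendsto (fun r => gQ f h σ d r / gW f h σ r) (𝓝[>] 0) (𝓝 (gQ f h σ d 0 / gW f h σ 0)) :=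
    tendsto_nhdsWithin_of_tendsto_nhds ((hc.continuousAt.div hWc.continuousAt hW0))
  have e0 : gQ f h σ d 0 / gW f h σ 0 = 1 := by
    rw [div_eq_one_iff_eq hW0]
    unfold gQ gW gA gB gC
    rw [hf0, hd]
    ring
  rw [e0] at d2
  have d3 := ((d1.pow 2).inv₀ (by norm_num)).mul d2
  rw [one_pow, inv_one, one_mul] at d3
  refine d3.congr' ?_
  filter_upwards [Ioo_mem_nhdsGT M.prof.pos] with r hr
  have hfr : f r ≠ 0 := (M.prof.f_pos r hr.1 hr.2.le).ne'
  have hW := (gW_pos M (by linarith [hr.1, M.prof.pos]) hr.2).ne'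
  have hr0 : r ≠ 0 := hr.1.ne'
  rw [VV_eq, gD_eq]
  unfold gA
  field_simp

theorem case_core (hS : S_SING) {R : ℝ} {J : ℤ} (H : Hyp L f h σ R J)
    (hJ : ∀ r ∈ Icc 0 L, |σ r * h r ^ 2| < J) {δ : ℝ} (hδL : 2 * δ ≤ L) (hδ : 0 < δ) {y q : ℝ}
    (hy : 0 < y) (hyR : y < R) (hq0 : 0 < q) (hqL : q < L) (hδq : δ ≤ q)
    (hPq : 0 ≤ gP f h σ (0, y) q) (hwell : ∀ r ∈ Ioo 0 q, gP f h σ (0, y) r < 0)
    (hmin : ∀ n ∈ NN J, n.2 = 1 → ∀ x' ∈ KK L f h σ R δ n,
      4 * Act f h σ ((0, y), (0, q)) + 2 * π * y ≤ FF f h σ n x') :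
    Per L f h σ (4 * Act f h σ ((0, y), (0, q)) + 2 * π * y) := by
  have hπ := Real.pi_pos
  have M := H.M
  have hL := M.prof.pos
  have hsub : Ioo 0 q ⊆ Ioo 0 L := fun r hr => ⟨hr.1, hr.2.trans hqL⟩
  have hsubc : Icc 0 q ⊆ Ioo (-L) L := fun r hr => ⟨by linarith [hr.1], by linarith [hr.2]⟩
  obtain ⟨-, le2⟩ := end_le M hq0 hwell
  have hVVq : VV f h σ (0, y) q = 1 := (VV_eq_one_iff M _ hq0 hqL).2 (le_antisymm le2 hPq)
  have hVq : V0 f h σ y q = 1 := by rw [← VV_zero_eq M y hq0 hqL]; exact hVVq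
  have hin : ∀ r ∈ Ico 0 q, V0 f h σ y r < 1 := by
    intro r hr
    rcases eq_or_lt_of_le hr.1 with hh | hh
    · have e : V0 f h σ y 0 = y ^ 2 / h 0 ^ 2 := by
        unfold V0 gW
        rw [f_zero M]
        ring
      have hh0 := H.h_zero
      rw [← hh, e, div_lt_one (pow_pos (H.R_pos.trans hh0) 2)]
      exact pow_lt_pow_left₀ (hyR.trans hh0) hy.le two_ne_zero
    · rw [← VV_zero_eq M y hh (hr.2.trans hqL)]
      exact (VV_lt_one_iff M _ hh (hr.2.trans hqL)).2 (hwell r ⟨hh, hr.2⟩)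
  have hin' : ∀ r ∈ Ioo 0 q, V0 f h σ y r < 1 := fun r hr => hin r ⟨hr.1.le, hr.2⟩
  have hVcc : ContinuousOn (V0 f h σ y) (Ioo (-L) L) := (V0_contDiffOn M y).continuousOn
  have hVc : ContinuousOn (V0 f h σ y) (Icc 0 q) := hVcc.mono hsubc
  have hw1 : ContinuousOn (w1 f h σ y) (Ioo (-L) L) := (w1_contDiffOn M y).continuousOn
  have hw2 : ContinuousOn (w2 f h σ y) (Ioo (-L) L) := (w2_contDiffOn M y).continuousOn
  have hV0nn : ∀ r ∈ Ioo 0 q, 0 ≤ V0 f h σ y r := fun r hr => by
    rw [← VV_zero_eq M y hr.1 (hr.2.trans hqL)]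
    exact VV_nonneg M _ r
  have hIoo : ∀ (c' : ℝ × ℝ), ∫ r in (0 : ℝ)..q, √(1 - VV f h σ c' r) =
      ∫ r in Ioo 0 q, √(1 - VV f h σ c' r) := fun c' => by
    rw [intervalIntegral.integral_of_le hq0.le, integral_Ioc_eq_integral_Ioo]
  have hAct : Act f h σ ((0, y), (0, q)) = ∫ r in Ioo 0 q, √(1 - V0 f h σ y r) := by
    unfold Act
    simp only
    rw [hIoo]
    refine setIntegral_congr_fun measurableSet_Ioo fun r hr => ?_
    rw [VV_zero_eq M y hr.1 (hr.2.trans hqL)]
  rw [hAct] at hmin ⊢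
  -- the elements (j, 1)
  have memN : ∀ j : ℤ, j ≠ 0 → |j| ≤ J → ((j, 1) : ℤ × ℤ) ∈ NN J := by
    intro j h1 h2
    rw [mem_NN]
    exact ⟨h2, by simpa using H.J_pos, h1, one_ne_zero, Or.inr (by simp)⟩
  -- scaling
  have hint : IntegrableOn (fun r => 1 / √(1 - V0 f h σ y r)) (Ioo 0 q) := by
    refine int_of_radial (κ := π * y / 2) hq0 (hVc.mono Ioo_subset_Icc_self) hV0nn hin' ?_
    have ev : ∀ᶠ ε in 𝓝[>] (0 : ℝ), (1 + ε) * y < R := by
      have hc : Continuous fun ε : ℝ => (1 + ε) * y := by fun_prop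
      have ht := hc.tendsto 0
      simp only [add_zero, one_mul] at ht
      exact (tendsto_nhdsWithin_of_tendsto_nhds ht).eventually_lt_const hyR
    filter_upwards [ev, self_mem_nhdsWithin] with ε h1 h2
    rw [mem_Ioi] at h2
    have hmem : (((0, (1 + ε) * y), (0, q)) : (ℝ × ℝ) × (ℝ × ℝ)) ∈ KK L f h σ R δ (1, 1) := by
      refine ⟨⟨le_rfl, hq0.le, hqL.le, hδq, by show (0 : ℝ) ≤ L - δ; linarith⟩, ?_, ?_, ?_, ?_, ?_⟩
      · show 0 ≤ gP f h σ (0, (1 + ε) * y) 0
        rw [gP_zero M]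
        simp
      · show 0 ≤ gP f h σ (0, (1 + ε) * y) q
        have e : ((0, (1 + ε) * y) : ℝ × ℝ) = ((1 + ε) * (0, y).1, (1 + ε) * (0, y).2) := by simp
        unfold gP at hPq ⊢
        rw [e, gQ_smul]
        have := gQ_nonneg M (0, y) q
        nlinarith [mul_nonneg h2.le this, mul_nonneg (sq_nonneg ε) this]
      · show gL f h σ _ _ (0, (1 + ε) * y) 0 * gL f h σ _ _ (0, (1 + ε) * y) q ≤ 0
        rw [gL_zero M]
        simp
      · show 0 ≤ (((1 : ℤ) : ℝ)) * 0 + ((1 : ℤ) : ℝ) * ((1 + ε) * y)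
        simp only [Int.cast_one, mul_zero, zero_add, one_mul]
        positivity
      · show (((1 : ℤ) : ℝ)) * 0 + ((1 : ℤ) : ℝ) * ((1 + ε) * y) ≤ R
        simp only [Int.cast_one, mul_zero, zero_add, one_mul]
        exact h1.le
    have h3 := hmin (1, 1) (one_one_mem H.J_pos) rfl _ hmem
    unfold FF Act at h3
    simp only at h3
    rw [hIoo] at h3
    have e2 : ∫ r in Ioo 0 q, √(1 - VV f h σ (0, (1 + ε) * y) r) =
        ∫ r in Ioo 0 q, √(1 - (1 + ε) ^ 2 * V0 f h σ y r) := by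
      refine setIntegral_congr_fun measurableSet_Ioo fun r hr => ?_
      have e : ((0, (1 + ε) * y) : ℝ × ℝ) = ((1 + ε) * (0, y).1, (1 + ε) * (0, y).2) := by simp
      rw [e, VV_smul, VV_zero_eq M y hr.1 (hr.2.trans hqL)]
    rw [e2] at h3
    simp only [Int.cast_one, mul_zero, zero_add, one_mul] at h3
    nlinarith
  -- regular right end
  have hreg : (∀ᶠ x in 𝓝 q, DifferentiableAt ℝ (V0 f h σ y) x) ∧
      DifferentiableAt ℝ (deriv (V0 f h σ y)) q := by
    have h1 := V0_contDiffOn M y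
    rw [contDiffOn_infty_iff_deriv_of_isOpen isOpen_Ioo] at h1
    have hqm : q ∈ Ioo (-L) L := ⟨by linarith, hqL⟩
    constructor
    · filter_upwards [isOpen_Ioo.mem_nhds hqm] with x hx
      exact h1.1.differentiableAt (isOpen_Ioo.mem_nhds hx)
    · exact (h1.2.differentiableOn (by simp)).differentiableAt (isOpen_Ioo.mem_nhds hqm)
  have hq' : 0 < deriv (V0 f h σ y) q := TF.deriv_pos hq0 hreg.1 hreg.2 hVq hin' hint
  have b2 := TG.right_bound hreg.1.self_of_nhds hq' hVq
  obtain ⟨u, hu, hu'⟩ := (mem_nhdsGT_iff_exists_mem_Ioc_Ioo_subset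
    (by linarith : q < (q + L) / 2)).1 b2
  set a := deriv (V0 f h σ y) q / 2 with ha
  have ha0 : 0 < a := by rw [ha]; positivity
  have hVu : ∀ r ∈ Ico q u, 1 + a * (r - q) ≤ V0 f h σ y r := by
    intro r hr
    rcases eq_or_lt_of_le hr.1 with hh | hh
    · rw [← hh, hVq]; simp
    · exact hu' ⟨hh, hr.2⟩
  have huL : u < L := by linarith [hu.2]
  have hKsub : Icc 0 u ⊆ Ioo (-L) L := fun r hr => ⟨by linarith [hr.1], hr.2.trans_lt huL⟩
  -- the first variation
  have key : ∀ (j : ℤ) (d : ℝ × ℝ), j ≠ 0 → |j| ≤ J →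
      (d.1 = 0 ∨ d.1 ^ 2 = 1 ∧ 0 < d.1 * gL f h σ j 1 (0, y) q) →
      2 * ∫ r in Ioo 0 q, (2 * (w1 f h σ y r * d.1 + w2 f h σ y r * d.2)) / √(1 - V0 f h σ y r) ≤
      2 * π * (j * d.1 + d.2) - 2 * π * d.1 ^ 2 := by
    intro j d hj0 hjJ hd
    have hn := memN j hj0 hjJ
    set B : ℝ → ℝ := fun r => 2 * (w1 f h σ y r * d.1 + w2 f h σ y r * d.2) with hB
    have hBc : ContinuousOn B (Ioo (-L) L) :=
      continuousOn_const.mul ((hw1.mul continuousOn_const).add (hw2.mul continuousOn_const))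
    obtain ⟨C, hC⟩ := isCompact_Icc.exists_bound_of_continuousOn (hBc.mono hKsub)
    set C' := max C 1 with hC'
    have hC'0 : 0 < C' := lt_of_lt_of_le one_pos (le_max_right _ _)
    have hBC : ∀ r ∈ Icc 0 u, |B r| ≤ C' := fun r hr => by
      have := hC r hr
      rw [Real.norm_eq_abs] at this
      exact this.trans (le_max_left _ _)
    set K := C' / a with hK
    have hK0 : 0 < K := div_pos hC'0 ha0
    have hKa : a * K = C' := by rw [hK]; field_simp
    refine le_of_forall_pos_le_add fun η₀ hη₀ => ?_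
    set η := η₀ / 12 with hη
    have hη0 : 0 < η := by rw [hη]; positivity
    have hsubpq : Ioo 0 q ⊆ Icc 0 u := fun r hr => ⟨hr.1.le, by linarith [hr.2, hu.1]⟩
    have hVVadd : ∀ ε : ℝ, ∀ r ∈ Ioo 0 L, VV f h σ (ε * d.1, y + ε * d.2) r =
        V0 f h σ y r + ε * B r + ε ^ 2 * VV f h σ d r := by
      intro ε r hr
      have e := VV_add (f := f) (h := h) (σ := σ) (0, y) d ε r
      simp only [zero_add] at e
      rw [e, VV_zero_eq M y hr.1 hr.2, v1_zero_eq M y hr.1 hr.2, v2_zero_eq M y hr.1 hr.2]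
    -- inside estimate
    have ev1 : ∀ᶠ ε in 𝓝[>] (0 : ℝ), ∫ r in Ioo 0 q, √(1 - VV f h σ (ε * d.1, y + ε * d.2) r) ≤
        (∫ r in Ioo 0 q, √(1 - V0 f h σ y r)) - ε * ((∫ r in Ioo 0 q, B r / √(1 - V0 f h σ y r)) / 2 +
          π / 2 * d.1 ^ 2 - η) := by
      rcases hd with hd | ⟨hd, -⟩
      · have ev := inside (hVc.mono Ioo_subset_Icc_self) (hBc.mono (Ioo_subset_Icc_self.trans hsubc))
          (fun r hr => hBC r (hsubpq hr)) hin' hV0nn hint hη0
        filter_upwards [ev, self_mem_nhdsWithin] with ε h1 h2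
        rw [mem_Ioi] at h2
        rw [hd]
        have e : ∫ r in Ioo 0 q, √(1 - VV f h σ (ε * 0, y + ε * d.2) r) ≤
            ∫ r in Ioo 0 q, √(1 - (V0 f h σ y r + ε * B r)) := by
          refine setIntegral_mono_on ?_ ?_ measurableSet_Ioo fun r hr => ?_
          · refine intOn_bdd (M := 1) ?_ fun r _ => ?_
            · exact (continuousOn_const.sub ((VV_contDiffOn M _).continuousOn.mono hsub)).sqrt
            · rw [abs_of_nonneg (Real.sqrt_nonneg _)]
              exact sqrt_le_one' M _ r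
          · refine intOn_bdd (M := √(1 + ε * C')) ?_ fun r hr => ?_
            · exact (continuousOn_const.sub ((hVc.mono Ioo_subset_Icc_self).add
                (continuousOn_const.mul (hBc.mono (Ioo_subset_Icc_self.trans hsubc))))).sqrt
            · rw [abs_of_nonneg (Real.sqrt_nonneg _)]
              refine Real.sqrt_le_sqrt ?_
              have e1 := hV0nn r hr
              have e2 := hBC r (hsubpq hr)
              have e3 := neg_abs_le (B r)
              nlinarith
          · refine Real.sqrt_le_sqrt ?_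
            have e1 := hVVadd ε r (hsub hr)
            rw [hd] at e1
            rw [e1]
            have h7 := VV_nonneg M d r
            have h11 : 0 ≤ ε ^ 2 * VV f h σ d r := by positivity
            linarith
        have e3 : ε * ((∫ r in Ioo 0 q, B r / √(1 - V0 f h σ y r)) / 2 + π / 2 * 0 ^ 2 - η) =
            ε * ((∫ r in Ioo 0 q, B r / √(1 - V0 f h σ y r)) / 2 - η) := by ring
        rw [e3]
        exact e.trans h1
      · have hWc : ContinuousOn (VV f h σ d) (Ioc 0 q) :=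
          (VV_contDiffOn M d).continuousOn.mono fun r hr => ⟨hr.1, hr.2.trans_lt hqL⟩
        have ev := hS q (V0 f h σ y) B (VV f h σ d) hq0 hVc (hBc.mono hsubc) hWc hin
          (fun r _ => VV_nonneg M d r) (W_limit M hd) hint η hη0
        filter_upwards [ev] with ε h1
        have e : ∫ r in Ioo 0 q, √(1 - VV f h σ (ε * d.1, y + ε * d.2) r) =
            ∫ r in Ioo 0 q, √(1 - (V0 f h σ y r + ε * B r + ε ^ 2 * VV f h σ d r)) := by
          refine setIntegral_congr_fun measurableSet_Ioo fun r hr => ?_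
          rw [hVVadd ε r (hsub hr)]
        rw [e, hd, mul_one]
        exact h1
    have ev2 := small_sqrt (K := K) (M := C') hη0
    have ev3 : ∀ᶠ ε in 𝓝[>] (0 : ℝ), K * ε < u - q := by
      have hc : Continuous fun ε : ℝ => K * ε := by fun_prop
      have ht := hc.tendsto 0
      simp only [mul_zero] at ht
      exact (tendsto_nhdsWithin_of_tendsto_nhds ht).eventually_lt_const (by linarith [hu.1])
    have ev4 : ∀ᶠ ε in 𝓝[>] (0 : ℝ), 0 < y + ε * (j * d.1 + d.2) ∧
        y + ε * (j * d.1 + d.2) < R := by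
      have hc : Continuous fun ε : ℝ => y + ε * (j * d.1 + d.2) := by fun_prop
      have ht := hc.tendsto 0
      simp only [zero_mul, add_zero] at ht
      exact ((tendsto_nhdsWithin_of_tendsto_nhds ht).eventually_const_lt hy).and
        ((tendsto_nhdsWithin_of_tendsto_nhds ht).eventually_lt_const hyR)
    have ev5 : ∀ᶠ ε in 𝓝[>] (0 : ℝ), d.1 = 0 ∨
        0 < d.1 * gL f h σ j 1 (ε * d.1, y + ε * d.2) (q + K * ε) := by
      rcases hd with hd | ⟨-, hd⟩
      · exact Eventually.of_forall fun _ => Or.inl hd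
      · have g2 : Continuous fun ε : ℝ => d.1 * gL f h σ j 1 (ε * d.1, y + ε * d.2) (q + K * ε) :=
          continuous_const.mul ((gL_cont M j 1).comp
            (f := fun ε : ℝ => ((ε * d.1, y + ε * d.2), q + K * ε)) (by fun_prop))
        have ht := g2.tendsto 0
        simp only [zero_mul, mul_zero, add_zero] at ht
        filter_upwards [(tendsto_nhdsWithin_of_tendsto_nhds ht).eventually_const_lt hd] with ε hε
        exact Or.inr hε
    obtain ⟨ε, h1, h2, h3, h4, h5, h6'⟩ :=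
      (ev1.and (ev2.and (ev3.and (ev4.and (ev5.and self_mem_nhdsWithin))))).exists
    have h6 : 0 < ε := h6'
    have hKε : 0 < K * ε := mul_pos hK0 h6
    set c' : ℝ × ℝ := (ε * d.1, y + ε * d.2) with hc'
    have hVge : ∀ r ∈ Icc q u, V0 f h σ y r - ε * C' ≤ VV f h σ c' r := by
      intro r hr
      rw [hc', hVVadd ε r ⟨hq0.trans_le hr.1, hr.2.trans_lt huL⟩]
      have h7 := VV_nonneg M d r
      have h8 := hBC r ⟨hq0.le.trans hr.1, hr.2⟩
      have h9 := neg_abs_le (B r)
      have h10 : ε * B r ≥ -(ε * C') := by nlinarith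
      have h11 : 0 ≤ ε ^ 2 * VV f h σ d r := by positivity
      linarith
    have hκ' : (((j, 1) : ℤ × ℤ).1 : ℝ) * c'.1 + (((j, 1) : ℤ × ℤ).2 : ℝ) * c'.2 =
        y + ε * (j * d.1 + d.2) := by
      rw [hc']
      simp only [Int.cast_one]
      ring
    have hmem : ((c', (0, q + K * ε)) : (ℝ × ℝ) × (ℝ × ℝ)) ∈ KK L f h σ R δ (j, 1) := by
      refine ⟨⟨?_, ?_, ?_, ?_, ?_⟩, ?_, ?_, ?_, ?_, ?_⟩
      · exact le_rfl
      · show 0 ≤ q + K * ε
        linarith
      · show q + K * ε ≤ L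
        linarith
      · show δ ≤ q + K * ε
        linarith
      · show 0 ≤ L - δ
        linarith
      · show 0 ≤ gP f h σ c' 0
        rw [gP_zero M]
        have := gC_pos M le_rfl hL
        positivity
      · show 0 ≤ gP f h σ c' (q + K * ε)
        refine gP_nonneg_of M (by linarith) (by linarith) ?_
        have e1 := hVge (q + K * ε) ⟨by linarith, by linarith⟩
        have e2 := hVu (q + K * ε) ⟨by linarith, by linarith⟩
        have e3 : a * (q + K * ε - q) = ε * C' := by rw [← hKa]; ring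
        linarith
      · show gL f h σ (j : ℝ) ((1 : ℤ) : ℝ) c' 0 * gL f h σ (j : ℝ) ((1 : ℤ) : ℝ) c' (q + K * ε) ≤ 0
        rw [gL_zero M, Int.cast_one, mul_one]
        have hC0 := gC_pos M le_rfl hL
        rcases h5 with h5 | h5
        · have e : c'.1 = 0 := by rw [hc']; simp [h5]
          rw [e]
          simp
        · have e : c'.1 = ε * d.1 := rfl
          rw [e]
          have := mul_pos (mul_pos h6 hC0) h5
          nlinarith
      · show 0 ≤ (((j, 1) : ℤ × ℤ).1 : ℝ) * c'.1 + (((j, 1) : ℤ × ℤ).2 : ℝ) * c'.2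
        rw [hκ']; exact h4.1.le
      · show (((j, 1) : ℤ × ℤ).1 : ℝ) * c'.1 + (((j, 1) : ℤ × ℤ).2 : ℝ) * c'.2 ≤ R
        rw [hκ']; exact h4.2.le
    have h7 := hmin (j, 1) hn rfl _ hmem
    have hsplit : Act f h σ (c', (0, q + K * ε)) =
        (∫ r in (0 : ℝ)..q, √(1 - VV f h σ c' r)) + ∫ r in q..(q + K * ε), √(1 - VV f h σ c' r) := by
      unfold Act
      simp only
      rw [intervalIntegral.integral_add_adjacent_intervals (ii M c' _ _) (ii M c' _ _)]
    have o2 : ∫ r in q..(q + K * ε), √(1 - VV f h σ c' r) ≤ √(ε * C') * (K * ε) := by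
      have := outside M (c := c') (a := q) (b := q + K * ε) (B := ε * C') (by linarith) fun r hr => by
        have e1 := hVge r ⟨by linarith [hr.1], by linarith [hr.2]⟩
        have e2 := hVu r ⟨hr.1, by linarith [hr.2]⟩
        have e3 : 0 ≤ a * (r - q) := mul_nonneg ha0.le (by linarith [hr.1])
        linarith
      rwa [show q + K * ε - q = K * ε by ring] at this
    unfold FF at h7
    rw [hsplit, hIoo] at h7
    simp only at h7 hκ'
    rw [hκ'] at h7
    set S := ∫ r in Ioo 0 q, B r / √(1 - V0 f h σ y r) with hSdef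
    have fin : ε * (2 * S) ≤ ε * (2 * π * (j * d.1 + d.2) - 2 * π * d.1 ^ 2 + η₀) := by
      have : η₀ = 12 * η := by rw [hη]; ring
      rw [this]
      nlinarith
    exact le_of_mul_le_mul_left fin h6
  -- linearity
  have iv : ∀ g : ℝ → ℝ, ContinuousOn g (Ioo (-L) L) →
      IntegrableOn (fun r => g r / √(1 - V0 f h σ y r)) (Ioo 0 q) := by
    intro g hg
    obtain ⟨x₁, hx₁, hmax⟩ := isCompact_Icc.exists_isMaxOn (nonempty_Icc.2 hq0.le)
      (hg.mono hsubc).abs
    refine (hint.const_mul |g x₁|).mono' ?_ ?_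
    · apply ContinuousOn.aestronglyMeasurable _ measurableSet_Ioo
      refine (hg.mono (Ioo_subset_Icc_self.trans hsubc)).div
        (continuousOn_const.sub (hVc.mono Ioo_subset_Icc_self)).sqrt ?_
      intro x hx
      exact (Real.sqrt_pos.mpr (by linarith [hin' x hx])).ne'
    · refine (ae_restrict_iff' measurableSet_Ioo).mpr (ae_of_all _ fun x hx => ?_)
      have hs : 0 < √(1 - V0 f h σ y x) := Real.sqrt_pos.mpr (by linarith [hin' x hx])
      rw [Real.norm_eq_abs, abs_div, abs_of_pos hs, mul_one_div]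
      have h1 : |g x| ≤ |g x₁| := hmax (Ioo_subset_Icc_self hx)
      gcongr
  have lin : ∀ d : ℝ × ℝ, ∫ r in Ioo 0 q,
      (2 * (w1 f h σ y r * d.1 + w2 f h σ y r * d.2)) / √(1 - V0 f h σ y r) =
      2 * ((∫ r in Ioo 0 q, w1 f h σ y r / √(1 - V0 f h σ y r)) * d.1 +
        (∫ r in Ioo 0 q, w2 f h σ y r / √(1 - V0 f h σ y r)) * d.2) := by
    intro d
    rw [← integral_mul_const, ← integral_mul_const, ← integral_add ((iv _ hw1).mul_const _)
      ((iv _ hw2).mul_const _), ← integral_const_mul]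
    refine setIntegral_congr_fun measurableSet_Ioo fun r _ => ?_
    ring
  set I₁ := ∫ r in Ioo 0 q, w1 f h σ y r / √(1 - V0 f h σ y r) with hI₁
  set I₂ := ∫ r in Ioo 0 q, w2 f h σ y r / √(1 - V0 f h σ y r) with hI₂
  have one_le : |(1 : ℤ)| ≤ J := by simpa using H.J_pos
  have k3 := key 1 (0, 1) one_ne_zero one_le (Or.inl rfl)
  have k4 := key 1 (0, -1) one_ne_zero one_le (Or.inl rfl)
  rw [lin] at k3 k4
  simp only [mul_zero, zero_add, mul_one, mul_neg] at k3 k4
  have q2 : 4 * I₂ = 2 * π := by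
    have e3 : 2 * (2 * I₂) ≤ 2 * π := by nlinarith
    have e4 : -(2 * (2 * I₂)) ≤ -(2 * π) := by nlinarith
    linarith
  -- the two one sided inequalities
  have hAq := gA_pos M hq0 hqL.le
  have gLq : ∀ j : ℤ, gL f h σ j 1 (0, y) q = y * (gA f q * (j + σ q * h q ^ 2)) := by
    intro j
    unfold gL gA gB
    ring
  have right : ∀ j : ℤ, j ≠ 0 → |j| ≤ J → 0 < (j : ℝ) + σ q * h q ^ 2 → 4 * I₁ ≤ 2 * π * (j - 1) := by
    intro j hj0 hjJ hpos
    have hs : 0 < gL f h σ j 1 (0, y) q := by rw [gLq]; positivity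
    have k := key j (1, -j) hj0 hjJ (Or.inr ⟨by norm_num, by simpa using hs⟩)
    rw [lin] at k
    simp only [mul_one] at k
    have e : 4 * I₂ * (j : ℝ) = 2 * π * j := by rw [q2]
    nlinarith
  have left : ∀ j : ℤ, j ≠ 0 → |j| ≤ J → (j : ℝ) + σ q * h q ^ 2 < 0 → 2 * π * (j + 1) ≤ 4 * I₁ := by
    intro j hj0 hjJ hneg
    have hs : gL f h σ j 1 (0, y) q < 0 := by
      rw [gLq]
      exact mul_neg_of_pos_of_neg hy (mul_neg_of_pos_of_neg hAq hneg)
    have k := key j (-1, j) hj0 hjJ (Or.inr ⟨by norm_num, by simpa using hs⟩)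
    rw [lin] at k
    simp only [mul_neg, mul_one] at k
    have e : 4 * I₂ * (j : ℝ) = 2 * π * j := by rw [q2]
    nlinarith
  have hs := hJ q ⟨hq0.le, hqL.le⟩
  set s : ℝ := σ q * h q ^ 2 with hsdef
  obtain ⟨hs1, hs2⟩ := abs_lt.1 hs
  have q1 : 4 * I₁ = 0 := by
    by_cases hsmall : |s| < 1
    · obtain ⟨t1, t2⟩ := abs_lt.1 hsmall
      have r1 := right 1 one_ne_zero one_le (by push_cast; linarith)
      have r2 := left (-1) (by norm_num) (by simpa using H.J_pos) (by push_cast; linarith)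
      push_cast at r1 r2
      have e1 : 4 * I₁ ≤ 0 := by nlinarith
      have e2 : 0 ≤ 4 * I₁ := by nlinarith
      linarith
    · exfalso
      push Not at hsmall
      -- `-s` is not an integer
      have hnot : ∀ j : ℤ, (j : ℝ) ≠ -s := by
        intro j hj
        have hjJ : |j| ≤ J := by
          have h1 : |(j : ℝ)| < J := by rw [hj, abs_neg]; exact hs
          have h2 : ((|j| : ℤ) : ℝ) < J := by push_cast; exact h1
          have h3 : |j| < J := by exact_mod_cast h2
          exact h3.le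
        have hj0 : j ≠ 0 := by
          rintro rfl
          have : s = 0 := by push_cast at hj; linarith
          rw [this] at hsmall
          norm_num at hsmall
        have hne := gL_ne H (memN j hj0 hjJ) (c := (0, y)) (by simpa using hy.le)
          (by simpa using hyR.le) hq0 hqL hPq
        apply hne
        have := gLq j
        simp only [Int.cast_one]
        rw [this, hj]
        ring
      set j₀ : ℤ := ⌈-s⌉ with hj₀
      have c1 : -s ≤ j₀ := Int.le_ceil _
      have c2 : (j₀ : ℝ) < -s + 1 := Int.ceil_lt_add_one _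
      have c1' : -s < j₀ := lt_of_le_of_ne c1 (hnot j₀).symm
      have c2' : ((j₀ - 1 : ℤ) : ℝ) < -s := by push_cast; linarith
      have c3 : -s < 0 → j₀ ≤ -1 := by
        intro hneg
        have : s = |s| := (abs_of_pos (by linarith)).symm
        have h1 : (j₀ : ℝ) < 0 := by linarith
        have h2 : j₀ < 0 := by exact_mod_cast h1
        omega
      have c4 : 0 < -s → 2 ≤ j₀ := by
        intro hpos
        have : -s = |s| := (abs_of_neg (by linarith)).symm
        have h1 : (1 : ℝ) < j₀ := by linarith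
        have h2 : 1 < j₀ := by exact_mod_cast h1
        omega
      have hs0 : s ≠ 0 := by
        intro h0
        rw [h0] at hsmall
        norm_num at hsmall
      have hj0 : j₀ ≠ 0 ∧ j₀ - 1 ≠ 0 := by
        rcases lt_or_gt_of_ne hs0 with h1 | h1
        · have := c4 (by linarith)
          constructor <;> omega
        · have := c3 (by linarith)
          constructor <;> omega
      have b1 : j₀ ≤ J := by
        have h1 : -s < J := by linarith
        exact Int.ceil_le.2 h1.le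
      have b2 : -J ≤ j₀ - 1 := by
        have h1 : ((-J : ℤ) : ℝ) < j₀ := by push_cast; linarith
        have h2 : -J < j₀ := by exact_mod_cast h1
        omega
      have r1 := right j₀ hj0.1 (abs_le.2 ⟨by omega, b1⟩) (by linarith)
      have r2 := left (j₀ - 1) hj0.2 (abs_le.2 ⟨b2, by omega⟩) (by linarith)
      push_cast at r2
      nlinarith
  have res := closed_core M hq0 hqL hVq hq' hin hint (n := 0) (m := 1) (by rw [q1]; simp)
    (by rw [q2]; simp)
  have hval : 4 * ∫ x in Ioo 0 q, 1 / √(1 - V0 f h σ y x) =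
      4 * (∫ r in Ioo 0 q, √(1 - V0 f h σ y r)) + 2 * π * y := by
    have i0 : IntegrableOn (fun r => √(1 - V0 f h σ y r)) (Ioo 0 q) := by
      refine intOn_bdd (M := 1) ?_ fun r hr => ?_
      · exact (continuousOn_const.sub (hVc.mono Ioo_subset_Icc_self)).sqrt
      · rw [abs_of_nonneg (Real.sqrt_nonneg _), Real.sqrt_le_left zero_le_one]
        have := hV0nn r hr
        linarith
    have e1 : ∫ x in Ioo 0 q, 1 / √(1 - V0 f h σ y x) =
        (∫ r in Ioo 0 q, √(1 - V0 f h σ y r)) + I₂ * y := by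
      rw [hI₂, ← integral_mul_const, ← integral_add i0 ((iv _ hw2).mul_const _)]
      refine setIntegral_congr_fun measurableSet_Ioo fun r hr => ?_
      have hpos : 0 < 1 - V0 f h σ y r := by linarith [hin' r hr]
      have hs : 0 < √(1 - V0 f h σ y r) := Real.sqrt_pos.mpr hpos
      have h2 := Real.sq_sqrt hpos.le
      have h3 : V0 f h σ y r = w2 f h σ y r * y := by
        unfold V0 w2
        ring
      field_simp
      linarith
    rw [e1]
    linear_combination y * q2
  rw [← hval]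
  exact res

end Pool.Agent.L7h84.TT
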