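import Pool.Agent.H206R2.Rot2.TG

/-! # First variation of `∫ √(1 - V)` over a well: one variable analysis -/

open Real Set MeasureTheory Filter Topology
open scoped ContDiff

namespace Pool.Agent.L7h84.TT

open Pool.Agent.H206R2.Rot2.TF (sqrt_sub_le)

lemma intOn_bdd {g : ℝ → ℝ} {p q M : ℝ} (hg : ContinuousOn g (Ioo p q))
    (h : ∀ x ∈ Ioo p q, |g x| ≤ M) : IntegrableOn g (Ioo p q) := by
  have : IsFiniteMeasure (volume.restrict (Ioo p q)) := ⟨by simp⟩
  exact Integrable.of_bound (hg.aestronglyMeasurable measurableSet_Ioo) M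
    ((ae_restrict_iff' measurableSet_Ioo).mpr (ae_of_all _ h))

/-- Scaling the momentum: integrability of `1 / √(1 - V)`. -/
theorem int_of_radial {p q κ : ℝ} {V : ℝ → ℝ} (hpq : p < q) (hV : ContinuousOn V (Ioo p q))
    (h0 : ∀ x ∈ Ioo p q, 0 ≤ V x) (h1 : ∀ x ∈ Ioo p q, V x < 1)
    (hmin : ∀ᶠ ε in 𝓝[>] (0 : ℝ), ∫ r in Ioo p q, √(1 - V r) ≤
      (∫ r in Ioo p q, √(1 - (1 + ε) ^ 2 * V r)) + κ * ε) :
    IntegrableOn (fun r => 1 / √(1 - V r)) (Ioo p q) := by
  have hI : ∀ g : ℝ → ℝ, ContinuousOn g (Ioo p q) → (∀ x ∈ Ioo p q, 0 ≤ g x) →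
      (∀ x ∈ Ioo p q, g x ≤ 1) → IntegrableOn g (Ioo p q) := by
    intro g hg hg0 hg1
    refine intOn_bdd (M := 1) hg fun x hx => ?_
    rw [abs_of_nonneg (hg0 x hx)]
    exact hg1 x hx
  have hi1 : IntegrableOn (fun r => √(1 - V r)) (Ioo p q) := by
    refine hI _ (continuousOn_const.sub hV).sqrt (fun x _ => Real.sqrt_nonneg _) fun x hx => ?_
    rw [Real.sqrt_le_left zero_le_one]
    have := h0 x hx
    linarith
  have hi2 : ∀ ε : ℝ, IntegrableOn (fun r => √(1 - (1 + ε) ^ 2 * V r)) (Ioo p q) := by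
    intro ε
    refine hI _ (continuousOn_const.sub (continuousOn_const.mul hV)).sqrt
      (fun x _ => Real.sqrt_nonneg _) fun x hx => ?_
    rw [Real.sqrt_le_left zero_le_one]
    have := h0 x hx
    nlinarith [sq_nonneg (1 + ε), mul_nonneg (sq_nonneg (1 + ε)) this]
  -- compact sub-intervals
  have hbd : ∀ x y : ℝ, p < x → x ≤ y → y < q → ∫ r in Icc x y, V r / √(1 - V r) ≤ κ := by
    intro x y hx hxy hy
    have hsub : Icc x y ⊆ Ioo p q := fun r hr => ⟨by linarith [hr.1], by linarith [hr.2]⟩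
    obtain ⟨x₁, hx₁, hmax⟩ := isCompact_Icc.exists_isMaxOn (nonempty_Icc.mpr hxy) (hV.mono hsub)
    have hlt : V x₁ < 1 := h1 _ (hsub hx₁)
    have e1 : ∀ᶠ ε in 𝓝[>] (0 : ℝ), (1 + ε) ^ 2 * V x₁ < 1 := by
      have hc : Continuous fun ε : ℝ => (1 + ε) ^ 2 * V x₁ := by fun_prop
      have ht := hc.tendsto 0
      simp only [add_zero, one_pow, one_mul] at ht
      exact (tendsto_nhdsWithin_of_tendsto_nhds ht).eventually_lt_const hlt
    have e2 : ∀ᶠ ε in 𝓝[>] (0 : ℝ), ε ∈ Ioi (0 : ℝ) := self_mem_nhdsWithin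
    obtain ⟨ε, hε1, hε2, hε3⟩ := (e1.and (e2.and hmin)).exists
    rw [mem_Ioi] at hε2
    have hi3 : IntegrableOn (fun r => V r / √(1 - V r)) (Icc x y) := by
      refine ContinuousOn.integrableOn_Icc ?_
      refine (hV.mono hsub).div (continuousOn_const.sub (hV.mono hsub)).sqrt ?_
      intro r hr
      exact (Real.sqrt_pos.mpr (by linarith [h1 r (hsub hr)])).ne'
    have hi4 : IntegrableOn ((Icc x y).indicator fun r => ε * (V r / √(1 - V r))) (Ioo p q) := by
      rw [integrableOn_indicator_iff measurableSet_Icc, inter_eq_self_of_subset_left hsub]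
      exact hi3.const_mul ε
    have key : ∫ r in Ioo p q, √(1 - (1 + ε) ^ 2 * V r) ≤
        (∫ r in Ioo p q, √(1 - V r)) - ε * ∫ r in Icc x y, V r / √(1 - V r) := by
      have c2 : ε * ∫ r in Icc x y, V r / √(1 - V r) =
          ∫ r in Ioo p q, (Icc x y).indicator (fun r => ε * (V r / √(1 - V r))) r := by
        rw [setIntegral_indicator measurableSet_Icc, inter_eq_self_of_subset_right hsub,
          integral_const_mul]
      rw [c2, ← integral_sub hi1 hi4]
      apply setIntegral_mono_on (hi2 ε) (hi1.sub hi4) measurableSet_Ioo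
      intro r hr
      have hr0 := h0 r hr
      have hr1 := h1 r hr
      simp only [Pi.sub_apply]
      by_cases hrI : r ∈ Icc x y
      · rw [indicator_of_mem hrI]
        have hle : V r ≤ V x₁ := hmax hrI
        have hlt' : (1 + ε) ^ 2 * V r < 1 :=
          lt_of_le_of_lt (mul_le_mul_of_nonneg_left hle (by positivity)) hε1
        have k1 := sqrt_sub_le (a := 1 - V r) (b := 1 - (1 + ε) ^ 2 * V r) (by linarith)
          (by linarith)
        have hs : 0 < √(1 - V r) := Real.sqrt_pos.mpr (by linarith)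
        have k2 : (1 - (1 + ε) ^ 2 * V r - (1 - V r)) / (2 * √(1 - V r)) =
            -(ε * (V r / √(1 - V r))) - ε ^ 2 * V r / (2 * √(1 - V r)) := by
          field_simp
          ring
        have k3 : 0 ≤ ε ^ 2 * V r / (2 * √(1 - V r)) := by positivity
        rw [k2] at k1
        linarith
      · rw [indicator_of_notMem hrI, sub_zero]
        refine Real.sqrt_le_sqrt ?_
        nlinarith [mul_nonneg hr0 hε2.le, mul_nonneg hr0 (sq_nonneg ε)]
    have : ε * ∫ r in Icc x y, V r / √(1 - V r) ≤ ε * κ := by linarith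
    exact le_of_mul_le_mul_left this hε2
  -- exhaustion
  set s₀ := (p + q) / 2 with hs₀
  set a : ℕ → ℝ := fun n => p + (s₀ - p) / ((n : ℝ) + 2) with ha
  set b : ℕ → ℝ := fun n => q - (q - s₀) / ((n : ℝ) + 2) with hb
  have hps : p < s₀ := by rw [hs₀]; linarith
  have hsq : s₀ < q := by rw [hs₀]; linarith
  have hlim : ∀ c : ℝ, Tendsto (fun n : ℕ => c / ((n : ℝ) + 2)) atTop (𝓝 0) := fun c =>
    tendsto_const_nhds.div_atTop (tendsto_atTop_add_const_right _ _ tendsto_natCast_atTop_atTop)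
  have ha' : Tendsto a atTop (𝓝 p) := by
    simpa using (tendsto_const_nhds (x := p)).add (hlim (s₀ - p))
  have hb' : Tendsto b atTop (𝓝 q) := by
    simpa using (tendsto_const_nhds (x := q)).sub (hlim (q - s₀))
  have hn2 : ∀ n : ℕ, (1 : ℝ) < (n : ℝ) + 2 := fun n => by
    have : (0 : ℝ) ≤ n := Nat.cast_nonneg n
    linarith
  have hab : ∀ n, p < a n ∧ a n ≤ b n ∧ b n < q := fun n => by
    have h1 : 0 < (s₀ - p) / ((n : ℝ) + 2) := div_pos (by linarith) (by linarith [hn2 n])
    have h2 : 0 < (q - s₀) / ((n : ℝ) + 2) := div_pos (by linarith) (by linarith [hn2 n])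
    have h3 : (s₀ - p) / ((n : ℝ) + 2) < s₀ - p := div_lt_self (by linarith) (hn2 n)
    have h4 : (q - s₀) / ((n : ℝ) + 2) < q - s₀ := div_lt_self (by linarith) (hn2 n)
    refine ⟨?_, ?_, ?_⟩ <;> simp only [ha, hb] <;> linarith
  have hcov : AECover (volume.restrict (Ioo p q)) atTop fun n => Icc (a n) (b n) :=
    aecover_Ioo_of_Icc ha' hb'
  have hsubn : ∀ n, Icc (a n) (b n) ⊆ Ioo p q := fun n r hr =>
    ⟨(hab n).1.trans_le hr.1, hr.2.trans_lt (hab n).2.2⟩
  have hrr : ∀ n, (volume.restrict (Ioo p q)).restrict (Icc (a n) (b n)) =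
      volume.restrict (Icc (a n) (b n)) := fun n => by
    rw [Measure.restrict_restrict measurableSet_Icc, inter_eq_self_of_subset_left (hsubn n)]
  have hint : Integrable (fun r => V r / √(1 - V r)) (volume.restrict (Ioo p q)) := by
    refine hcov.integrable_of_integral_bounded_of_nonneg_ae κ ?_ ?_ ?_
    · intro n
      unfold IntegrableOn
      rw [hrr n]
      refine ContinuousOn.integrableOn_Icc ?_
      refine (hV.mono (hsubn n)).div (continuousOn_const.sub (hV.mono (hsubn n))).sqrt ?_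
      intro r hr
      exact (Real.sqrt_pos.mpr (by linarith [h1 r (hsubn n hr)])).ne'
    · refine (ae_restrict_iff' measurableSet_Ioo).mpr (ae_of_all _ fun r hr => ?_)
      have := h0 r hr
      positivity
    · refine Eventually.of_forall fun n => ?_
      rw [hrr n]
      exact hbd _ _ (hab n).1 (hab n).2.1 (hab n).2.2
  have hsum : IntegrableOn (fun r => √(1 - V r) + V r / √(1 - V r)) (Ioo p q) := hi1.add hint
  refine hsum.congr_fun (fun r hr => ?_) measurableSet_Ioo
  have hpos : 0 < 1 - V r := by linarith [h1 r hr]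
  have hs : 0 < √(1 - V r) := Real.sqrt_pos.mpr hpos
  have h2 := Real.sq_sqrt hpos.le
  simp only
  rw [eq_div_iff hs.ne']
  field_simp
  linarith

lemma sqrt_abs_le {u x : ℝ} (hu : 0 < u) : |√(u - x) - √u| ≤ |x| / √u := by
  have hs : 0 < √u := Real.sqrt_pos.mpr hu
  rw [le_div_iff₀ hs, ← abs_of_pos hs, ← abs_mul, abs_of_pos hs]
  have h1 := Real.sq_sqrt hu.le
  rcases le_total 0 (u - x) with h | h
  · have h2 := Real.sq_sqrt h
    have h3 := Real.sqrt_nonneg (u - x)
    have e : |x| = |√(u - x) - √u| * (√(u - x) + √u) := by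
      rw [← abs_of_nonneg (by positivity : 0 ≤ √(u - x) + √u), ← abs_mul, ← abs_neg x]
      congr 1
      nlinarith
    rw [e, abs_mul, abs_of_pos hs]
    have := abs_nonneg (√(u - x) - √u)
    nlinarith
  · rw [Real.sqrt_eq_zero_of_nonpos h, zero_sub, neg_mul, abs_neg, abs_of_nonneg (by positivity),
      abs_of_nonneg (by linarith)]
    nlinarith

/-- The first variation inside the well. -/
theorem inside {p q M : ℝ} {V B : ℝ → ℝ} (hV : ContinuousOn V (Ioo p q))
    (hB : ContinuousOn B (Ioo p q)) (hM : ∀ r ∈ Ioo p q, |B r| ≤ M)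
    (hin : ∀ x ∈ Ioo p q, V x < 1) (h0 : ∀ x ∈ Ioo p q, 0 ≤ V x)
    (hint : IntegrableOn (fun r => 1 / √(1 - V r)) (Ioo p q)) {η : ℝ} (hη : 0 < η) :
    ∀ᶠ ε in 𝓝[>] (0 : ℝ), ∫ r in Ioo p q, √(1 - (V r + ε * B r)) ≤
      (∫ r in Ioo p q, √(1 - V r)) - ε * ((∫ r in Ioo p q, B r / √(1 - V r)) / 2 - η) := by
  have hlim : Tendsto (fun ε : ℝ => ∫ r in Ioo p q, (√(1 - (V r + ε * B r)) - √(1 - V r)) / ε)
      (𝓝[>] 0) (𝓝 (∫ r in Ioo p q, -(B r) / (2 * √(1 - V r)))) := by
    refine tendsto_integral_filter_of_dominated_convergence (fun r => M * (1 / √(1 - V r)))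
      ?_ ?_ (hint.const_mul M) ?_
    · refine Eventually.of_forall fun ε => ?_
      refine ContinuousOn.aestronglyMeasurable ?_ measurableSet_Ioo
      exact (((continuousOn_const.sub (hV.add (continuousOn_const.mul hB))).sqrt).sub
        (continuousOn_const.sub hV).sqrt).div_const _
    · filter_upwards [self_mem_nhdsWithin] with ε hε
      rw [mem_Ioi] at hε
      refine (ae_restrict_iff' measurableSet_Ioo).mpr (ae_of_all _ fun r hr => ?_)
      have hu : 0 < 1 - V r := by linarith [hin r hr]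
      have hs : 0 < √(1 - V r) := Real.sqrt_pos.mpr hu
      have h1 := sqrt_abs_le (u := 1 - V r) (x := ε * B r) hu
      rw [Real.norm_eq_abs, abs_div, abs_of_pos hε, div_le_iff₀ hε,
        show 1 - (V r + ε * B r) = 1 - V r - ε * B r by ring]
      refine h1.trans ?_
      rw [abs_mul, abs_of_pos hε]
      have h2 := hM r hr
      calc ε * |B r| / √(1 - V r) = ε * (1 / √(1 - V r)) * |B r| := by ring
        _ ≤ ε * (1 / √(1 - V r)) * M := by gcongr
        _ = _ := by ring
    · refine (ae_restrict_iff' measurableSet_Ioo).mpr (ae_of_all _ fun r hr => ?_)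
      have hu : 0 < 1 - V r := by linarith [hin r hr]
      have hd : HasDerivAt (fun ε : ℝ => √(1 - (V r + ε * B r))) (-(B r) / (2 * √(1 - V r))) 0 := by
        have h1 : HasDerivAt (fun ε : ℝ => 1 - (V r + ε * B r)) (-(B r)) 0 := by
          have := (hasDerivAt_const (0 : ℝ) (1 : ℝ)).fun_sub ((hasDerivAt_const (0 : ℝ) (V r)).fun_add
            ((hasDerivAt_id (0 : ℝ)).mul_const (B r)))
          refine this.congr_deriv ?_
          ring
        have h2 := h1.sqrt (by simpa using hu.ne')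
        refine h2.congr_deriv ?_
        simp
      rw [hasDerivAt_iff_tendsto_slope_zero] at hd
      have h3 := hd.mono_left (nhdsWithin_mono (0 : ℝ) (fun x hx => (ne_of_gt hx : x ≠ 0)) :
        𝓝[>] (0 : ℝ) ≤ 𝓝[≠] 0)
      refine h3.congr fun ε => ?_
      simp only [zero_add, zero_mul, add_zero, smul_eq_mul]
      rw [div_eq_inv_mul]
  have hval : ∫ r in Ioo p q, -(B r) / (2 * √(1 - V r)) = -((∫ r in Ioo p q, B r / √(1 - V r)) / 2) := by
    rw [← integral_div, ← integral_neg]
    refine setIntegral_congr_fun measurableSet_Ioo fun r hr => ?_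
    have hu : 0 < 1 - V r := by linarith [hin r hr]
    have hs : 0 < √(1 - V r) := Real.sqrt_pos.mpr hu
    field_simp
  rw [hval] at hlim
  have hb := hlim.eventually_lt_const
    (show -((∫ r in Ioo p q, B r / √(1 - V r)) / 2) < -((∫ r in Ioo p q, B r / √(1 - V r)) / 2 - η)
      by linarith)
  filter_upwards [hb, self_mem_nhdsWithin] with ε h1 h2
  rw [mem_Ioi] at h2
  have i1 : IntegrableOn (fun r => √(1 - V r)) (Ioo p q) := by
    refine intOn_bdd (M := 1) (continuousOn_const.sub hV).sqrt fun x hx => ?_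
    rw [abs_of_nonneg (Real.sqrt_nonneg _), Real.sqrt_le_left zero_le_one]
    have := h0 x hx
    linarith
  have i2 : IntegrableOn (fun r => √(1 - (V r + ε * B r))) (Ioo p q) := by
    refine intOn_bdd (M := √(1 + ε * M))
      (continuousOn_const.sub (hV.add (continuousOn_const.mul hB))).sqrt fun x hx => ?_
    rw [abs_of_nonneg (Real.sqrt_nonneg _)]
    refine Real.sqrt_le_sqrt ?_
    have := h0 x hx
    have h3 := hM x hx
    have h4 := neg_abs_le (B x)
    nlinarith
  rw [integral_div, div_lt_iff₀ h2, integral_sub i2 i1] at h1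
  linarith

end Pool.Agent.L7h84.TT
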