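import Pool.Agent.L7h84.TT.Defs
import Pool.Agent.H206R2.Rot2.TH

/-! # Torus invariant metrics on `S³`: construction of periodic geodesics -/

open Real Set MeasureTheory
open scoped ContDiff

namespace Pool.Agent.L7h84.TT

open Pool.Agent.H206R2.Rot2 (IsProfile2)

variable {L : ℝ} {f h σ : ℝ → ℝ}

/-! ### Basic facts -/

lemma gA_smooth (M : IsTorusMetric L f h σ) : ContDiff ℝ ∞ (gA f) := by
  unfold gA
  exact M.prof.smooth_f.pow 2

lemma gC_smooth (M : IsTorusMetric L f h σ) : ContDiff ℝ ∞ (gC h) := by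
  unfold gC
  exact M.prof.smooth_h.pow 2

lemma gB_smooth (M : IsTorusMetric L f h σ) : ContDiff ℝ ∞ (gB f h σ) := by
  unfold gB
  exact (M.smooth.mul (M.prof.smooth_f.pow 2)).mul (M.prof.smooth_h.pow 2)

lemma gD_smooth (M : IsTorusMetric L f h σ) : ContDiff ℝ ∞ (gD f h σ) := by
  unfold gD
  exact ((gA_smooth M).mul (gC_smooth M)).sub ((gB_smooth M).pow 2)

/-- `gD = gA * gW` -/
noncomputable def gW (f h σ : ℝ → ℝ) (r : ℝ) : ℝ := h r ^ 2 * (1 - (σ r * f r * h r) ^ 2)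

lemma gW_smooth (M : IsTorusMetric L f h σ) : ContDiff ℝ ∞ (gW f h σ) := by
  unfold gW
  exact (M.prof.smooth_h.pow 2).mul (contDiff_const.sub
    (((M.smooth.mul M.prof.smooth_f).mul M.prof.smooth_h).pow 2))

lemma gD_eq (r : ℝ) : gD f h σ r = gA f r * gW f h σ r := by
  unfold gD gA gB gC gW
  ring

lemma gA_pos (M : IsTorusMetric L f h σ) {r : ℝ} (h0 : 0 < r) (hL : r ≤ L) : 0 < gA f r := by
  have := M.prof.f_pos r h0 hL
  unfold gA
  positivity

lemma gC_pos (M : IsTorusMetric L f h σ) {r : ℝ} (h0 : 0 ≤ r) (hL : r < L) : 0 < gC h r := by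
  have := M.prof.h_pos r h0 hL
  unfold gC
  positivity

lemma h_ne (M : IsTorusMetric L f h σ) {r : ℝ} (h0 : -L < r) (hL : r < L) : h r ≠ 0 := by
  rcases le_total 0 r with hr | hr
  · exact (M.prof.h_pos r hr hL).ne'
  · rw [← M.prof.h_even]
    exact (M.prof.h_pos (-r) (by linarith) (by linarith)).ne'

lemma gW_pos (M : IsTorusMetric L f h σ) {r : ℝ} (h0 : -L < r) (hL : r < L) : 0 < gW f h σ r := by
  have h1 := h_ne M h0 hL
  have h2 := M.lt_one r
  unfold gW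
  have : 0 < 1 - (σ r * f r * h r) ^ 2 := by linarith
  positivity

lemma gD_pos (M : IsTorusMetric L f h σ) {r : ℝ} (h0 : 0 < r) (hL : r < L) : 0 < gD f h σ r := by
  rw [gD_eq]
  exact mul_pos (gA_pos M h0 hL.le) (gW_pos M (by linarith) hL)

/-- The angular velocities. -/
noncomputable def v1 (f h σ : ℝ → ℝ) (c : ℝ × ℝ) (r : ℝ) : ℝ :=
  (c.1 * gC h r - c.2 * gB f h σ r) / gD f h σ r

noncomputable def v2 (f h σ : ℝ → ℝ) (c : ℝ × ℝ) (r : ℝ) : ℝ :=
  (c.2 * gA f r - c.1 * gB f h σ r) / gD f h σ r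

lemma hasDerivAt_of (g : ℝ → ℝ) (hg : ContDiff ℝ ∞ g) (r : ℝ) : HasDerivAt g (deriv g r) r :=
  (hg.differentiable (by simp)).differentiableAt.hasDerivAt

lemma VV_hasDerivAt (M : IsTorusMetric L f h σ) (c : ℝ × ℝ) {r : ℝ} (h0 : 0 < r) (hL : r < L) :
    HasDerivAt (VV f h σ c) (-(deriv (gA f) r * v1 f h σ c r ^ 2 +
      2 * deriv (gB f h σ) r * (v1 f h σ c r * v2 f h σ c r) +
      deriv (gC h) r * v2 f h σ c r ^ 2)) r := by
  have dA := hasDerivAt_of _ (gA_smooth M) r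
  have dB := hasDerivAt_of _ (gB_smooth M) r
  have dC := hasDerivAt_of _ (gC_smooth M) r
  have dD : HasDerivAt (gD f h σ) (deriv (gA f) r * gC h r + gA f r * deriv (gC h) r -
      2 * gB f h σ r * deriv (gB f h σ) r) r := by
    have := (dA.fun_mul dC).fun_sub (dB.fun_pow 2)
    refine this.congr_deriv ?_
    push_cast
    ring
  have hD := (gD_pos M h0 hL).ne'
  have dN : HasDerivAt (fun r => c.1 ^ 2 * gC h r - 2 * c.1 * c.2 * gB f h σ r + c.2 ^ 2 * gA f r)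
      (c.1 ^ 2 * deriv (gC h) r - 2 * c.1 * c.2 * deriv (gB f h σ) r +
        c.2 ^ 2 * deriv (gA f) r) r :=
    ((dC.const_mul _).fun_sub (dB.const_mul _)).fun_add (dA.const_mul _)
  have := dN.fun_div dD hD
  refine this.congr_deriv ?_
  unfold v1 v2
  have e : gD f h σ r = gA f r * gC h r - gB f h σ r ^ 2 := rfl
  field_simp
  rw [e]
  ring

lemma VV_contDiffOn (M : IsTorusMetric L f h σ) (c : ℝ × ℝ) :
    ContDiffOn ℝ ∞ (VV f h σ c) (Ioo 0 L) := by
  unfold VV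
  refine ContDiffOn.div ?_ (gD_smooth M).contDiffOn fun r hr => (gD_pos M hr.1 hr.2).ne'
  exact (((contDiff_const.mul (gC_smooth M)).sub (contDiff_const.mul (gB_smooth M))).add
    (contDiff_const.mul (gA_smooth M))).contDiffOn

lemma v1_contDiffOn (M : IsTorusMetric L f h σ) (c : ℝ × ℝ) :
    ContDiffOn ℝ ∞ (v1 f h σ c) (Ioo 0 L) := by
  unfold v1
  refine ContDiffOn.div ?_ (gD_smooth M).contDiffOn fun r hr => (gD_pos M hr.1 hr.2).ne'
  exact ((contDiff_const.mul (gC_smooth M)).sub (contDiff_const.mul (gB_smooth M))).contDiffOn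

lemma v2_contDiffOn (M : IsTorusMetric L f h σ) (c : ℝ × ℝ) :
    ContDiffOn ℝ ∞ (v2 f h σ c) (Ioo 0 L) := by
  unfold v2
  refine ContDiffOn.div ?_ (gD_smooth M).contDiffOn fun r hr => (gD_pos M hr.1 hr.2).ne'
  exact ((contDiff_const.mul (gA_smooth M)).sub (contDiff_const.mul (gB_smooth M))).contDiffOn

/-! ### Angles and periodicity -/

lemma angle' {φ : ℝ → ℝ} {T : ℝ} (hφ : ContDiff ℝ 1 φ) (hT : ∀ t, φ (t + T) = φ t) :
    ∃ θ : ℝ → ℝ, ContDiff ℝ 2 θ ∧ (∀ t, deriv θ t = φ t) ∧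
      ∀ t, θ (t + T) = θ t + ∫ s in (0 : ℝ)..T, φ s := by
  have hFc : Continuous φ := hφ.continuous
  have hd : ∀ t, HasDerivAt (fun t => ∫ s in (0 : ℝ)..t, φ s) (φ t) t := fun t =>
    intervalIntegral.integral_hasDerivAt_right (hFc.intervalIntegrable _ _)
      (hFc.stronglyMeasurableAtFilter _ _) hFc.continuousAt
  have hder : deriv (fun t => ∫ s in (0 : ℝ)..t, φ s) = φ := funext fun t => (hd t).deriv
  refine ⟨fun t => ∫ s in (0 : ℝ)..t, φ s, ?_, fun t => (hd t).deriv, fun t => ?_⟩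
  · rw [show (2 : WithTop ℕ∞) = 1 + 1 by norm_num, contDiff_succ_iff_deriv]
    refine ⟨fun t => (hd t).differentiableAt, by simp, ?_⟩
    rw [hder]; exact hφ
  · have hper : Function.Periodic φ T := hT
    have h1 := hper.intervalIntegral_add_eq t 0
    simp only [zero_add] at h1
    change ∫ s in (0 : ℝ)..(t + T), φ s = (∫ s in (0 : ℝ)..t, φ s) + ∫ s in (0 : ℝ)..T, φ s
    rw [← h1, intervalIntegral.integral_add_adjacent_intervals (hFc.intervalIntegrable _ _)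
      (hFc.intervalIntegrable _ _)]

lemma pt_add (L r α β : ℝ) (n m : ℤ) : pt L r (α + 2 * π * n) (β + 2 * π * m) = pt L r α β := by
  have key : ∀ (x : ℝ) (n : ℤ), Complex.exp (((x + 2 * π * n : ℝ) : ℂ) * Complex.I) =
      Complex.exp ((x : ℂ) * Complex.I) := by
    intro x n
    rw [Complex.exp_eq_exp_iff_exists_int]
    exact ⟨n, by push_cast; ring⟩
  unfold pt
  rw [key, key]

/-- a periodic geodesic of unit speed with period `T` -/
def Per (L : ℝ) (f h σ : ℝ → ℝ) (T : ℝ) : Prop :=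
  ∃ γ : ℝ → ℂ × ℂ, IsGeodesicT L f h σ 1 γ ∧ ∀ t, γ (t + T) = γ t

/-- general construction -/
lemma geod_of {r α β : ℝ → ℝ} (hr : ContDiff ℝ 2 r) (hα : ContDiff ℝ 2 α) (hβ : ContDiff ℝ 2 β)
    {c₁ c₂ : ℝ} (h1 : ∀ t, gA f (r t) * deriv α t + gB f h σ (r t) * deriv β t = c₁)
    (h2 : ∀ t, gB f h σ (r t) * deriv α t + gC h (r t) * deriv β t = c₂)
    (h3 : ∀ t, deriv (deriv r) t = (deriv (gA f) (r t) * deriv α t ^ 2 +
      2 * deriv (gB f h σ) (r t) * (deriv α t * deriv β t) + deriv (gC h) (r t) * deriv β t ^ 2) / 2)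
    (h4 : ∀ t, deriv r t ^ 2 + (c₁ * deriv α t + c₂ * deriv β t) = 1) :
    IsGeodesicT L f h σ 1 (fun t => pt L (r t) (α t) (β t)) := by
  refine ⟨r, α, β, hr, hα, hβ, fun t => rfl, h3, fun t => ?_, fun t => ?_, fun t => ?_⟩
  · have e : (fun t => gA f (r t) * deriv α t + gB f h σ (r t) * deriv β t) = fun _ => c₁ :=
      funext h1
    rw [e]
    exact hasDerivAt_const t c₁
  · have e : (fun t => gB f h σ (r t) * deriv α t + gC h (r t) * deriv β t) = fun _ => c₂ :=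
      funext h2
    rw [e]
    exact hasDerivAt_const t c₂
  · rw [one_pow, ← h4 t, ← h1 t, ← h2 t]
    ring

/-- Regular wells. -/
theorem closed_reg (M : IsTorusMetric L f h σ) {c : ℝ × ℝ} {p q : ℝ} (hp : 0 < p) (hpq : p < q)
    (hq : q < L) (hVp : VV f h σ c p = 1) (hVq : VV f h σ c q = 1)
    (hp' : deriv (VV f h σ c) p < 0) (hq' : 0 < deriv (VV f h σ c) q)
    (hin : ∀ x ∈ Ioo p q, VV f h σ c x < 1) {n m : ℤ}
    (h1 : 4 * ∫ x in Ioo p q, v1 f h σ c x / √(1 - VV f h σ c x) = 2 * π * n)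
    (h2 : 4 * ∫ x in Ioo p q, v2 f h σ c x / √(1 - VV f h σ c x) = 2 * π * m) :
    Per L f h σ (4 * ∫ x in Ioo p q, 1 / √(1 - VV f h σ c x)) := by
  obtain ⟨r, T, hT, hTeq, hr, hrI, hr2, hr1, hrT, hrint⟩ :=
    H206R2.Rot2.TH.oscillator hp hpq hq (VV_contDiffOn M c) hVp hVq hp' hq' hin
  have hrI' : ∀ t, r t ∈ Ioo 0 L := fun t => ⟨hp.trans_le (hrI t).1, (hrI t).2.trans_lt hq⟩
  have hsub : Icc p q ⊆ Ioo 0 L := fun x hx => ⟨hp.trans_le hx.1, hx.2.trans_lt hq⟩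
  have c1 : ContDiff ℝ 1 fun t => v1 f h σ c (r t) :=
    ((v1_contDiffOn M c).of_le (by exact_mod_cast le_top)).comp_contDiff
      (hr.of_le (by norm_num)) hrI'
  have c2 : ContDiff ℝ 1 fun t => v2 f h σ c (r t) :=
    ((v2_contDiffOn M c).of_le (by exact_mod_cast le_top)).comp_contDiff
      (hr.of_le (by norm_num)) hrI'
  obtain ⟨α, hα, hαd, hαT⟩ := angle' (T := T) c1 fun t => by simp only [hrT]
  obtain ⟨β, hβ, hβd, hβT⟩ := angle' (T := T) c2 fun t => by simp only [hrT]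
  have i1 := hrint (v1 f h σ c) ((v1_contDiffOn M c).continuousOn.mono hsub)
  have i2 := hrint (v2 f h σ c) ((v2_contDiffOn M c).continuousOn.mono hsub)
  have hT2 : 4 * ∫ x in Ioo p q, 1 / √(1 - VV f h σ c x) = T + T := by rw [hTeq]; ring
  refine ⟨fun t => pt L (r t) (α t) (β t), geod_of (c₁ := c.1) (c₂ := c.2) hr hα hβ ?_ ?_ ?_ ?_, ?_⟩
  · intro t
    rw [hαd, hβd]
    have hD := (gD_pos M (hrI' t).1 (hrI' t).2).ne'
    have e : gD f h σ (r t) = gA f (r t) * gC h (r t) - gB f h σ (r t) ^ 2 := rfl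
    unfold v1 v2
    field_simp
    rw [e]
    ring
  · intro t
    rw [hαd, hβd]
    have hD := (gD_pos M (hrI' t).1 (hrI' t).2).ne'
    have e : gD f h σ (r t) = gA f (r t) * gC h (r t) - gB f h σ (r t) ^ 2 := rfl
    unfold v1 v2
    field_simp
    rw [e]
    ring
  · intro t
    rw [hr2, (VV_hasDerivAt M c (hrI' t).1 (hrI' t).2).deriv, hαd, hβd]
    ring
  · intro t
    rw [hr1, hαd, hβd]
    unfold v1 v2 VV
    ring
  · intro t
    simp only
    rw [hT2, ← add_assoc, hrT, hrT, hαT, hαT, hβT, hβT, i1, i2]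
    have e1 : α t + (2 * ∫ x in Ioo p q, v1 f h σ c x / √(1 - VV f h σ c x)) +
        (2 * ∫ x in Ioo p q, v1 f h σ c x / √(1 - VV f h σ c x)) = α t + 2 * π * n := by
      rw [← h1]; ring
    have e2 : β t + (2 * ∫ x in Ioo p q, v2 f h σ c x / √(1 - VV f h σ c x)) +
        (2 * ∫ x in Ioo p q, v2 f h σ c x / √(1 - VV f h σ c x)) = β t + 2 * π * m := by
      rw [← h2]; ring
    rw [e1, e2, pt_add]

/-- Geodesics in the torus orbits. -/
theorem closed_const {r₀ : ℝ} {n m : ℤ}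
    (hN : 0 < (n : ℝ) ^ 2 * gA f r₀ + 2 * n * m * gB f h σ r₀ + (m : ℝ) ^ 2 * gC h r₀)
    (hd : (n : ℝ) ^ 2 * deriv (gA f) r₀ + 2 * n * m * deriv (gB f h σ) r₀ +
      (m : ℝ) ^ 2 * deriv (gC h) r₀ = 0) :
    Per L f h σ (2 * π * √((n : ℝ) ^ 2 * gA f r₀ + 2 * n * m * gB f h σ r₀ +
      (m : ℝ) ^ 2 * gC h r₀)) := by
  set N := (n : ℝ) ^ 2 * gA f r₀ + 2 * n * m * gB f h σ r₀ + (m : ℝ) ^ 2 * gC h r₀ with hNdef
  have hs : 0 < √N := Real.sqrt_pos.2 hN
  have hs2 : √N ^ 2 = N := Real.sq_sqrt hN.le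
  set s := √N with hsdef
  have dα : ∀ t, deriv (fun t : ℝ => (n : ℝ) / s * t) t = n / s := fun t => by
    simp
  have dβ : ∀ t, deriv (fun t : ℝ => (m : ℝ) / s * t) t = m / s := fun t => by
    simp
  refine ⟨fun t => pt L r₀ ((n : ℝ) / s * t) ((m : ℝ) / s * t),
    geod_of (r := fun _ => r₀) (α := fun t => (n : ℝ) / s * t) (β := fun t => (m : ℝ) / s * t)
      (c₁ := gA f r₀ * (n / s) + gB f h σ r₀ * (m / s))
      (c₂ := gB f h σ r₀ * (n / s) + gC h r₀ * (m / s))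
      contDiff_const (contDiff_const.mul contDiff_id) (contDiff_const.mul contDiff_id)
      ?_ ?_ ?_ ?_, ?_⟩
  · intro t
    rw [dα, dβ]
  · intro t
    rw [dα, dβ]
  · intro t
    rw [dα, dβ]
    simp only [deriv_const']
    have : deriv (gA f) r₀ * ((n : ℝ) / s) ^ 2 + 2 * deriv (gB f h σ) r₀ * ((n : ℝ) / s * (m / s)) +
        deriv (gC h) r₀ * ((m : ℝ) / s) ^ 2 = ((n : ℝ) ^ 2 * deriv (gA f) r₀ +
        2 * n * m * deriv (gB f h σ) r₀ + (m : ℝ) ^ 2 * deriv (gC h) r₀) / s ^ 2 := by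
      field_simp
    rw [this, hd]
    simp
  · intro t
    rw [dα, dβ]
    simp only [deriv_const']
    have : (0 : ℝ) ^ 2 + ((gA f r₀ * (n / s) + gB f h σ r₀ * (m / s)) * ((n : ℝ) / s) +
        (gB f h σ r₀ * (n / s) + gC h r₀ * (m / s)) * ((m : ℝ) / s)) = N / s ^ 2 := by
      rw [hNdef]
      field_simp
      ring
    rw [this, hs2, div_self hN.ne']
  · intro t
    simp only
    have e1 : (n : ℝ) / s * (t + 2 * π * s) = n / s * t + 2 * π * n := by
      field_simp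
    have e2 : (m : ℝ) / s * (t + 2 * π * s) = m / s * t + 2 * π * m := by
      field_simp
    rw [e1, e2, pt_add]

/-- The closed normal geodesics. -/
theorem closed_meridian (hL : 0 < L) : Per L f h σ (4 * L) := by
  refine ⟨fun t => pt L t 0 0, geod_of (r := fun t => t) (α := fun _ => 0) (β := fun _ => 0)
    (c₁ := 0) (c₂ := 0) contDiff_id contDiff_const contDiff_const ?_ ?_ ?_ ?_, ?_⟩
  · intro t; simp
  · intro t; simp
  · intro t; simp
  · intro t; simp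
  · intro t
    have e : π * (t + 4 * L) / (2 * L) = π * t / (2 * L) + 2 * π := by
      field_simp
      ring
    simp only [pt, e, Real.sin_add_two_pi, Real.cos_add_two_pi]

end Pool.Agent.L7h84.TT
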