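import Pool.Agent.L7h84.TT.Edge

/-! # Torus invariant metrics on `S³`: the main theorem -/

open Real Set MeasureTheory Filter Topology
open scoped ContDiff

namespace Pool.Agent.L7h84.TT

variable {L : ℝ} {f h σ : ℝ → ℝ}

/-! ### Exchange of the circles -/

lemma Act_swap (c : ℝ × ℝ) (p q : ℝ) :
    Act (fun r => h (L - r)) (fun r => f (L - r)) (fun r => σ (L - r)) (c, (p, q)) =
      Act f h σ (c.swap, (L - q, L - p)) := by
  unfold Act
  simp only
  have e : ∀ r, VV (fun r => h (L - r)) (fun r => f (L - r)) (fun r => σ (L - r)) c r =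
      VV f h σ c.swap (L - r) := fun r => by
    have := VV_swap (f := f) (h := h) (σ := σ) (L := L) c.swap r
    rwa [Prod.swap_swap] at this
  simp only [e]
  exact intervalIntegral.integral_comp_sub_left (fun r => √(1 - VV f h σ c.swap r)) L

lemma FF_swap (n : ℤ × ℤ) (c : ℝ × ℝ) (p q : ℝ) :
    FF (fun r => h (L - r)) (fun r => f (L - r)) (fun r => σ (L - r)) n (c, (p, q)) =
      FF f h σ n.swap (c.swap, (L - q, L - p)) := by
  unfold FF
  rw [Act_swap]
  simp only [Prod.fst_swap, Prod.snd_swap]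
  ring

lemma NN_swap {J : ℤ} {n : ℤ × ℤ} (hn : n ∈ NN J) : n.swap ∈ NN J := by
  rw [mem_NN] at hn ⊢
  simp only [Prod.fst_swap, Prod.snd_swap]
  tauto

lemma KK_swap {R δ : ℝ} {n : ℤ × ℤ} {c : ℝ × ℝ} {p q : ℝ}
    (hx : (c, (p, q)) ∈ KK L (fun r => h (L - r)) (fun r => f (L - r)) (fun r => σ (L - r)) R δ n) :
    (c.swap, (L - q, L - p)) ∈ KK L f h σ R δ n.swap := by
  obtain ⟨⟨h1, h2, h3, h4, h5⟩, h6, h7, h8, h9, h10⟩ := hx
  simp only at h1 h2 h3 h4 h5 h6 h7 h8 h9 h10
  have eP : ∀ r, gP (fun r => h (L - r)) (fun r => f (L - r)) (fun r => σ (L - r)) c r =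
      gP f h σ c.swap (L - r) := fun r => by
    have := gP_swap (f := f) (h := h) (σ := σ) (L := L) c.swap r
    rwa [Prod.swap_swap] at this
  have eL : ∀ r, gL (fun r => h (L - r)) (fun r => f (L - r)) (fun r => σ (L - r)) n.1 n.2 c r =
      -gL f h σ n.2 n.1 c.swap (L - r) := fun r => by
    have := gL_swap (f := f) (h := h) (σ := σ) (L := L) n.2 n.1 c.swap r
    rwa [Prod.swap_swap] at this
  rw [eP] at h6 h7
  rw [eL, eL] at h8
  refine ⟨⟨?_, ?_, ?_, ?_, ?_⟩, h7, h6, ?_, ?_, ?_⟩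
  · show 0 ≤ L - q
    linarith
  · show L - q ≤ L - p
    linarith
  · show L - p ≤ L
    linarith
  · show δ ≤ L - p
    linarith
  · show L - q ≤ L - δ
    linarith
  · show gL f h σ n.2 n.1 c.swap (L - q) * gL f h σ n.2 n.1 c.swap (L - p) ≤ 0
    linarith
  · show 0 ≤ (n.2 : ℝ) * c.2 + n.1 * c.1
    linarith
  · show (n.2 : ℝ) * c.2 + n.1 * c.1 ≤ R
    linarith

lemma Hyp.swap {R : ℝ} {J : ℤ} (H : Hyp L f h σ R J) :
    Hyp L (fun r => h (L - r)) (fun r => f (L - r)) (fun r => σ (L - r)) R J where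
  M := TT.swap H.M
  R_pos := H.R_pos
  J_pos := H.J_pos
  norm := by
    intro n hn r hr
    have := H.norm n.swap (NN_swap hn) (L - r) ⟨by linarith [hr.2], by linarith [hr.1]⟩
    simp only [Prod.fst_swap, Prod.snd_swap] at this
    rw [gN_swap]
    exact this

/-! ### Positivity and criticality of the norms -/

lemma gN_pos (M : IsTorusMetric L f h σ) {j m : ℝ} (hj : j ≠ 0) (hm : m ≠ 0) {r : ℝ}
    (hr : r ∈ Icc 0 L) : 0 < gN f h σ j m r := by
  rcases eq_or_lt_of_le hr.2 with hh | hh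
  · rw [hh]
    have hf := M.prof.f_pos L M.prof.pos le_rfl
    unfold gN gB gC gA
    rw [h_L M]
    have : 0 < j ^ 2 * f L ^ 2 := by positivity
    nlinarith
  · have hhr := M.prof.h_pos r hr.1 hh
    have h1 := M.lt_one r
    have e : gN f h σ j m r = f r ^ 2 * (j + m * σ r * h r ^ 2) ^ 2 +
        m ^ 2 * h r ^ 2 * (1 - (σ r * f r * h r) ^ 2) := by
      unfold gN gA gB gC
      ring
    have h2 : 0 < 1 - (σ r * f r * h r) ^ 2 := by linarith
    rw [e]
    have : 0 < m ^ 2 * h r ^ 2 * (1 - (σ r * f r * h r) ^ 2) := by positivity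
    have := mul_nonneg (sq_nonneg (f r)) (sq_nonneg (j + m * σ r * h r ^ 2))
    linarith

lemma gN_smooth (M : IsTorusMetric L f h σ) (j m : ℝ) : ContDiff ℝ ∞ (gN f h σ j m) := by
  unfold gN
  exact ((contDiff_const.mul (gA_smooth M)).add (contDiff_const.mul (gB_smooth M))).add
    (contDiff_const.mul (gC_smooth M))

lemma gN_even0 (M : IsTorusMetric L f h σ) (j m r : ℝ) : gN f h σ j m (-r) = gN f h σ j m r := by
  unfold gN gA gB gC
  rw [M.prof.f_odd, M.prof.h_even, M.even_zero]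
  ring

lemma gN_evenL (M : IsTorusMetric L f h σ) (j m r : ℝ) :
    gN f h σ j m (L + r) = gN f h σ j m (L - r) := by
  unfold gN gA gB gC
  rw [M.prof.f_even, M.prof.h_odd, M.even_L]
  ring

lemma deriv_zero_of_even {g : ℝ → ℝ} (a : ℝ) (hg : Differentiable ℝ g)
    (he : ∀ r, g (a + r) = g (a - r)) : deriv g a = 0 := by
  have h1 : HasDerivAt (fun r => g (a + r)) (deriv g a) 0 := by
    have h2 : HasDerivAt g (deriv g a) (a + 0) := by rw [add_zero]; exact (hg a).hasDerivAt
    exact h2.comp_const_add a 0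
  have h3 : HasDerivAt (fun r => g (a - r)) (-deriv g a) 0 := by
    have h2 : HasDerivAt g (deriv g a) (a - 0) := by rw [sub_zero]; exact (hg a).hasDerivAt
    exact h2.comp_const_sub a 0
  have h4 : (fun r => g (a + r)) = fun r => g (a - r) := funext he
  rw [h4] at h1
  have := h1.unique h3
  linarith

theorem norm_gt (M : IsTorusMetric L f h σ) {R : ℝ} (hR : 0 < R)
    (hno : ∀ T, 0 < T → Per L f h σ T → 2 * π * R < T) (n : ℤ × ℤ) (h1 : n.1 ≠ 0) (h2 : n.2 ≠ 0) :
    ∃ μ : ℝ, R ^ 2 < μ ∧ ∀ r ∈ Icc 0 L, μ ≤ gN f h σ n.1 n.2 r := by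
  have hj : (n.1 : ℝ) ≠ 0 := by exact_mod_cast h1
  have hm : (n.2 : ℝ) ≠ 0 := by exact_mod_cast h2
  have hd : Differentiable ℝ (gN f h σ n.1 n.2) := (gN_smooth M _ _).differentiable (by simp)
  obtain ⟨r₀, hr₀, hmin⟩ := isCompact_Icc.exists_isMinOn (nonempty_Icc.2 M.prof.pos.le)
    (gN_cont M n.1 n.2).continuousOn
  have hpos := gN_pos M hj hm hr₀
  have hd0 : deriv (gN f h σ n.1 n.2) r₀ = 0 := by
    rcases eq_or_lt_of_le hr₀.1 with e1 | e1
    · rw [← e1]
      refine deriv_zero_of_even 0 hd fun r => ?_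
      rw [zero_add, zero_sub, gN_even0 M]
    · rcases eq_or_lt_of_le hr₀.2 with e2 | e2
      · rw [e2]
        exact deriv_zero_of_even L hd fun r => gN_evenL M _ _ r
      · exact (hmin.isLocalMin (Icc_mem_nhds e1 e2)).deriv_eq_zero
  have dA := hasDerivAt_of _ (gA_smooth M) r₀
  have dB := hasDerivAt_of _ (gB_smooth M) r₀
  have dC := hasDerivAt_of _ (gC_smooth M) r₀
  have dN : HasDerivAt (gN f h σ n.1 n.2) ((n.1 : ℝ) ^ 2 * deriv (gA f) r₀ +
      2 * n.1 * n.2 * deriv (gB f h σ) r₀ + (n.2 : ℝ) ^ 2 * deriv (gC h) r₀) r₀ :=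
    ((dA.const_mul _).fun_add (dB.const_mul _)).fun_add (dC.const_mul _)
  have hP := closed_const (L := L) (f := f) (h := h) (σ := σ) (r₀ := r₀) (n := n.1) (m := n.2) hpos
    (by rw [← dN.deriv]; exact hd0)
  have h3 := hno _ (by have := Real.sqrt_pos.2 hpos; positivity) hP
  refine ⟨gN f h σ n.1 n.2 r₀, ?_, fun r hr => hmin hr⟩
  have h4 : R < √(gN f h σ n.1 n.2 r₀) := lt_of_mul_lt_mul_left h3 (by positivity)
  exact (Real.lt_sqrt hR.le).1 h4

lemma VV_neg (c : ℝ × ℝ) (r : ℝ) : VV f h σ (-c.1, -c.2) r = VV f h σ c r := by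
  unfold VV
  ring

/-- wells through the orbit `r = 0` -/
lemma use_core (hS : S_SING) {R R₁ : ℝ} (hRR : R < R₁) {J : ℤ} (H : Hyp L f h σ R₁ J)
    (hJ : ∀ r ∈ Icc 0 L, |σ r * h r ^ 2| < J) {δ : ℝ} (hδ : 0 < δ) (hδL : 2 * δ ≤ L)
    {n : ℤ × ℤ} (hn : n ∈ NN J) {c : ℝ × ℝ} {q : ℝ} (hx : (c, (0, q)) ∈ KK L f h σ R₁ δ n)
    (hmin : ∀ n' ∈ NN J, ∀ x' ∈ KK L f h σ R₁ δ n', FF f h σ n (c, (0, q)) ≤ FF f h σ n' x')
    (hwell : ∀ r ∈ Ioo 0 q, gP f h σ c r < 0) (hq : q < L) (hc1 : c.1 = 0)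
    (hk0 : 0 < (n.1 : ℝ) * c.1 + n.2 * c.2) (hkR : (n.1 : ℝ) * c.1 + n.2 * c.2 ≤ R) :
    Per L f h σ (FF f h σ n (c, (0, q))) := by
  have hπ := Real.pi_pos
  obtain ⟨c₁, y⟩ := c
  simp only at hc1 hk0 hkR
  subst hc1
  rw [mul_zero, zero_add] at hk0 hkR
  obtain ⟨⟨-, -, -, hδq, -⟩, -, hPq, -, -, -⟩ := hx
  simp only at hδq hPq
  have hq0 : 0 < q := hδ.trans_le hδq
  obtain ⟨m1, m2, m3, m4, m5⟩ := mem_NN.1 hn
  have hy : y ≠ 0 := by
    rintro rfl
    simp at hk0
  have hyabs : 0 < |y| := abs_pos.2 hy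
  have hny : (n.2 : ℝ) * y = |(n.2 : ℝ)| * |y| := by rw [← abs_mul, abs_of_pos hk0]
  -- the second component of `n` is `± 1`
  have hn2 : |n.2| = 1 := by
    by_contra hcon
    have h1 : |n.1| = 1 := by
      rcases m5 with m5 | m5
      · exact m5
      · exact absurd m5 hcon
    have h2 : 1 ≤ |n.2| := Int.one_le_abs m4
    have h3 : 2 ≤ |n.2| := by omega
    have hmem : ((n.1, n.2.sign) : ℤ × ℤ) ∈ NN J := by
      rw [mem_NN]
      have hs : |n.2.sign| = 1 := Int.abs_sign_of_ne_zero m4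
      refine ⟨m1, by rw [hs]; exact H.J_pos, m3, ?_, Or.inl h1⟩
      intro h0; rw [show n.2.sign = 0 from h0] at hs; simp at hs
    have hsy : ((n.2.sign : ℤ) : ℝ) * y = |y| := by
      have e1 : (n.2 : ℝ) = (n.2.sign : ℝ) * |(n.2 : ℝ)| := by
        have := Int.sign_mul_abs n.2
        have h5 : ((n.2.sign * |n.2| : ℤ) : ℝ) = n.2 := by rw [this]
        push_cast at h5
        exact h5.symm
      have h6 : (0 : ℝ) < |(n.2 : ℝ)| := abs_pos.2 (by exact_mod_cast m4)
      have h7 : |(n.2 : ℝ)| * (((n.2.sign : ℤ) : ℝ) * y) = |(n.2 : ℝ)| * |y| := by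
        rw [← hny]
        conv_rhs => rw [e1]
        ring
      exact mul_left_cancel₀ h6.ne' h7
    have hn2R : (2 : ℝ) ≤ |(n.2 : ℝ)| := by exact_mod_cast h3
    have hyR : |y| ≤ R := by nlinarith
    have hmemK : (((0, y), (0, q)) : (ℝ × ℝ) × (ℝ × ℝ)) ∈ KK L f h σ R₁ δ (n.1, n.2.sign) := by
      refine ⟨⟨le_rfl, hq0.le, hq.le, hδq, by show (0 : ℝ) ≤ L - δ; linarith⟩, ?_, hPq, ?_, ?_, ?_⟩
      · show 0 ≤ gP f h σ (0, y) 0
        rw [gP_zero H.M]; simp
      · show gL f h σ _ _ (0, y) 0 * gL f h σ _ _ (0, y) q ≤ 0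
        rw [gL_zero H.M]; simp
      · show 0 ≤ (n.1 : ℝ) * 0 + ((n.2.sign : ℤ) : ℝ) * y
        rw [mul_zero, zero_add, hsy]; exact hyabs.le
      · show (n.1 : ℝ) * 0 + ((n.2.sign : ℤ) : ℝ) * y ≤ R₁
        rw [mul_zero, zero_add, hsy]; linarith
    have h8 := hmin _ hmem _ hmemK
    unfold FF at h8
    simp only [mul_zero, zero_add] at h8
    rw [hsy, hny] at h8
    have h9 : 2 * π * (|(n.2 : ℝ)| * |y|) ≤ 2 * π * |y| := by linarith
    have h10 : |(n.2 : ℝ)| * |y| ≤ |y| := le_of_mul_le_mul_left h9 (by positivity)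
    nlinarith
  have hn2' : |(n.2 : ℝ)| = 1 := by exact_mod_cast hn2
  rw [hn2', one_mul] at hny
  have hyR : |y| ≤ R := by rw [← hny]; exact hkR
  -- replace `y` by `|y|`
  have hVV : ∀ r, VV f h σ (0, |y|) r = VV f h σ (0, y) r := by
    intro r
    rcases abs_choice y with e | e
    · rw [e]
    · rw [e]
      have := VV_neg (f := f) (h := h) (σ := σ) (0, y) r
      simpa using this
  have hPP : ∀ r, gP f h σ (0, |y|) r = gP f h σ (0, y) r := by
    intro r
    unfold gP gQ
    simp only [sq_abs]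
    ring
  have hAct : Act f h σ ((0, |y|), (0, q)) = Act f h σ ((0, y), (0, q)) := by
    unfold Act
    simp only [hVV]
  have hval : 4 * Act f h σ ((0, |y|), (0, q)) + 2 * π * |y| = FF f h σ n ((0, y), (0, q)) := by
    unfold FF
    simp only [mul_zero, zero_add]
    rw [hny, hAct]
  rw [← hval]
  refine case_core hS H hJ hδL hδ hyabs (by linarith) hq0 hq hδq (by rw [hPP]; exact hPq)
    (fun r hr => by rw [hPP]; exact hwell r hr) fun n' hn' _ x' hx' => ?_
  rw [hval]
  exact hmin n' hn' x' hx'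

theorem main (hS : S_SING) (hV : S_VOL) (M : IsTorusMetric L f h σ) :
    ∃ T, 0 < T ∧ Per L f h σ T ∧
      T ^ 3 * (2 * π ^ 2) ≤ (2 * π) ^ 3 * ((2 * π) ^ 2 * ∫ r in (0 : ℝ)..L, √(gD f h σ r)) ∧
      T ≤ 4 * L := by
  have hπ := Real.pi_pos
  have hL := M.prof.pos
  set Vl : ℝ := ∫ r in (0 : ℝ)..L, √(gD f h σ r) with hVl
  have hVpos : 0 < Vl := by
    refine intervalIntegral.intervalIntegral_pos_of_pos_on
      ((gD_cont M).sqrt.intervalIntegrable _ _) (fun x hx => ?_) hL
    exact Real.sqrt_pos.2 (gD_pos M hx.1 hx.2)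
  obtain ⟨R, hR, hR3⟩ : ∃ R : ℝ, 0 < R ∧ R ^ 3 = 2 * Vl := by
    refine ⟨(2 * Vl) ^ (((3 : ℕ) : ℝ)⁻¹), Real.rpow_pos_of_pos (by positivity) _, ?_⟩
    rw [Real.rpow_inv_natCast_pow (by positivity) (by norm_num)]
  suffices hmain : ∃ T, 0 < T ∧ Per L f h σ T ∧ T ≤ 2 * π * R by
    obtain ⟨T, hT, hP, hle⟩ := hmain
    have key : ∀ T', 0 < T' → T' ≤ 2 * π * R →
        T' ^ 3 * (2 * π ^ 2) ≤ (2 * π) ^ 3 * ((2 * π) ^ 2 * Vl) := by
      intro T' h0 h1
      have h2 : T' ^ 3 ≤ (2 * π * R) ^ 3 := pow_le_pow_left₀ h0.le h1 3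
      calc T' ^ 3 * (2 * π ^ 2) ≤ (2 * π * R) ^ 3 * (2 * π ^ 2) :=
            mul_le_mul_of_nonneg_right h2 (by positivity)
        _ = (2 * π) ^ 3 * (R ^ 3 * (2 * π ^ 2)) := by ring
        _ = (2 * π) ^ 3 * ((2 * π) ^ 2 * Vl) := by rw [hR3]; ring
    rcases le_or_gt T (4 * L) with hc | hc
    · exact ⟨T, hT, hP, key T hT hle, hc⟩
    · exact ⟨4 * L, by positivity, closed_meridian hL, key _ (by positivity) (by linarith), le_rfl⟩
  by_contra hcon
  have hno : ∀ T, 0 < T → Per L f h σ T → 2 * π * R < T := by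
    intro T hT hP
    by_contra hle
    exact hcon ⟨T, hT, hP, not_lt.1 hle⟩
  -- the integer `J`
  obtain ⟨J, hJ1, hJ0, hJL⟩ : ∃ J : ℤ, 1 ≤ J ∧ (∀ r ∈ Icc 0 L, |σ r * h r ^ 2| < J) ∧
      ∀ r ∈ Icc 0 L, |σ (L - r) * f (L - r) ^ 2| < J := by
    have c1 : Continuous fun r => σ r * h r ^ 2 :=
      M.smooth.continuous.mul (M.prof.smooth_h.continuous.pow 2)
    have c2 : Continuous fun r => σ (L - r) * f (L - r) ^ 2 :=
      (M.smooth.continuous.comp (continuous_const.sub continuous_id)).mul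
        ((M.prof.smooth_f.continuous.comp (continuous_const.sub continuous_id)).pow 2)
    obtain ⟨B₁, hB₁⟩ := isCompact_Icc.exists_bound_of_continuousOn (s := Icc 0 L) c1.continuousOn
    obtain ⟨B₂, hB₂⟩ := isCompact_Icc.exists_bound_of_continuousOn (s := Icc 0 L) c2.continuousOn
    obtain ⟨k, hk⟩ := exists_nat_gt (max B₁ B₂)
    refine ⟨k + 1, by omega, fun r hr => ?_, fun r hr => ?_⟩
    · have := hB₁ r hr
      rw [Real.norm_eq_abs] at this
      push_cast
      have := le_max_left B₁ B₂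
      linarith
    · have := hB₂ r hr
      rw [Real.norm_eq_abs] at this
      push_cast
      have := le_max_right B₁ B₂
      linarith
  -- the radius `R₁ > R`
  have hμ : ∀ n ∈ NN J, ∃ μ : ℝ, R ^ 2 < μ ∧ ∀ r ∈ Icc 0 L, μ ≤ gN f h σ n.1 n.2 r := by
    intro n hn
    obtain ⟨-, -, m3, m4, -⟩ := mem_NN.1 hn
    exact norm_gt M hR hno n m3 m4
  choose! μ hμ1 hμ2 using hμ
  have hmer : 2 * π * R < 4 * L := hno _ (by positivity) (closed_meridian hL)
  obtain ⟨R₁, hR₁a, hR₁b, hR₁c⟩ : ∃ R₁ : ℝ, R < R₁ ∧ (∀ n ∈ NN J, R₁ ^ 2 < μ n) ∧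
      2 * π * R₁ < 4 * L := by
    have e1 : ∀ᶠ x in 𝓝[>] R, ∀ n ∈ NN J, x ^ 2 < μ n := by
      refine (Finset.eventually_all _).2 fun n hn => ?_
      have hc : Continuous fun x : ℝ => x ^ 2 := by fun_prop
      exact (tendsto_nhdsWithin_of_tendsto_nhds (hc.tendsto R)).eventually_lt_const (hμ1 n hn)
    have e2 : ∀ᶠ x in 𝓝[>] R, 2 * π * x < 4 * L := by
      have hc : Continuous fun x : ℝ => 2 * π * x := by fun_prop
      exact (tendsto_nhdsWithin_of_tendsto_nhds (hc.tendsto R)).eventually_lt_const hmer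
    obtain ⟨x, h1, h2, h3⟩ := (e1.and (e2.and self_mem_nhdsWithin)).exists
    exact ⟨x, h3, h1, h2⟩
  have H : Hyp L f h σ R₁ J :=
    ⟨M, hR.trans hR₁a, hJ1, fun n hn r hr => (hR₁b n hn).trans_le (hμ2 n hn r hr)⟩
  obtain ⟨δ, hδ, hδL, hD⟩ := exists_delta H
  obtain ⟨n, hn, ⟨c, p, q⟩, hx, hmin, hlen⟩ := exists_min H hδ hδL
  -- the minimum is larger than `2 π R`
  have hbig : 2 * π * R < FF f h σ n (c, (p, q)) := by
    by_contra hle
    push Not at hle
    have hwell := shrink H hδL hD hn hx hlen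
    simp only at hwell
    obtain ⟨⟨h1, h2, h3, h4, h5⟩, h6, h7, h8, h9, h10⟩ := id hx
    simp only at h1 h2 h3 h4 h5 h6 h7 h8 h9 h10
    set κ : ℝ := (n.1 : ℝ) * c.1 + n.2 * c.2 with hκ
    have hActnn : 0 ≤ Act f h σ (c, (p, q)) :=
      intervalIntegral.integral_nonneg h2 fun r _ => Real.sqrt_nonneg _
    have hFF : FF f h σ n (c, (p, q)) = 4 * Act f h σ (c, (p, q)) + 2 * π * κ := rfl
    have hκR : κ ≤ R := by
      have : 2 * π * κ ≤ 2 * π * R := by linarith
      exact le_of_mul_le_mul_left this (by positivity)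
    have hκ0 : 0 < κ := by
      refine lt_of_le_of_ne h9 fun hκ0 => ?_
      obtain ⟨r, hr, hr0⟩ := exists_zero M h2 h8
      have hrI : r ∈ Icc 0 L := ⟨h1.trans hr.1, hr.2.trans h3⟩
      have hNr : 0 < gN f h σ n.1 n.2 r := by
        have := H.norm n hn r hrI
        have := H.R_pos
        nlinarith
      have s1 := sol1 (f := f) (h := h) (σ := σ) n.1 n.2 c r
      have s2 := sol2 (f := f) (h := h) (σ := σ) n.1 n.2 c r
      rw [hr0, ← hκ, ← hκ0] at s1 s2
      have c1 : c.1 = 0 := by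
        rcases mul_eq_zero.1 (s1.trans (by ring)) with h | h
        · exact absurd h hNr.ne'
        · exact h
      have c2 : c.2 = 0 := by
        rcases mul_eq_zero.1 (s2.trans (by ring)) with h | h
        · exact absurd h hNr.ne'
        · exact h
      have hc : c = (0, 0) := Prod.ext c1 c2
      rw [hc] at h6 h7
      have hP0 : ∀ r, gP f h σ (0, 0) r = -gD f h σ r := fun r => by
        unfold gP gQ
        ring
      have hp0 : p = 0 := by
        by_contra hne
        have hpp : 0 < p := lt_of_le_of_ne h1 (Ne.symm hne)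
        have := gD_pos M hpp (by linarith)
        rw [hP0] at h6
        linarith
      have hqL : q = L := by
        by_contra hne
        have hqq : q < L := lt_of_le_of_ne h3 hne
        have := gD_pos M (by linarith : 0 < q) hqq
        rw [hP0] at h7
        linarith
      have hA : Act f h σ (c, (p, q)) = L := by
        rw [hc, hp0, hqL]
        unfold Act
        have e : ∀ r, VV f h σ (0, 0) r = 0 := fun r => by unfold VV; simp
        simp [e]
      rw [hFF, hA, ← hκ0] at hle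
      linarith
    -- the three cases
    have hp0q : p = 0 → c.1 = 0 := by
      intro hp0
      rw [hp0] at hwell
      have := (end_le M (by linarith : (0 : ℝ) < q) hwell).1
      rw [gP_zero M] at this
      have hC := gC_pos M le_rfl hL
      have h11 : c.1 ^ 2 ≤ 0 := by
        by_contra hc
        push Not at hc
        have := mul_pos hc hC
        linarith
      exact pow_eq_zero_iff (two_ne_zero) |>.1 (le_antisymm h11 (sq_nonneg _))
    have hqLp : q = L → c.2 = 0 := by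
      intro hqL
      rw [hqL] at hwell
      have := (end_le M (by linarith : p < L) hwell).2
      rw [gP_L M] at this
      have hA := gA_pos M hL le_rfl
      have h11 : c.2 ^ 2 ≤ 0 := by
        by_contra hc
        push Not at hc
        have := mul_pos hc hA
        linarith
      exact pow_eq_zero_iff (two_ne_zero) |>.1 (le_antisymm h11 (sq_nonneg _))
    have hFpos : 0 < FF f h σ n (c, (p, q)) := by
      rw [hFF]
      have : 0 < 2 * π * κ := by positivity
      linarith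
    have hPer : Per L f h σ (FF f h σ n (c, (p, q))) := by
      rcases eq_or_lt_of_le h1 with hp0 | hp0
      · have c1 := hp0q hp0.symm
        have hqL : q < L := by
          refine lt_of_le_of_ne h3 fun hqL => ?_
          have c2 := hqLp hqL
          rw [hκ, c1, c2] at hκ0
          simp at hκ0
        subst hp0
        exact use_core hS hR₁a H hJ0 hδ hδL hn hx hmin hwell hqL c1 hκ0 hκR
      · rcases eq_or_lt_of_le h3 with hqL | hqL
        · have c2 := hqLp hqL
          subst hqL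
          refine Per.swap hL ?_
          have e1 : FF f h σ n (c, (p, q)) = FF (fun r => h (q - r)) (fun r => f (q - r))
              (fun r => σ (q - r)) n.swap (c.swap, (0, q - p)) := by
            rw [FF_swap, Prod.swap_swap, Prod.swap_swap, show q - (q - p) = p by ring,
              show q - 0 = q by ring]
          rw [e1]
          have eh : ∀ g : ℝ → ℝ, (fun r => (fun r => g (q - r)) (q - r)) = g := fun g => by
            funext r
            simp
          have hKs : ∀ {n' : ℤ × ℤ} {c' : ℝ × ℝ} {a b : ℝ}, (c', (a, b)) ∈ KK q f h σ R₁ δ n' →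
              (c'.swap, (q - b, q - a)) ∈ KK q (fun r => h (q - r)) (fun r => f (q - r))
                (fun r => σ (q - r)) R₁ δ n'.swap := by
            intro n' c' a b hm
            refine KK_swap (L := q) (f := fun r => h (q - r)) (h := fun r => f (q - r))
              (σ := fun r => σ (q - r)) ?_
            simp only [sub_sub_cancel]
            exact hm
          refine use_core hS hR₁a (Hyp.swap H) hJL hδ hδL (NN_swap hn) ?_ ?_ ?_ ?_ c2 ?_ ?_
          · have := hKs hx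
            rwa [sub_self] at this
          · rintro n' hn' ⟨c', a, b⟩ hx'
            rw [← e1, FF_swap]
            exact hmin _ (NN_swap hn') _ (KK_swap hx')
          · intro r hr
            rw [gP_swap]
            exact hwell (q - r) ⟨by linarith [hr.2], by linarith [hr.1]⟩
          · linarith
          · simp only [Prod.fst_swap, Prod.snd_swap]
            linarith
          · simp only [Prod.fst_swap, Prod.snd_swap]
            linarith
        · exact case_reg H hn hx (fun x' hx' => hmin n hn x' hx') hwell hp0 hqL hκ0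
            (hκR.trans_lt hR₁a)
    have := hno _ hFpos hPer
    linarith
  -- the volume
  set m := FF f h σ n (c, (p, q)) with hm
  set R₂ := min (m / (2 * π)) R₁ with hR₂
  have hRR₂ : R < R₂ := by
    refine lt_min ?_ hR₁a
    rw [lt_div_iff₀ (by positivity)]
    linarith
  have h2 := hV L f h σ M R₂ (hR.trans hRR₂) (by
    intro c' hc1 hc2 hc
    have h1 : |c'.1| + |c'.2| ≤ R₁ := hc.le.trans (min_le_right _ _)
    set n' : ℤ × ℤ := ((SignType.sign c'.1 : SignType) , (SignType.sign c'.2 : SignType)) with hn'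
    have s1 : ((n'.1 : ℤ) : ℝ) * c'.1 = |c'.1| := by
      rcases lt_or_gt_of_ne hc1 with h | h
      · simp [hn', h, abs_of_neg h]
      · simp [hn', h, abs_of_pos h]
    have s2 : ((n'.2 : ℤ) : ℝ) * c'.2 = |c'.2| := by
      rcases lt_or_gt_of_ne hc2 with h | h
      · simp [hn', h, abs_of_neg h]
      · simp [hn', h, abs_of_pos h]
    have hmem : n' ∈ NN J := by
      rw [mem_NN]
      rcases lt_or_gt_of_ne hc1 with h | h <;> rcases lt_or_gt_of_ne hc2 with h' | h' <;>
        simp [hn', h, h', hJ1]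
    have hmemK : ((c', (0, L)) : (ℝ × ℝ) × (ℝ × ℝ)) ∈ KK L f h σ R₁ δ n' := by
      refine ⟨⟨le_rfl, hL.le, le_rfl, by show δ ≤ L; linarith, by show (0 : ℝ) ≤ L - δ; linarith⟩,
        ?_, ?_, ?_, ?_, ?_⟩
      · show 0 ≤ gP f h σ c' 0
        rw [gP_zero M]
        have := gC_pos M le_rfl hL
        positivity
      · show 0 ≤ gP f h σ c' L
        rw [gP_L M]
        have := gA_pos M hL le_rfl
        positivity
      · show gL f h σ n'.1 n'.2 c' 0 * gL f h σ n'.1 n'.2 c' L ≤ 0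
        rw [gL_zero M, gL_L M]
        have e : -(c'.1 * n'.2 * gC h 0) * (c'.2 * n'.1 * gA f L) =
            -((n'.1 * c'.1) * (n'.2 * c'.2) * (gC h 0 * gA f L)) := by ring
        rw [e, s1, s2]
        have := gC_pos M le_rfl hL
        have := gA_pos M hL le_rfl
        have : 0 ≤ |c'.1| * |c'.2| * (gC h 0 * gA f L) := by positivity
        linarith
      · show 0 ≤ (n'.1 : ℝ) * c'.1 + n'.2 * c'.2
        rw [s1, s2]; positivity
      · show (n'.1 : ℝ) * c'.1 + n'.2 * c'.2 ≤ R₁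
        rw [s1, s2]; exact h1
    have h3 := hmin n' hmem _ hmemK
    unfold FF Act at h3
    simp only at h3
    rw [s1, s2, intervalIntegral.integral_of_le hL.le, integral_Ioc_eq_integral_Ioo] at h3
    have h4 : R₂ ≤ m / (2 * π) := min_le_left _ _
    rw [le_div_iff₀ (by positivity)] at h4
    nlinarith)
  rw [← hVl] at h2
  have h3 : R ^ 3 < R₂ ^ 3 := pow_lt_pow_left₀ hRR₂ hR.le (by norm_num)
  linarith

end Pool.Agent.L7h84.TT
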