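import Pool.Agent.L7h84.TT.Pot

/-! # Torus invariant metrics on `S³`: the minimum of the action -/

open Real Set MeasureTheory Filter Topology
open scoped ContDiff

namespace Pool.Agent.L7h84.TT

variable {L : ℝ} {f h σ : ℝ → ℝ}

lemma sqrt_le_one' (M : IsTorusMetric L f h σ) (c : ℝ × ℝ) (r : ℝ) : √(1 - VV f h σ c r) ≤ 1 := by
  rw [Real.sqrt_le_left zero_le_one]
  have := VV_nonneg M c r
  linarith

lemma VV_meas (M : IsTorusMetric L f h σ) (c : ℝ × ℝ) : Measurable (VV f h σ c) := by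
  have h1 := (gA_cont M).measurable
  have h2 := (gB_cont M).measurable
  have h3 := (gC_cont M).measurable
  have h4 := (gD_cont M).measurable
  unfold VV
  exact (((h3.const_mul _).sub (h2.const_mul _)).add (h1.const_mul _)).div h4

lemma ii (M : IsTorusMetric L f h σ) (c : ℝ × ℝ) (a b : ℝ) :
    IntervalIntegrable (fun r => √(1 - VV f h σ c r)) volume a b := by
  refine (intervalIntegrable_const (c := (1 : ℝ))).mono_fun ?_ ?_
  · exact (((measurable_const.sub (VV_meas M c)).sqrt).aestronglyMeasurable).restrict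
  · refine Eventually.of_forall fun r => ?_
    simp only [Real.norm_eq_abs, abs_one]
    rw [abs_of_nonneg (Real.sqrt_nonneg _)]
    exact sqrt_le_one' M c r

lemma VV_cont_c (r : ℝ) : Continuous fun c : ℝ × ℝ => VV f h σ c r := by
  unfold VV
  fun_prop

/-- The action of an interval. -/
noncomputable def Act (f h σ : ℝ → ℝ) (x : (ℝ × ℝ) × (ℝ × ℝ)) : ℝ :=
  ∫ r in x.2.1..x.2.2, √(1 - VV f h σ x.1 r)

lemma int_le (M : IsTorusMetric L f h σ) (c : ℝ × ℝ) (a b : ℝ) :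
    |∫ r in a..b, √(1 - VV f h σ c r)| ≤ |b - a| := by
  have := intervalIntegral.norm_integral_le_of_norm_le_const (a := a) (b := b)
    (f := fun r => √(1 - VV f h σ c r)) (C := 1) (fun r _ => by
      rw [Real.norm_eq_abs, abs_of_nonneg (Real.sqrt_nonneg _)]
      exact sqrt_le_one' M c r)
  simpa using this

lemma Act_cont (M : IsTorusMetric L f h σ) : Continuous (Act f h σ) := by
  rw [continuous_iff_continuousAt]
  intro x₀
  have h1 : Tendsto (fun x : (ℝ × ℝ) × (ℝ × ℝ) =>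
      ∫ r in x₀.2.1..x₀.2.2, √(1 - VV f h σ x.1 r)) (𝓝 x₀)
      (𝓝 (∫ r in x₀.2.1..x₀.2.2, √(1 - VV f h σ x₀.1 r))) := by
    refine intervalIntegral.tendsto_integral_filter_of_dominated_convergence (fun _ => (1 : ℝ))
      ?_ ?_ intervalIntegrable_const ?_
    · exact Eventually.of_forall fun x =>
        ((measurable_const.sub (VV_meas M x.1)).sqrt).aestronglyMeasurable.restrict
    · refine Eventually.of_forall fun x => Eventually.of_forall fun r _ => ?_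
      rw [Real.norm_eq_abs, abs_of_nonneg (Real.sqrt_nonneg _)]
      exact sqrt_le_one' M _ r
    · refine Eventually.of_forall fun r _ => ?_
      have hc : Continuous fun x : (ℝ × ℝ) × (ℝ × ℝ) => √(1 - VV f h σ x.1 r) :=
        (continuous_const.sub ((VV_cont_c r).comp continuous_fst)).sqrt
      exact hc.tendsto x₀
  have h2 : Tendsto (fun x : (ℝ × ℝ) × (ℝ × ℝ) => |x₀.2.1 - x.2.1| + |x.2.2 - x₀.2.2|) (𝓝 x₀)
      (𝓝 0) := by
    have hc : Continuous fun x : (ℝ × ℝ) × (ℝ × ℝ) => |x₀.2.1 - x.2.1| + |x.2.2 - x₀.2.2| := by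
      fun_prop
    have := hc.tendsto x₀
    simpa using this
  have h3 : ∀ x : (ℝ × ℝ) × (ℝ × ℝ), Act f h σ x - Act f h σ x₀ =
      ((∫ r in x.2.1..x₀.2.1, √(1 - VV f h σ x.1 r)) + (∫ r in x₀.2.2..x.2.2, √(1 - VV f h σ x.1 r))) +
      ((∫ r in x₀.2.1..x₀.2.2, √(1 - VV f h σ x.1 r)) -
        ∫ r in x₀.2.1..x₀.2.2, √(1 - VV f h σ x₀.1 r)) := by
    intro x
    have e1 := intervalIntegral.integral_add_adjacent_intervals (ii M x.1 x.2.1 x₀.2.1)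
      (ii M x.1 x₀.2.1 x₀.2.2)
    have e2 := intervalIntegral.integral_add_adjacent_intervals (ii M x.1 x.2.1 x₀.2.2)
      (ii M x.1 x₀.2.2 x.2.2)
    unfold Act
    rw [← e2, ← e1]
    ring
  rw [ContinuousAt, tendsto_iff_norm_sub_tendsto_zero]
  have h4 := h2.add ((tendsto_iff_norm_sub_tendsto_zero).1 h1)
  rw [add_zero] at h4
  refine squeeze_zero (fun _ => norm_nonneg _) (fun x => ?_) h4
  rw [h3 x]
  refine (norm_add_le _ _).trans ?_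
  gcongr
  refine (norm_add_le _ _).trans ?_
  exact add_le_add (int_le M _ _ _) (int_le M _ _ _)

/-- The action with the linear term. -/
noncomputable def FF (f h σ : ℝ → ℝ) (n : ℤ × ℤ) (x : (ℝ × ℝ) × (ℝ × ℝ)) : ℝ :=
  4 * Act f h σ x + 2 * π * (n.1 * x.1.1 + n.2 * x.1.2)

lemma FF_cont (M : IsTorusMetric L f h σ) (n : ℤ × ℤ) : Continuous (FF f h σ n) := by
  have := Act_cont M
  unfold FF
  fun_prop

/-- The integral directions. -/
noncomputable def NN (J : ℤ) : Finset (ℤ × ℤ) :=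
  ((Finset.Icc (-J) J) ×ˢ (Finset.Icc (-J) J)).filter
    (fun n => n.1 ≠ 0 ∧ n.2 ≠ 0 ∧ (|n.1| = 1 ∨ |n.2| = 1))

lemma mem_NN {J : ℤ} {n : ℤ × ℤ} : n ∈ NN J ↔
    |n.1| ≤ J ∧ |n.2| ≤ J ∧ n.1 ≠ 0 ∧ n.2 ≠ 0 ∧ (|n.1| = 1 ∨ |n.2| = 1) := by
  unfold NN
  simp only [Finset.mem_filter, Finset.mem_product, Finset.mem_Icc, abs_le]
  tauto

/-- The compact sets. -/
def KK (L : ℝ) (f h σ : ℝ → ℝ) (R δ : ℝ) (n : ℤ × ℤ) : Set ((ℝ × ℝ) × (ℝ × ℝ)) :=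
  {x | (0 ≤ x.2.1 ∧ x.2.1 ≤ x.2.2 ∧ x.2.2 ≤ L ∧ δ ≤ x.2.2 ∧ x.2.1 ≤ L - δ) ∧
    0 ≤ gP f h σ x.1 x.2.1 ∧ 0 ≤ gP f h σ x.1 x.2.2 ∧
    gL f h σ n.1 n.2 x.1 x.2.1 * gL f h σ n.1 n.2 x.1 x.2.2 ≤ 0 ∧
    0 ≤ (n.1 : ℝ) * x.1.1 + n.2 * x.1.2 ∧ (n.1 : ℝ) * x.1.1 + n.2 * x.1.2 ≤ R}

structure Hyp (L : ℝ) (f h σ : ℝ → ℝ) (R : ℝ) (J : ℤ) : Prop where
  M : IsTorusMetric L f h σ
  R_pos : 0 < R
  J_pos : 1 ≤ J
  norm : ∀ n ∈ NN J, ∀ r ∈ Icc 0 L, R ^ 2 < gN f h σ n.1 n.2 r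

lemma one_one_mem {J : ℤ} (hJ : 1 ≤ J) : ((1 : ℤ), (1 : ℤ)) ∈ NN J := by
  rw [mem_NN]
  simp [hJ]

lemma Hyp.h_zero {R : ℝ} {J : ℤ} (H : Hyp L f h σ R J) : R < h 0 := by
  have h1 := H.norm (1, 1) (one_one_mem H.J_pos) 0 ⟨le_rfl, H.M.prof.pos.le⟩
  unfold gN gA gB gC at h1
  rw [f_zero H.M] at h1
  have h2 := H.M.prof.h_pos 0 le_rfl H.M.prof.pos
  have h3 := H.R_pos
  simp only [Int.cast_one] at h1
  nlinarith

lemma Hyp.f_L {R : ℝ} {J : ℤ} (H : Hyp L f h σ R J) : R < f L := by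
  have h1 := H.norm (1, 1) (one_one_mem H.J_pos) L ⟨H.M.prof.pos.le, le_rfl⟩
  unfold gN gA gB gC at h1
  rw [h_L H.M] at h1
  have h2 := H.M.prof.f_pos L H.M.prof.pos le_rfl
  have h3 := H.R_pos
  simp only [Int.cast_one] at h1
  nlinarith

/-- zeros of `gL` -/
lemma exists_zero (M : IsTorusMetric L f h σ) {n : ℤ × ℤ} {c : ℝ × ℝ} {r₁ r₂ : ℝ} (h12 : r₁ ≤ r₂)
    (hs : gL f h σ n.1 n.2 c r₁ * gL f h σ n.1 n.2 c r₂ ≤ 0) :
    ∃ r ∈ Icc r₁ r₂, gL f h σ n.1 n.2 c r = 0 := by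
  have hc : Continuous fun r => gL f h σ n.1 n.2 c r :=
    (gL_cont M n.1 n.2).comp (continuous_const.prodMk continuous_id)
  rcases le_total (gL f h σ n.1 n.2 c r₁) 0 with h1 | h1
  · have h2 : 0 ≤ gL f h σ n.1 n.2 c r₂ ∨ gL f h σ n.1 n.2 c r₁ = 0 := by
      by_contra hcon
      push Not at hcon
      have := mul_pos_of_neg_of_neg (lt_of_le_of_ne h1 hcon.2) hcon.1
      linarith
    rcases h2 with h2 | h2
    · obtain ⟨r, hr, hr0⟩ := intermediate_value_Icc h12 hc.continuousOn ⟨h1, h2⟩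
      exact ⟨r, hr, hr0⟩
    · exact ⟨r₁, ⟨le_rfl, h12⟩, h2⟩
  · have h2 : gL f h σ n.1 n.2 c r₂ ≤ 0 ∨ gL f h σ n.1 n.2 c r₁ = 0 := by
      by_contra hcon
      push Not at hcon
      have := mul_pos (lt_of_le_of_ne h1 hcon.2.symm) hcon.1
      linarith
    rcases h2 with h2 | h2
    · obtain ⟨r, hr, hr0⟩ := intermediate_value_Icc' h12 hc.continuousOn ⟨h2, h1⟩
      exact ⟨r, hr, hr0⟩
    · exact ⟨r₁, ⟨le_rfl, h12⟩, h2⟩

lemma exists_bound {R : ℝ} {J : ℤ} (H : Hyp L f h σ R J) : ∃ C : ℝ, 0 < C ∧ ∀ n ∈ NN J,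
    ∀ (c : ℝ × ℝ) (r₁ r₂ : ℝ), 0 ≤ r₁ → r₁ ≤ r₂ → r₂ ≤ L →
      gL f h σ n.1 n.2 c r₁ * gL f h σ n.1 n.2 c r₂ ≤ 0 → 0 ≤ (n.1 : ℝ) * c.1 + n.2 * c.2 →
      (n.1 : ℝ) * c.1 + n.2 * c.2 ≤ R → |c.1| ≤ C ∧ |c.2| ≤ C := by
  have hR := H.R_pos
  have key : ∀ g : ℝ → ℝ, Continuous g → ∃ B : ℝ, 0 ≤ B ∧ ∀ r ∈ Icc 0 L, |g r| ≤ B := by
    intro g hg
    obtain ⟨B, hB⟩ := isCompact_Icc.exists_bound_of_continuousOn (s := Icc 0 L) hg.continuousOn
    refine ⟨max B 0, le_max_right _ _, fun r hr => ?_⟩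
    have := hB r hr
    rw [Real.norm_eq_abs] at this
    exact this.trans (le_max_left _ _)
  obtain ⟨B₁, hB₁0, hB₁⟩ := key _ (gA_cont H.M)
  obtain ⟨B₂, hB₂0, hB₂⟩ := key _ (gB_cont H.M)
  obtain ⟨B₃, hB₃0, hB₃⟩ := key _ (gC_cont H.M)
  have hJ0 : (0 : ℝ) < J := by exact_mod_cast lt_of_lt_of_le zero_lt_one H.J_pos
  set B := B₁ + B₂ + B₃ + 1 with hB
  have hB0 : 0 < B := by positivity
  refine ⟨2 * J * B / R, by positivity, fun n hn c r₁ r₂ h1 h12 h2 hs hk0 hkR => ?_⟩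
  obtain ⟨r, hr, hr0⟩ := exists_zero H.M h12 hs
  have hrI : r ∈ Icc 0 L := ⟨h1.trans hr.1, hr.2.trans h2⟩
  have hN := H.norm n hn r hrI
  have hNpos : 0 < gN f h σ n.1 n.2 r := lt_trans (by positivity) hN
  have s1 := sol1 (f := f) (h := h) (σ := σ) n.1 n.2 c r
  have s2 := sol2 (f := f) (h := h) (σ := σ) n.1 n.2 c r
  rw [hr0, mul_zero, sub_zero] at s1
  rw [hr0, mul_zero, add_zero] at s2
  obtain ⟨m1, m2, -⟩ := mem_NN.1 hn
  have hj : |(n.1 : ℝ)| ≤ J := by exact_mod_cast m1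
  have hm : |(n.2 : ℝ)| ≤ J := by exact_mod_cast m2
  have a1 := hB₁ r hrI
  have a2 := hB₂ r hrI
  have a3 := hB₃ r hrI
  have fin : ∀ (y g : ℝ), gN f h σ n.1 n.2 r * y = ((n.1 : ℝ) * c.1 + n.2 * c.2) * g →
      |g| ≤ 2 * J * B → |y| ≤ 2 * J * B / R := by
    intro y g hy hg
    rw [le_div_iff₀ hR]
    have e1 : gN f h σ n.1 n.2 r * |y| ≤ R * (2 * J * B) := by
      rw [← abs_of_pos hNpos, ← abs_mul, hy, abs_mul, abs_of_nonneg hk0]
      exact mul_le_mul hkR hg (abs_nonneg _) hR.le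
    have e2 : R ^ 2 * |y| ≤ gN f h σ n.1 n.2 r * |y| :=
      mul_le_mul_of_nonneg_right hN.le (abs_nonneg _)
    have e3 : R * (R * |y|) ≤ R * (2 * J * B) := by nlinarith
    have := le_of_mul_le_mul_left e3 hR
    linarith
  have b1 : |(n.1 : ℝ) * gA f r + n.2 * gB f h σ r| ≤ 2 * J * B := by
    refine (abs_add_le _ _).trans ?_
    rw [abs_mul, abs_mul]
    have := mul_le_mul hj a1 (abs_nonneg _) hJ0.le
    have := mul_le_mul hm a2 (abs_nonneg _) hJ0.le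
    nlinarith
  have b2 : |(n.2 : ℝ) * gC h r + n.1 * gB f h σ r| ≤ 2 * J * B := by
    refine (abs_add_le _ _).trans ?_
    rw [abs_mul, abs_mul]
    have := mul_le_mul hm a3 (abs_nonneg _) hJ0.le
    have := mul_le_mul hj a2 (abs_nonneg _) hJ0.le
    nlinarith
  exact ⟨fin _ _ s1 b1, fin _ _ s2 b2⟩

lemma KK_closed (M : IsTorusMetric L f h σ) (R δ : ℝ) (n : ℤ × ℤ) :
    IsClosed (KK L f h σ R δ n) := by
  have p1 : Continuous fun x : (ℝ × ℝ) × (ℝ × ℝ) => gP f h σ x.1 x.2.1 :=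
    (gP_cont M).comp (continuous_fst.prodMk (continuous_fst.comp continuous_snd))
  have p2 : Continuous fun x : (ℝ × ℝ) × (ℝ × ℝ) => gP f h σ x.1 x.2.2 :=
    (gP_cont M).comp (continuous_fst.prodMk (continuous_snd.comp continuous_snd))
  have l1 : Continuous fun x : (ℝ × ℝ) × (ℝ × ℝ) => gL f h σ n.1 n.2 x.1 x.2.1 :=
    (gL_cont M _ _).comp (continuous_fst.prodMk (continuous_fst.comp continuous_snd))
  have l2 : Continuous fun x : (ℝ × ℝ) × (ℝ × ℝ) => gL f h σ n.1 n.2 x.1 x.2.2 :=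
    (gL_cont M _ _).comp (continuous_fst.prodMk (continuous_snd.comp continuous_snd))
  have q1 : Continuous fun x : (ℝ × ℝ) × (ℝ × ℝ) => x.2.1 := by fun_prop
  have q2 : Continuous fun x : (ℝ × ℝ) × (ℝ × ℝ) => x.2.2 := by fun_prop
  have k1 : Continuous fun x : (ℝ × ℝ) × (ℝ × ℝ) => (n.1 : ℝ) * x.1.1 + n.2 * x.1.2 := by fun_prop
  refine IsClosed.and ?_ (IsClosed.and (isClosed_le continuous_const p1)
    (IsClosed.and (isClosed_le continuous_const p2) (IsClosed.and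
    (isClosed_le (l1.mul l2) continuous_const) (IsClosed.and (isClosed_le continuous_const k1)
    (isClosed_le k1 continuous_const)))))
  exact (isClosed_le continuous_const q1).and ((isClosed_le q1 q2).and
    ((isClosed_le q2 continuous_const).and ((isClosed_le continuous_const q2).and
    (isClosed_le q1 continuous_const))))

lemma KK_compact {R : ℝ} {J : ℤ} (H : Hyp L f h σ R J) (δ : ℝ) {n : ℤ × ℤ} (hn : n ∈ NN J) :
    IsCompact (KK L f h σ R δ n) := by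
  obtain ⟨C, hC, hb⟩ := exists_bound H
  refine (isCompact_Icc (a := (((-C, -C), (0, 0)) : (ℝ × ℝ) × (ℝ × ℝ)))
    (b := ((C, C), (L, L)))).of_isClosed_subset (KK_closed H.M R δ n) ?_
  rintro ⟨c, r⟩ ⟨⟨h1, h2, h3, h4, h5⟩, h6, h7, h8, h9, h10⟩
  obtain ⟨b1, b2⟩ := hb n hn c r.1 r.2 h1 h2 h3 h8 h9 h10
  rw [abs_le] at b1 b2
  exact ⟨⟨⟨b1.1, b2.1⟩, ⟨h1, h1.trans h2⟩⟩, ⟨⟨b1.2, b2.2⟩, ⟨h2.trans h3, h3⟩⟩⟩

lemma KK_zero {R : ℝ} {J : ℤ} (H : Hyp L f h σ R J) {δ : ℝ} (hδ : 0 < δ) (hδL : 2 * δ ≤ L)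
    (n : ℤ × ℤ) : (((0, 0), (0, L)) : (ℝ × ℝ) × (ℝ × ℝ)) ∈ KK L f h σ R δ n := by
  have hL := H.M.prof.pos
  have hR := H.R_pos
  refine ⟨⟨le_rfl, hL.le, le_rfl, by linarith, by show (0 : ℝ) ≤ L - δ; linarith⟩, ?_, ?_, ?_, ?_, ?_⟩
  · show 0 ≤ gP f h σ (0, 0) 0
    rw [gP_zero H.M]; simp
  · show 0 ≤ gP f h σ (0, 0) L
    rw [gP_L H.M]; simp
  · show gL f h σ n.1 n.2 (0, 0) 0 * gL f h σ n.1 n.2 (0, 0) L ≤ 0
    rw [gL_zero H.M]; simp
  · simp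
  · simpa using hR.le

/-- Existence of a minimum, with an interval of minimal length. -/
theorem exists_min {R : ℝ} {J : ℤ} (H : Hyp L f h σ R J) {δ : ℝ} (hδ : 0 < δ) (hδL : 2 * δ ≤ L) :
    ∃ n ∈ NN J, ∃ x ∈ KK L f h σ R δ n,
      (∀ n' ∈ NN J, ∀ x' ∈ KK L f h σ R δ n', FF f h σ n x ≤ FF f h σ n' x') ∧
      ∀ x' ∈ KK L f h σ R δ n, FF f h σ n x' ≤ FF f h σ n x → x.2.2 - x.2.1 ≤ x'.2.2 - x'.2.1 := by
  have h1 : ∀ n ∈ NN J, ∃ x ∈ KK L f h σ R δ n, ∀ x' ∈ KK L f h σ R δ n,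
      FF f h σ n x ≤ FF f h σ n x' := fun n hn => by
    obtain ⟨x, hx, hmin⟩ := (KK_compact H δ hn).exists_isMinOn ⟨_, KK_zero H hδ hδL n⟩
      (FF_cont H.M n).continuousOn
    exact ⟨x, hx, fun x' hx' => hmin hx'⟩
  choose! X hX hXmin using h1
  obtain ⟨n, hn, hnmin⟩ := Finset.exists_min_image (NN J) (fun n => FF f h σ n (X n))
    ⟨_, one_one_mem H.J_pos⟩
  set S : Set ((ℝ × ℝ) × (ℝ × ℝ)) := KK L f h σ R δ n ∩ {x | FF f h σ n x ≤ FF f h σ n (X n)} with hS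
  have hSc : IsCompact S := (KK_compact H δ hn).inter_right
    (isClosed_le (FF_cont H.M n) continuous_const)
  obtain ⟨x, hx, hxmin⟩ := hSc.exists_isMinOn
    ⟨X n, hX n hn, le_refl (FF f h σ n (X n))⟩
    (f := fun x : (ℝ × ℝ) × (ℝ × ℝ) => x.2.2 - x.2.1) (by fun_prop)
  have hxx : FF f h σ n x = FF f h σ n (X n) := le_antisymm hx.2 (hXmin n hn x hx.1)
  refine ⟨n, hn, x, hx.1, fun n' hn' x' hx' => ?_, fun x' hx' hle => ?_⟩
  · rw [hxx]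
    exact (hnmin n' hn').trans (hXmin n' hn' x' hx')
  · exact hxmin ⟨hx', hle.trans hx.2⟩

/-- the constant `δ` -/
theorem exists_delta {R : ℝ} {J : ℤ} (H : Hyp L f h σ R J) : ∃ δ : ℝ, 0 < δ ∧ 2 * δ ≤ L ∧
    ∀ n ∈ NN J, ∀ x ∈ KK L f h σ R δ n, ∀ r, 0 ≤ gP f h σ x.1 r →
      (0 < r → r ≤ δ → (n.2 : ℝ) * x.1.1 * gL f h σ n.1 n.2 x.1 r < 0) ∧
      (L - δ ≤ r → r < L → 0 < (n.1 : ℝ) * x.1.2 * gL f h σ n.1 n.2 x.1 r) := by
  obtain ⟨C, hC, hb⟩ := exists_bound H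
  have hL := H.M.prof.pos
  have hJ0 : (0 : ℝ) < J := by exact_mod_cast lt_of_lt_of_le zero_lt_one H.J_pos
  have n1 := near_zero H.M H.R_pos hC hJ0 H.h_zero
  have hs := H.f_L
  have n2 := near_zero (swap H.M) H.R_pos hC hJ0 (by simpa using hs)
  obtain ⟨a, ha, ha'⟩ := (mem_nhdsGT_iff_exists_mem_Ioc_Ioo_subset (by linarith : (0 : ℝ) < L)).1 n1
  obtain ⟨b, hb', hb''⟩ := (mem_nhdsGT_iff_exists_mem_Ioc_Ioo_subset (by linarith : (0 : ℝ) < L)).1 n2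
  refine ⟨min a b / 2, by have := ha.1; have := hb'.1; positivity, ?_, ?_⟩
  · have := min_le_left a b
    have := ha.2
    linarith
  · rintro n hn x ⟨⟨h1, h2, h3, h4, h5⟩, h6, h7, h8, h9, h10⟩ r hP
    obtain ⟨b1, b2⟩ := hb n hn x.1 x.2.1 x.2.2 h1 h2 h3 h8 h9 h10
    obtain ⟨m1, m2, m3, m4, -⟩ := mem_NN.1 hn
    have hj : |(n.1 : ℝ)| ≤ J := by exact_mod_cast m1
    have hm : |(n.2 : ℝ)| ≤ J := by exact_mod_cast m2
    have hj1 : 1 ≤ |(n.1 : ℝ)| := by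
      have : 1 ≤ |n.1| := Int.one_le_abs m3
      exact_mod_cast this
    have hm1 : 1 ≤ |(n.2 : ℝ)| := by
      have : 1 ≤ |n.2| := Int.one_le_abs m4
      exact_mod_cast this
    have ha0 := ha.1
    have hb0 := hb'.1
    constructor
    · intro hr0 hrδ
      refine ha' (show r ∈ Ioo 0 a from ⟨hr0, ?_⟩) n.1 n.2 x.1 hj hm hm1 b1 b2 ?_ hP
      · have := min_le_left a b
        have : 0 < min a b := lt_min ha0 hb0
        linarith
      · rw [abs_le]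
        have := H.R_pos
        constructor <;> linarith
    · intro hr0 hrL
      have := hb'' (show L - r ∈ Ioo 0 b from ⟨by linarith, ?_⟩) n.2 n.1 x.1.swap hm hj hj1 b2 b1 ?_ ?_
      · rw [gL_swap, show L - (L - r) = r by ring] at this
        simp only [Prod.fst_swap] at this
        linarith
      · have := min_le_right a b
        have : 0 < min a b := lt_min ha0 hb0
        linarith
      · simp only [Prod.fst_swap, Prod.snd_swap]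
        rw [abs_le]
        have := H.R_pos
        constructor <;> linarith
      · rw [gP_swap, show L - (L - r) = r by ring]
        exact hP

/-- `gL ≠ 0` where the potential is at least one -/
lemma gL_ne {R : ℝ} {J : ℤ} (H : Hyp L f h σ R J) {n : ℤ × ℤ} (hn : n ∈ NN J) {c : ℝ × ℝ}
    (h0 : 0 ≤ (n.1 : ℝ) * c.1 + n.2 * c.2) (hR : (n.1 : ℝ) * c.1 + n.2 * c.2 ≤ R) {r : ℝ}
    (hr : 0 < r) (hrL : r < L) (hP : 0 ≤ gP f h σ c r) : gL f h σ n.1 n.2 c r ≠ 0 := by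
  intro hcon
  have h1 := identity (f := f) (h := h) (σ := σ) n.1 n.2 c r
  have h2 := H.norm n hn r ⟨hr.le, hrL.le⟩
  have h3 := gD_pos H.M hr hrL
  have h4 : gD f h σ r ≤ gQ f h σ c r := by unfold gP at hP; linarith
  rw [hcon] at h1
  have h5 : ((n.1 : ℝ) * c.1 + n.2 * c.2) ^ 2 ≤ R ^ 2 := pow_le_pow_left₀ h0 hR 2
  have hRp := H.R_pos
  have h6 : gN f h σ n.1 n.2 r * gD f h σ r ≤ gN f h σ n.1 n.2 r * gQ f h σ c r :=
    mul_le_mul_of_nonneg_left h4 (by nlinarith)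
  have h7 : R ^ 2 * gD f h σ r < gN f h σ n.1 n.2 r * gD f h σ r := mul_lt_mul_of_pos_right h2 h3
  have h8 : ((n.1 : ℝ) * c.1 + n.2 * c.2) ^ 2 * gD f h σ r ≤ R ^ 2 * gD f h σ r :=
    mul_le_mul_of_nonneg_right h5 h3.le
  nlinarith

lemma Act_mono (M : IsTorusMetric L f h σ) (c : ℝ × ℝ) {a b a' b' : ℝ} (h1 : a ≤ a') (h2 : a' ≤ b')
    (h3 : b' ≤ b) : Act f h σ (c, (a', b')) ≤ Act f h σ (c, (a, b)) := by
  unfold Act
  exact intervalIntegral.integral_mono_interval h1 h2 h3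
    (Eventually.of_forall fun r => Real.sqrt_nonneg _) (ii M c a b)

/-- The interval of the minimum is a well of the potential. -/
theorem shrink {R : ℝ} {J : ℤ} (H : Hyp L f h σ R J) {δ : ℝ} (hδL : 2 * δ ≤ L)
    (hD : ∀ n ∈ NN J, ∀ x ∈ KK L f h σ R δ n, ∀ r, 0 ≤ gP f h σ x.1 r →
      (0 < r → r ≤ δ → (n.2 : ℝ) * x.1.1 * gL f h σ n.1 n.2 x.1 r < 0) ∧
      (L - δ ≤ r → r < L → 0 < (n.1 : ℝ) * x.1.2 * gL f h σ n.1 n.2 x.1 r))
    {n : ℤ × ℤ} (hn : n ∈ NN J) {x : (ℝ × ℝ) × (ℝ × ℝ)} (hx : x ∈ KK L f h σ R δ n)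
    (hlen : ∀ x' ∈ KK L f h σ R δ n, FF f h σ n x' ≤ FF f h σ n x →
      x.2.2 - x.2.1 ≤ x'.2.2 - x'.2.1) : ∀ r ∈ Ioo x.2.1 x.2.2, gP f h σ x.1 r < 0 := by
  intro r hr
  by_contra hcon
  push Not at hcon
  have hx' := hx
  obtain ⟨⟨h1, h2, h3, h4, h5⟩, h6, h7, h8, h9, h10⟩ := hx'
  have hr0 : 0 < r := lt_of_le_of_lt h1 hr.1
  have hrL : r < L := lt_of_lt_of_le hr.2 h3
  have hne := gL_ne H hn h9 h10 hr0 hrL hcon
  obtain ⟨d1, d2⟩ := hD n hn x hx r hcon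
  -- the two sub-intervals
  have left : ¬(δ ≤ r ∧ gL f h σ n.1 n.2 x.1 x.2.1 * gL f h σ n.1 n.2 x.1 r ≤ 0) := by
    rintro ⟨a1, a2⟩
    have hmem : ((x.1, (x.2.1, r)) : (ℝ × ℝ) × (ℝ × ℝ)) ∈ KK L f h σ R δ n :=
      ⟨⟨h1, hr.1.le, hrL.le, a1, h5⟩, h6, hcon, a2, h9, h10⟩
    have := hlen _ hmem (by
      unfold FF
      have := Act_mono H.M x.1 (le_refl x.2.1) hr.1.le hr.2.le
      simp only
      have hxx : Act f h σ (x.1, (x.2.1, x.2.2)) = Act f h σ x := rfl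
      linarith)
    simp only at this
    linarith [hr.2]
  have right : ¬(r ≤ L - δ ∧ gL f h σ n.1 n.2 x.1 r * gL f h σ n.1 n.2 x.1 x.2.2 ≤ 0) := by
    rintro ⟨a1, a2⟩
    have hmem : ((x.1, (r, x.2.2)) : (ℝ × ℝ) × (ℝ × ℝ)) ∈ KK L f h σ R δ n :=
      ⟨⟨hr0.le, hr.2.le, h3, h4, a1⟩, hcon, h7, a2, h9, h10⟩
    have := hlen _ hmem (by
      unfold FF
      have := Act_mono H.M x.1 hr.1.le hr.2.le (le_refl x.2.2)
      simp only
      have hxx : Act f h σ (x.1, (x.2.1, x.2.2)) = Act f h σ x := rfl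
      linarith)
    simp only at this
    linarith [hr.1]
  set g := gL f h σ n.1 n.2 x.1 r with hg
  set g₁ := gL f h σ n.1 n.2 x.1 x.2.1 with hg₁
  set g₂ := gL f h σ n.1 n.2 x.1 x.2.2 with hg₂
  have hg2 : 0 < g ^ 2 := by positivity
  have tri : g₁ * g ≤ 0 ∨ g * g₂ ≤ 0 := by
    by_contra hc
    push Not at hc
    have := mul_pos hc.1 hc.2
    nlinarith
  rcases lt_or_ge r δ with hrδ | hrδ
  · -- near `0`
    have d3 := d1 hr0 hrδ.le
    have : 0 < g₁ * g := by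
      rcases eq_or_lt_of_le h1 with h0 | h0
      · have e : g₁ = -(x.1.1 * n.2 * gC h 0) := by rw [hg₁, ← h0, gL_zero H.M]
        have hC0 := gC_pos H.M le_rfl H.M.prof.pos
        rw [e]
        nlinarith
      · have d4 := (hD n hn x hx x.2.1 h6).1 h0 (hr.1.le.trans hrδ.le)
        have h11 : 0 < ((n.2 : ℝ) * x.1.1 * g) * ((n.2 : ℝ) * x.1.1 * g₁) :=
          mul_pos_of_neg_of_neg d3 d4
        have h12 : 0 < ((n.2 : ℝ) * x.1.1) ^ 2 * (g₁ * g) := by nlinarith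
        exact pos_of_mul_pos_right h12 (sq_nonneg _)
    refine right ⟨by linarith, ?_⟩
    rcases tri with t | t
    · linarith
    · exact t
  · rcases lt_or_ge (L - δ) r with hrδ' | hrδ'
    · have d3 := d2 hrδ'.le hrL
      have : 0 < g * g₂ := by
        rcases eq_or_lt_of_le h3 with h0 | h0
        · have e : g₂ = x.1.2 * n.1 * gA f L := by rw [hg₂, h0, gL_L H.M]
          have hA0 := gA_pos H.M H.M.prof.pos le_rfl
          rw [e]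
          nlinarith
        · have d4 := (hD n hn x hx x.2.2 h7).2 (hrδ'.le.trans hr.2.le) h0
          have h11 := mul_pos d3 d4
          have h12 : 0 < ((n.1 : ℝ) * x.1.2) ^ 2 * (g * g₂) := by nlinarith
          exact pos_of_mul_pos_right h12 (sq_nonneg _)
      refine left ⟨hrδ, ?_⟩
      rcases tri with t | t
      · exact t
      · linarith
    · rcases tri with t | t
      · exact left ⟨hrδ, t⟩
      · exact right ⟨hrδ', t⟩

end Pool.Agent.L7h84.TT
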