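import Pool.Agent.L7h84.TT.Core

/-! # Torus invariant metrics on `S³`: algebra of the potential, behaviour at the singular orbits -/

open Real Set MeasureTheory Filter Topology
open scoped ContDiff

namespace Pool.Agent.L7h84.TT

variable {L : ℝ} {f h σ : ℝ → ℝ}

/-- `|n|²` for `n = (j, m)` -/
noncomputable def gN (f h σ : ℝ → ℝ) (j m r : ℝ) : ℝ :=
  j ^ 2 * gA f r + 2 * j * m * gB f h σ r + m ^ 2 * gC h r

/-- numerator of the potential -/
noncomputable def gQ (f h σ : ℝ → ℝ) (c : ℝ × ℝ) (r : ℝ) : ℝ :=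
  c.1 ^ 2 * gC h r - 2 * c.1 * c.2 * gB f h σ r + c.2 ^ 2 * gA f r

/-- nonnegative where the potential is at least one -/
noncomputable def gP (f h σ : ℝ → ℝ) (c : ℝ × ℝ) (r : ℝ) : ℝ := gQ f h σ c r - gD f h σ r

/-- on which side of `n` the velocity is -/
noncomputable def gL (f h σ : ℝ → ℝ) (j m : ℝ) (c : ℝ × ℝ) (r : ℝ) : ℝ :=
  c.2 * (j * gA f r + m * gB f h σ r) - c.1 * (m * gC h r + j * gB f h σ r)

lemma VV_eq (c : ℝ × ℝ) (r : ℝ) : VV f h σ c r = gQ f h σ c r / gD f h σ r := rfl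

lemma identity (j m : ℝ) (c : ℝ × ℝ) (r : ℝ) : gN f h σ j m r * gQ f h σ c r =
    (j * c.1 + m * c.2) ^ 2 * gD f h σ r + gL f h σ j m c r ^ 2 := by
  unfold gN gQ gL gD
  ring

lemma sol1 (j m : ℝ) (c : ℝ × ℝ) (r : ℝ) : gN f h σ j m r * c.1 =
    (j * c.1 + m * c.2) * (j * gA f r + m * gB f h σ r) - m * gL f h σ j m c r := by
  unfold gN gL
  ring

lemma sol2 (j m : ℝ) (c : ℝ × ℝ) (r : ℝ) : gN f h σ j m r * c.2 =
    (j * c.1 + m * c.2) * (m * gC h r + j * gB f h σ r) + j * gL f h σ j m c r := by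
  unfold gN gL
  ring

lemma gA_cont (M : IsTorusMetric L f h σ) : Continuous (gA f) := (gA_smooth M).continuous
lemma gB_cont (M : IsTorusMetric L f h σ) : Continuous (gB f h σ) := (gB_smooth M).continuous
lemma gC_cont (M : IsTorusMetric L f h σ) : Continuous (gC h) := (gC_smooth M).continuous
lemma gD_cont (M : IsTorusMetric L f h σ) : Continuous (gD f h σ) := (gD_smooth M).continuous

lemma gN_cont (M : IsTorusMetric L f h σ) (j m : ℝ) : Continuous (gN f h σ j m) := by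
  have := gA_cont M
  have := gB_cont M
  have := gC_cont M
  unfold gN
  fun_prop

lemma gP_cont (M : IsTorusMetric L f h σ) :
    Continuous fun x : (ℝ × ℝ) × ℝ => gP f h σ x.1 x.2 := by
  have h1 : Continuous fun x : (ℝ × ℝ) × ℝ => gA f x.2 := (gA_cont M).comp continuous_snd
  have h2 : Continuous fun x : (ℝ × ℝ) × ℝ => gB f h σ x.2 := (gB_cont M).comp continuous_snd
  have h3 : Continuous fun x : (ℝ × ℝ) × ℝ => gC h x.2 := (gC_cont M).comp continuous_snd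
  have h4 : Continuous fun x : (ℝ × ℝ) × ℝ => gD f h σ x.2 := (gD_cont M).comp continuous_snd
  unfold gP gQ
  fun_prop

lemma gL_cont (M : IsTorusMetric L f h σ) (j m : ℝ) :
    Continuous fun x : (ℝ × ℝ) × ℝ => gL f h σ j m x.1 x.2 := by
  have h1 : Continuous fun x : (ℝ × ℝ) × ℝ => gA f x.2 := (gA_cont M).comp continuous_snd
  have h2 : Continuous fun x : (ℝ × ℝ) × ℝ => gB f h σ x.2 := (gB_cont M).comp continuous_snd
  have h3 : Continuous fun x : (ℝ × ℝ) × ℝ => gC h x.2 := (gC_cont M).comp continuous_snd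
  unfold gL
  fun_prop

lemma gD_nonneg (M : IsTorusMetric L f h σ) (r : ℝ) : 0 ≤ gD f h σ r := by
  have h1 := M.lt_one r
  have h2 : 0 ≤ 1 - (σ r * f r * h r) ^ 2 := by linarith
  rw [gD_eq]
  unfold gA gW
  positivity

lemma gQ_nonneg (M : IsTorusMetric L f h σ) (c : ℝ × ℝ) (r : ℝ) : 0 ≤ gQ f h σ c r := by
  have h1 := M.lt_one r
  have e : gQ f h σ c r = (c.1 * h r - c.2 * f r * (σ r * f r * h r)) ^ 2 +
      c.2 ^ 2 * f r ^ 2 * (1 - (σ r * f r * h r) ^ 2) := by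
    unfold gQ gA gB gC
    ring
  have h2 : 0 ≤ 1 - (σ r * f r * h r) ^ 2 := by linarith
  rw [e]
  positivity

lemma VV_nonneg (M : IsTorusMetric L f h σ) (c : ℝ × ℝ) (r : ℝ) : 0 ≤ VV f h σ c r := by
  rw [VV_eq]
  exact div_nonneg (gQ_nonneg M c r) (gD_nonneg M r)

lemma VV_lt_one_iff (M : IsTorusMetric L f h σ) (c : ℝ × ℝ) {r : ℝ} (h0 : 0 < r) (hL : r < L) :
    VV f h σ c r < 1 ↔ gP f h σ c r < 0 := by
  have hD := gD_pos M h0 hL
  rw [VV_eq, div_lt_one hD]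
  unfold gP
  constructor <;> intro h <;> linarith

lemma VV_eq_one_iff (M : IsTorusMetric L f h σ) (c : ℝ × ℝ) {r : ℝ} (h0 : 0 < r) (hL : r < L) :
    VV f h σ c r = 1 ↔ gP f h σ c r = 0 := by
  have hD := gD_pos M h0 hL
  rw [VV_eq, div_eq_one_iff_eq hD.ne']
  unfold gP
  constructor <;> intro h <;> linarith

/-- values at the singular orbits -/
lemma f_zero (M : IsTorusMetric L f h σ) : f 0 = 0 := by
  have := M.prof.f_odd 0
  simp only [neg_zero] at this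
  linarith

lemma gP_zero (M : IsTorusMetric L f h σ) (c : ℝ × ℝ) : gP f h σ c 0 = c.1 ^ 2 * gC h 0 := by
  unfold gP gQ gD gA gB
  rw [f_zero M]
  ring

lemma gL_zero (M : IsTorusMetric L f h σ) (j m : ℝ) (c : ℝ × ℝ) :
    gL f h σ j m c 0 = -(c.1 * m * gC h 0) := by
  unfold gL gA gB
  rw [f_zero M]
  ring

lemma h_L (M : IsTorusMetric L f h σ) : h L = 0 := by
  have := M.prof.h_odd 0
  simp only [add_zero, sub_zero] at this
  linarith

lemma gP_L (M : IsTorusMetric L f h σ) (c : ℝ × ℝ) : gP f h σ c L = c.2 ^ 2 * gA f L := by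
  unfold gP gQ gD gC gB
  rw [h_L M]
  ring

lemma gL_L (M : IsTorusMetric L f h σ) (j m : ℝ) (c : ℝ × ℝ) :
    gL f h σ j m c L = c.2 * j * gA f L := by
  unfold gL gC gB
  rw [h_L M]
  ring

/-- the metrics with the circles exchanged -/
lemma gA_swap (r : ℝ) : gA (fun r => h (L - r)) r = gC h (L - r) := rfl
lemma gC_swap (r : ℝ) : gC (fun r => f (L - r)) r = gA f (L - r) := rfl
lemma gB_swap (r : ℝ) : gB (fun r => h (L - r)) (fun r => f (L - r)) (fun r => σ (L - r)) r =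
    gB f h σ (L - r) := by
  unfold gB
  ring

lemma gD_swap (r : ℝ) : gD (fun r => h (L - r)) (fun r => f (L - r)) (fun r => σ (L - r)) r =
    gD f h σ (L - r) := by
  unfold gD
  rw [gA_swap, gC_swap, gB_swap]
  ring

lemma gN_swap (j m r : ℝ) : gN (fun r => h (L - r)) (fun r => f (L - r)) (fun r => σ (L - r)) m j r =
    gN f h σ j m (L - r) := by
  unfold gN
  rw [gA_swap, gC_swap, gB_swap]
  ring

lemma gQ_swap (c : ℝ × ℝ) (r : ℝ) :
    gQ (fun r => h (L - r)) (fun r => f (L - r)) (fun r => σ (L - r)) c.swap r =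
    gQ f h σ c (L - r) := by
  unfold gQ
  rw [gA_swap, gC_swap, gB_swap]
  simp only [Prod.fst_swap, Prod.snd_swap]
  ring

lemma gP_swap (c : ℝ × ℝ) (r : ℝ) :
    gP (fun r => h (L - r)) (fun r => f (L - r)) (fun r => σ (L - r)) c.swap r =
    gP f h σ c (L - r) := by
  unfold gP
  rw [gQ_swap, gD_swap]

lemma VV_swap (c : ℝ × ℝ) (r : ℝ) :
    VV (fun r => h (L - r)) (fun r => f (L - r)) (fun r => σ (L - r)) c.swap r =
    VV f h σ c (L - r) := by
  rw [VV_eq, VV_eq, gQ_swap, gD_swap]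

lemma gL_swap (j m : ℝ) (c : ℝ × ℝ) (r : ℝ) :
    gL (fun r => h (L - r)) (fun r => f (L - r)) (fun r => σ (L - r)) m j c.swap r =
    -gL f h σ j m c (L - r) := by
  unfold gL
  rw [gA_swap, gC_swap, gB_swap]
  simp only [Prod.fst_swap, Prod.snd_swap]
  ring

/-- Near the singular orbit `r = 0`: where the potential is at least one, the side is determined. -/
theorem near_zero (M : IsTorusMetric L f h σ) {R C J : ℝ} (hR : 0 < R) (hC : 0 < C) (hJ : 0 < J)
    (hh : R < h 0) : ∀ᶠ r in 𝓝[>] (0 : ℝ), ∀ (j m : ℝ) (c : ℝ × ℝ), |j| ≤ J → |m| ≤ J → 1 ≤ |m| →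
      |c.1| ≤ C → |c.2| ≤ C → |j * c.1 + m * c.2| ≤ R → 0 ≤ gP f h σ c r →
      m * c.1 * gL f h σ j m c r < 0 := by
  have hf0 : f 0 = 0 := f_zero M
  have fc : Continuous f := M.prof.smooth_f.continuous
  have hc : Continuous h := M.prof.smooth_h.continuous
  have sc : Continuous σ := M.smooth.continuous
  have hh0 : 0 < h 0 := hR.trans hh
  -- choice of η
  obtain ⟨η, hη, hη2⟩ : ∃ η : ℝ, 0 < η ∧ η ^ 2 * h 0 ^ 2 + R ^ 2 < h 0 ^ 2 := by
    have h1 : 0 < h 0 ^ 2 - R ^ 2 := by nlinarith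
    refine ⟨√((h 0 ^ 2 - R ^ 2) / (2 * h 0 ^ 2)), Real.sqrt_pos.2 (by positivity), ?_⟩
    rw [Real.sq_sqrt (by positivity)]
    have : (h 0 ^ 2 - R ^ 2) / (2 * h 0 ^ 2) * h 0 ^ 2 = (h 0 ^ 2 - R ^ 2) / 2 := by
      field_simp
    rw [this]
    linarith
  -- first estimate
  have e1 : ∀ᶠ r in 𝓝[>] (0 : ℝ), η ^ 2 * h r ^ 2 + (R + J * (η * f r)) ^ 2 +
      2 * |σ r| * h r ^ 2 * (η * f r) * C < h r ^ 2 * (1 - (σ r * f r * h r) ^ 2) := by
    have hcont : Continuous fun r => h r ^ 2 * (1 - (σ r * f r * h r) ^ 2) -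
      (η ^ 2 * h r ^ 2 + (R + J * (η * f r)) ^ 2 + 2 * |σ r| * h r ^ 2 * (η * f r) * C) := by
      fun_prop
    have ht := hcont.tendsto 0
    simp only [hf0, mul_zero, zero_mul, add_zero] at ht
    have h2 : 0 < h 0 ^ 2 * (1 - 0 ^ 2) - (η ^ 2 * h 0 ^ 2 + R ^ 2) := by
      nlinarith
    filter_upwards [(tendsto_nhdsWithin_of_tendsto_nhds ht).eventually_const_lt h2] with r hr
    linarith
  -- second estimate
  have e2 : ∀ᶠ r in 𝓝[>] (0 : ℝ), J * C * (J + J * |σ r| * h r ^ 2) * f r <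
      η * (h r ^ 2 - J ^ 2 * |σ r| * f r ^ 2 * h r ^ 2) := by
    have hcont : Continuous fun r => η * (h r ^ 2 - J ^ 2 * |σ r| * f r ^ 2 * h r ^ 2) -
      J * C * (J + J * |σ r| * h r ^ 2) * f r := by fun_prop
    have ht := hcont.tendsto 0
    simp only [hf0, mul_zero] at ht
    have h2 : 0 < η * (h 0 ^ 2 - J ^ 2 * |σ 0| * 0 ^ 2 * h 0 ^ 2) - 0 := by
      have : 0 < η * h 0 ^ 2 := by positivity
      nlinarith
    filter_upwards [(tendsto_nhdsWithin_of_tendsto_nhds ht).eventually_const_lt h2] with r hr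
    linarith
  have e3 : ∀ᶠ r in 𝓝[>] (0 : ℝ), r < L :=
    (tendsto_nhdsWithin_of_tendsto_nhds tendsto_id).eventually_lt_const M.prof.pos
  filter_upwards [e1, e2, e3, self_mem_nhdsWithin] with r h1 h2 h3 h4 j m c hj hm hm1 hc1 hc2 hk hP
  have hr0 : 0 < r := h4
  have hfr : 0 < f r := M.prof.f_pos r hr0 h3.le
  have hhr : 0 < h r := M.prof.h_pos r hr0.le h3
  have hs0 : 0 ≤ |σ r| := abs_nonneg _
  have hc10 : 0 ≤ |c.1| := abs_nonneg _
  have hm0 : 0 < |m| := by linarith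
  -- `|c₁| > η f`
  have hbig : η * f r < |c.1| := by
    by_contra hcon
    push Not at hcon
    -- `|c₂| ≤ R + J η f`
    have hc2' : |c.2| ≤ R + J * (η * f r) := by
      have i1 : m * c.2 = (j * c.1 + m * c.2) - j * c.1 := by ring
      have i2 : |m| * |c.2| ≤ R + J * (η * f r) := by
        rw [← abs_mul, i1]
        refine (abs_sub _ _).trans ?_
        rw [abs_mul j]
        have := mul_le_mul hj hcon hc10 (by linarith [abs_nonneg j])
        linarith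
      have : |c.2| ≤ |m| * |c.2| := le_mul_of_one_le_left (abs_nonneg _) hm1
      linarith
    have hq : gQ f h σ c r ≤ f r ^ 2 * (η ^ 2 * h r ^ 2 + (R + J * (η * f r)) ^ 2 +
        2 * |σ r| * h r ^ 2 * (η * f r) * C) := by
      have i1 : c.1 ^ 2 ≤ (η * f r) ^ 2 := by
        rw [← sq_abs c.1]
        exact pow_le_pow_left₀ hc10 hcon 2
      have i2 : c.2 ^ 2 ≤ (R + J * (η * f r)) ^ 2 := by
        rw [← sq_abs c.2]
        exact pow_le_pow_left₀ (abs_nonneg _) hc2' 2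
      have i3 : -(c.1 * c.2 * σ r) ≤ (η * f r) * C * |σ r| := by
        refine (neg_le_abs _).trans ?_
        rw [abs_mul, abs_mul]
        gcongr
      have i4 : c.1 ^ 2 * h r ^ 2 ≤ (η * f r) ^ 2 * h r ^ 2 := by gcongr
      have i5 : c.2 ^ 2 * f r ^ 2 ≤ (R + J * (η * f r)) ^ 2 * f r ^ 2 := by gcongr
      have i6 : -(c.1 * c.2 * σ r) * (2 * (f r ^ 2 * h r ^ 2)) ≤
          (η * f r) * C * |σ r| * (2 * (f r ^ 2 * h r ^ 2)) := by gcongr
      unfold gQ gA gB gC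
      nlinarith
    have hd : gD f h σ r = f r ^ 2 * (h r ^ 2 * (1 - (σ r * f r * h r) ^ 2)) := by
      rw [gD_eq]; rfl
    have : gQ f h σ c r < gD f h σ r := by
      rw [hd]
      exact lt_of_le_of_lt hq (mul_lt_mul_of_pos_left h1 (by positivity))
    unfold gP at hP
    linarith
  -- the sign
  have e : m * c.1 * gL f h σ j m c r = m * c.1 * c.2 * (f r ^ 2 * (j + m * (σ r * h r ^ 2))) -
      c.1 ^ 2 * (m ^ 2 * h r ^ 2 + j * m * (σ r * f r ^ 2 * h r ^ 2)) := by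
    unfold gL gA gB gC
    ring
  have hc1sq : c.1 ^ 2 = |c.1| * |c.1| := by rw [← sq_abs]; ring
  have u1 : m * c.1 * c.2 * (f r ^ 2 * (j + m * (σ r * h r ^ 2))) ≤
      |c.1| * (J * C * (f r ^ 2 * (J + J * |σ r| * h r ^ 2))) := by
    refine (le_abs_self _).trans ?_
    rw [abs_mul, abs_mul, abs_mul, abs_mul (f r ^ 2), abs_of_nonneg (by positivity : 0 ≤ f r ^ 2)]
    have k1 : |j + m * (σ r * h r ^ 2)| ≤ J + J * |σ r| * h r ^ 2 := by
      refine (abs_add_le _ _).trans ?_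
      rw [abs_mul, abs_mul, abs_of_nonneg (by positivity : 0 ≤ h r ^ 2)]
      have : |m| * (|σ r| * h r ^ 2) ≤ J * (|σ r| * h r ^ 2) := by gcongr
      linarith
    have k2 : |m| * |c.2| ≤ J * C := mul_le_mul hm hc2 (abs_nonneg _) hJ.le
    calc |m| * |c.1| * |c.2| * (f r ^ 2 * |j + m * (σ r * h r ^ 2)|)
        = |c.1| * (|m| * |c.2| * (f r ^ 2 * |j + m * (σ r * h r ^ 2)|)) := by ring
      _ ≤ |c.1| * (J * C * (f r ^ 2 * (J + J * |σ r| * h r ^ 2))) := by gcongr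
  have u2 : |c.1| * (|c.1| * (h r ^ 2 - J ^ 2 * |σ r| * f r ^ 2 * h r ^ 2)) ≤
      c.1 ^ 2 * (m ^ 2 * h r ^ 2 + j * m * (σ r * f r ^ 2 * h r ^ 2)) := by
    have k1 : 1 ≤ m ^ 2 := by rw [← sq_abs]; nlinarith
    have k2 : -(J ^ 2 * |σ r|) ≤ j * m * σ r := by
      have : |j * m * σ r| ≤ J ^ 2 * |σ r| := by
        rw [abs_mul, abs_mul]
        have : |j| * |m| ≤ J ^ 2 := by
          rw [pow_two]
          exact mul_le_mul hj hm (abs_nonneg _) hJ.le
        gcongr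
      linarith [neg_abs_le (j * m * σ r)]
    have k3 : h r ^ 2 - J ^ 2 * |σ r| * f r ^ 2 * h r ^ 2 ≤
        m ^ 2 * h r ^ 2 + j * m * (σ r * f r ^ 2 * h r ^ 2) := by
      have a1 : h r ^ 2 ≤ m ^ 2 * h r ^ 2 := le_mul_of_one_le_left (by positivity) k1
      have a2 : -(J ^ 2 * |σ r|) * (f r ^ 2 * h r ^ 2) ≤ (j * m * σ r) * (f r ^ 2 * h r ^ 2) := by
        gcongr
      nlinarith
    calc |c.1| * (|c.1| * (h r ^ 2 - J ^ 2 * |σ r| * f r ^ 2 * h r ^ 2))
        = c.1 ^ 2 * (h r ^ 2 - J ^ 2 * |σ r| * f r ^ 2 * h r ^ 2) := by rw [hc1sq]; ring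
      _ ≤ _ := mul_le_mul_of_nonneg_left k3 (sq_nonneg _)
  have hc1pos : 0 < |c.1| := lt_trans (by positivity) hbig
  rw [e]
  have u3 : J * C * (f r ^ 2 * (J + J * |σ r| * h r ^ 2)) <
      |c.1| * (h r ^ 2 - J ^ 2 * |σ r| * f r ^ 2 * h r ^ 2) := by
    have g0 : 0 < h r ^ 2 - J ^ 2 * |σ r| * f r ^ 2 * h r ^ 2 := by
      have : 0 ≤ J * C * (J + J * |σ r| * h r ^ 2) * f r := by positivity
      by_contra hcon
      push Not at hcon
      have := mul_nonpos_of_nonneg_of_nonpos hη.le hcon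
      linarith
    have g1 : J * C * (f r ^ 2 * (J + J * |σ r| * h r ^ 2)) =
        (J * C * (J + J * |σ r| * h r ^ 2) * f r) * f r := by ring
    rw [g1]
    calc (J * C * (J + J * |σ r| * h r ^ 2) * f r) * f r
        < (η * (h r ^ 2 - J ^ 2 * |σ r| * f r ^ 2 * h r ^ 2)) * f r :=
          mul_lt_mul_of_pos_right h2 hfr
      _ = (η * f r) * (h r ^ 2 - J ^ 2 * |σ r| * f r ^ 2 * h r ^ 2) := by ring
      _ ≤ _ := mul_le_mul_of_nonneg_right hbig.le g0.le
  have u4 := mul_lt_mul_of_pos_left u3 hc1pos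
  linarith

end Pool.Agent.L7h84.TT
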