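import Pool.Agent.L7h84.TT.Min
import Pool.Agent.L7h84.TT.Fo

/-! # Torus invariant metrics on `S³`: minima at regular wells -/

open Real Set MeasureTheory Filter Topology
open scoped ContDiff

namespace Pool.Agent.L7h84.TT

open Pool.Agent.H206R2.Rot2

variable {L : ℝ} {f h σ : ℝ → ℝ}

lemma VV_add (c d : ℝ × ℝ) (ε r : ℝ) : VV f h σ (c.1 + ε * d.1, c.2 + ε * d.2) r =
    VV f h σ c r + ε * (2 * (v1 f h σ c r * d.1 + v2 f h σ c r * d.2)) +
      ε ^ 2 * VV f h σ d r := by
  unfold VV v1 v2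
  ring

lemma VV_smul (c : ℝ × ℝ) (s r : ℝ) : VV f h σ (s * c.1, s * c.2) r = s ^ 2 * VV f h σ c r := by
  unfold VV
  ring

lemma gQ_smul (c : ℝ × ℝ) (s r : ℝ) : gQ f h σ (s * c.1, s * c.2) r = s ^ 2 * gQ f h σ c r := by
  unfold gQ
  ring

lemma gL_smul (j m : ℝ) (c : ℝ × ℝ) (s r : ℝ) :
    gL f h σ j m (s * c.1, s * c.2) r = s * gL f h σ j m c r := by
  unfold gL
  ring

lemma VV_eq_dot (c : ℝ × ℝ) (r : ℝ) :
    VV f h σ c r = c.1 * v1 f h σ c r + c.2 * v2 f h σ c r := by
  unfold VV v1 v2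
  ring

lemma gP_nonneg_of (M : IsTorusMetric L f h σ) {c : ℝ × ℝ} {r : ℝ} (h0 : 0 < r) (hL : r < L)
    (hV : 1 ≤ VV f h σ c r) : 0 ≤ gP f h σ c r := by
  by_contra hcon
  push Not at hcon
  have := (VV_lt_one_iff M c h0 hL).2 hcon
  linarith

lemma VV_reg (M : IsTorusMetric L f h σ) (c : ℝ × ℝ) {p : ℝ} (hp : p ∈ Ioo 0 L) :
    (∀ᶠ x in 𝓝 p, DifferentiableAt ℝ (VV f h σ c) x) ∧
      DifferentiableAt ℝ (deriv (VV f h σ c)) p := by
  have h1 := VV_contDiffOn M c
  rw [contDiffOn_infty_iff_deriv_of_isOpen isOpen_Ioo] at h1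
  constructor
  · filter_upwards [isOpen_Ioo.mem_nhds hp] with x hx
    exact h1.1.differentiableAt (isOpen_Ioo.mem_nhds hx)
  · exact (h1.2.differentiableOn (by simp)).differentiableAt (isOpen_Ioo.mem_nhds hp)

lemma outside (M : IsTorusMetric L f h σ) {c : ℝ × ℝ} {a b B : ℝ} (hab : a ≤ b)
    (hge : ∀ r ∈ Icc a b, 1 - B ≤ VV f h σ c r) :
    ∫ r in a..b, √(1 - VV f h σ c r) ≤ √B * (b - a) := by
  have := intervalIntegral.norm_integral_le_of_norm_le_const (a := a) (b := b)
    (f := fun r => √(1 - VV f h σ c r)) (C := √B) (fun r hr => by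
      rw [uIoc_of_le hab] at hr
      rw [Real.norm_eq_abs, abs_of_nonneg (Real.sqrt_nonneg _)]
      refine Real.sqrt_le_sqrt ?_
      have := hge r ⟨hr.1.le, hr.2⟩
      linarith)
  rw [abs_of_nonneg (by linarith : (0 : ℝ) ≤ b - a)] at this
  exact (le_abs_self _).trans this

lemma small_sqrt {K M η : ℝ} (hη : 0 < η) :
    ∀ᶠ ε in 𝓝[>] (0 : ℝ), √(ε * M) * (K * ε) ≤ η * ε := by
  have hc : Continuous fun ε : ℝ => √(ε * M) * K := by fun_prop
  have ht := hc.tendsto 0
  simp only [zero_mul, Real.sqrt_zero] at ht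
  filter_upwards [(tendsto_nhdsWithin_of_tendsto_nhds ht).eventually_lt_const hη,
    self_mem_nhdsWithin] with ε h1 h2
  rw [mem_Ioi] at h2
  nlinarith

/-- values at the ends of a well -/
lemma end_le (M : IsTorusMetric L f h σ) {c : ℝ × ℝ} {p q : ℝ} (hpq : p < q)
    (hw : ∀ r ∈ Ioo p q, gP f h σ c r < 0) : gP f h σ c p ≤ 0 ∧ gP f h σ c q ≤ 0 := by
  have hc : Continuous fun r => gP f h σ c r :=
    (gP_cont M).comp (continuous_const.prodMk continuous_id)
  constructor
  · have ht : Tendsto (fun r => gP f h σ c r) (𝓝[>] p) (𝓝 (gP f h σ c p)) :=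
      tendsto_nhdsWithin_of_tendsto_nhds (hc.tendsto p)
    refine le_of_tendsto ht ?_
    filter_upwards [Ioo_mem_nhdsGT hpq] with r hr
    exact (hw r hr).le
  · have ht : Tendsto (fun r => gP f h σ c r) (𝓝[<] q) (𝓝 (gP f h σ c q)) :=
      tendsto_nhdsWithin_of_tendsto_nhds (hc.tendsto q)
    refine le_of_tendsto ht ?_
    filter_upwards [Ioo_mem_nhdsLT hpq] with r hr
    exact (hw r hr).le

theorem case_reg {R : ℝ} {J : ℤ} (H : Hyp L f h σ R J) {δ : ℝ} {n : ℤ × ℤ} (hn : n ∈ NN J)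
    {c : ℝ × ℝ} {p q : ℝ} (hx : (c, (p, q)) ∈ KK L f h σ R δ n)
    (hmin : ∀ x' ∈ KK L f h σ R δ n, FF f h σ n (c, (p, q)) ≤ FF f h σ n x')
    (hwell : ∀ r ∈ Ioo p q, gP f h σ c r < 0) (hp : 0 < p) (hq : q < L)
    (hk0 : 0 < (n.1 : ℝ) * c.1 + n.2 * c.2) (hkR : (n.1 : ℝ) * c.1 + n.2 * c.2 < R) :
    Per L f h σ (FF f h σ n (c, (p, q))) := by
  obtain ⟨⟨-, hpq', -, hδq, hpδ⟩, hPp, hPq, hLL, -, -⟩ := hx
  simp only at hpq' hδq hpδ hPp hPq hLL
  have hπ := Real.pi_pos
  have M := H.M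
  have hpL : p < L := hpq'.trans_lt hq
  have hq0 : 0 < q := hp.trans_le hpq'
  have ne1 := gL_ne H hn hk0.le hkR.le hp hpL hPp
  have ne2 := gL_ne H hn hk0.le hkR.le hq0 hq hPq
  have hprod : gL f h σ n.1 n.2 c p * gL f h σ n.1 n.2 c q < 0 :=
    lt_of_le_of_ne hLL (mul_ne_zero ne1 ne2)
  have hpq : p < q := by
    refine lt_of_le_of_ne hpq' fun hh => ?_
    rw [hh] at hprod
    nlinarith [mul_self_nonneg (gL f h σ n.1 n.2 c q)]
  obtain ⟨le1, le2⟩ := end_le M hpq hwell
  have hVp : VV f h σ c p = 1 := (VV_eq_one_iff M c hp hpL).2 (le_antisymm le1 hPp)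
  have hVq : VV f h σ c q = 1 := (VV_eq_one_iff M c hq0 hq).2 (le_antisymm le2 hPq)
  have hsub : Ioo p q ⊆ Ioo 0 L := fun r hr => ⟨hp.trans hr.1, hr.2.trans hq⟩
  have hsub' : Icc p q ⊆ Ioo 0 L := fun r hr => ⟨hp.trans_le hr.1, hr.2.trans_lt hq⟩
  have hin : ∀ r ∈ Ioo p q, VV f h σ c r < 1 := fun r hr =>
    (VV_lt_one_iff M c (hsub hr).1 (hsub hr).2).2 (hwell r hr)
  have hVc : ContinuousOn (VV f h σ c) (Ioo 0 L) := (VV_contDiffOn M c).continuousOn
  have hIoo : ∀ (c' : ℝ × ℝ), ∫ r in p..q, √(1 - VV f h σ c' r) =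
      ∫ r in Ioo p q, √(1 - VV f h σ c' r) := fun c' => by
    rw [intervalIntegral.integral_of_le hpq.le, integral_Ioc_eq_integral_Ioo]
  set κ : ℝ := (n.1 : ℝ) * c.1 + n.2 * c.2 with hκ
  -- scaling
  have hint : IntegrableOn (fun r => 1 / √(1 - VV f h σ c r)) (Ioo p q) := by
    refine int_of_radial (κ := π * κ / 2) hpq (hVc.mono hsub) (fun r _ => VV_nonneg M c r) hin ?_
    have ev : ∀ᶠ ε in 𝓝[>] (0 : ℝ), (1 + ε) * κ < R := by
      have hc : Continuous fun ε : ℝ => (1 + ε) * κ := by fun_prop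
      have ht := hc.tendsto 0
      simp only [add_zero, one_mul] at ht
      exact (tendsto_nhdsWithin_of_tendsto_nhds ht).eventually_lt_const hkR
    filter_upwards [ev, self_mem_nhdsWithin] with ε h1 h2
    rw [mem_Ioi] at h2
    have hmem : ((((1 + ε) * c.1, (1 + ε) * c.2), (p, q)) : (ℝ × ℝ) × (ℝ × ℝ)) ∈
        KK L f h σ R δ n := by
      refine ⟨⟨hp.le, hpq.le, hq.le, hδq, hpδ⟩, ?_, ?_, ?_, ?_, ?_⟩
      · show 0 ≤ gP f h σ ((1 + ε) * c.1, (1 + ε) * c.2) p
        unfold gP at hPp ⊢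
        rw [gQ_smul]
        have := gQ_nonneg M c p
        nlinarith [mul_nonneg h2.le this, mul_nonneg (sq_nonneg ε) this]
      · show 0 ≤ gP f h σ ((1 + ε) * c.1, (1 + ε) * c.2) q
        unfold gP at hPq ⊢
        rw [gQ_smul]
        have := gQ_nonneg M c q
        nlinarith [mul_nonneg h2.le this, mul_nonneg (sq_nonneg ε) this]
      · show gL f h σ n.1 n.2 ((1 + ε) * c.1, (1 + ε) * c.2) p *
          gL f h σ n.1 n.2 ((1 + ε) * c.1, (1 + ε) * c.2) q ≤ 0
        rw [gL_smul, gL_smul]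
        nlinarith [mul_nonneg (sq_nonneg (1 + ε)) (neg_nonneg.2 hLL)]
      · show 0 ≤ (n.1 : ℝ) * ((1 + ε) * c.1) + n.2 * ((1 + ε) * c.2)
        have : (n.1 : ℝ) * ((1 + ε) * c.1) + n.2 * ((1 + ε) * c.2) = (1 + ε) * κ := by
          rw [hκ]; ring
        rw [this]; positivity
      · show (n.1 : ℝ) * ((1 + ε) * c.1) + n.2 * ((1 + ε) * c.2) ≤ R
        have : (n.1 : ℝ) * ((1 + ε) * c.1) + n.2 * ((1 + ε) * c.2) = (1 + ε) * κ := by
          rw [hκ]; ring
        rw [this]; exact h1.le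
    have h3 := hmin _ hmem
    unfold FF Act at h3
    simp only at h3
    rw [hIoo, hIoo] at h3
    simp only [VV_smul] at h3
    have e1 : (n.1 : ℝ) * ((1 + ε) * c.1) + n.2 * ((1 + ε) * c.2) = κ + κ * ε := by
      rw [hκ]; ring
    rw [e1, ← hκ] at h3
    nlinarith
  -- regular ends
  obtain ⟨r1, r2⟩ := VV_reg M c (hsub' (left_mem_Icc.2 hpq.le))
  obtain ⟨r3, r4⟩ := VV_reg M c (hsub' (right_mem_Icc.2 hpq.le))
  have hp' : deriv (VV f h σ c) p < 0 := TF.deriv_neg hpq r1 r2 hVp hin hint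
  have hq' : 0 < deriv (VV f h σ c) q := TF.deriv_pos hpq r3 r4 hVq hin hint
  have b1 := TG.left_bound r1.self_of_nhds hp' hVp
  have b2 := TG.right_bound r3.self_of_nhds hq' hVq
  obtain ⟨l, hl, hl'⟩ := (mem_nhdsLT_iff_exists_mem_Ico_Ioo_subset (by linarith : p / 2 < p)).1 b1
  obtain ⟨u, hu, hu'⟩ := (mem_nhdsGT_iff_exists_mem_Ioc_Ioo_subset
    (by linarith : q < (q + L) / 2)).1 b2
  set a := min (-deriv (VV f h σ c) p / 2) (deriv (VV f h σ c) q / 2) with ha
  have ha0 : 0 < a := lt_min (by linarith) (by linarith)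
  have hVl : ∀ r ∈ Ioc l p, 1 + a * (p - r) ≤ VV f h σ c r := by
    intro r hr
    rcases eq_or_lt_of_le hr.2 with hh | hh
    · rw [hh, hVp]; simp
    · have := hl' ⟨hr.1, hh⟩
      have h2 : a * (p - r) ≤ -deriv (VV f h σ c) p / 2 * (p - r) :=
        mul_le_mul_of_nonneg_right (min_le_left _ _) (by linarith)
      have h3 : 1 + -deriv (VV f h σ c) p / 2 * (p - r) ≤ VV f h σ c r := this
      linarith
  have hVu : ∀ r ∈ Ico q u, 1 + a * (r - q) ≤ VV f h σ c r := by
    intro r hr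
    rcases eq_or_lt_of_le hr.1 with hh | hh
    · rw [← hh, hVq]; simp
    · have := hu' ⟨hh, hr.2⟩
      have h2 : a * (r - q) ≤ deriv (VV f h σ c) q / 2 * (r - q) :=
        mul_le_mul_of_nonneg_right (min_le_right _ _) (by linarith)
      have h3 : 1 + deriv (VV f h σ c) q / 2 * (r - q) ≤ VV f h σ c r := this
      linarith
  have hl0 : 0 < l := by linarith [hl.1]
  have huL : u < L := by linarith [hu.2]
  have hKsub : Icc l u ⊆ Ioo 0 L := fun r hr => ⟨hl0.trans_le hr.1, hr.2.trans_lt huL⟩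
  have hv1 := (v1_contDiffOn M c).continuousOn
  have hv2 := (v2_contDiffOn M c).continuousOn
  -- the first variation
  have key : ∀ d : ℝ × ℝ, 2 * ∫ r in Ioo p q,
      (2 * (v1 f h σ c r * d.1 + v2 f h σ c r * d.2)) / √(1 - VV f h σ c r) ≤
      2 * π * (n.1 * d.1 + n.2 * d.2) := by
    intro d
    set B : ℝ → ℝ := fun r => 2 * (v1 f h σ c r * d.1 + v2 f h σ c r * d.2) with hB
    have hBc : ContinuousOn B (Ioo 0 L) :=
      continuousOn_const.mul ((hv1.mul continuousOn_const).add (hv2.mul continuousOn_const))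
    obtain ⟨C, hC⟩ := isCompact_Icc.exists_bound_of_continuousOn (hBc.mono hKsub)
    set C' := max C 1 with hC'
    have hC'0 : 0 < C' := lt_of_lt_of_le one_pos (le_max_right _ _)
    have hBC : ∀ r ∈ Icc l u, |B r| ≤ C' := fun r hr => by
      have := hC r hr
      rw [Real.norm_eq_abs] at this
      exact this.trans (le_max_left _ _)
    set K := C' / a with hK
    have hK0 : 0 < K := div_pos hC'0 ha0
    have hKa : a * K = C' := by rw [hK]; field_simp
    refine le_of_forall_pos_le_add fun η₀ hη₀ => ?_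
    set η := η₀ / 12 with hη
    have hη0 : 0 < η := by rw [hη]; positivity
    have hsubpq : Ioo p q ⊆ Icc l u := fun r hr =>
      ⟨by linarith [hr.1, hl.2], by linarith [hr.2, hu.1]⟩
    have ev1 := inside (hVc.mono hsub) (hBc.mono hsub) (fun r hr => hBC r (hsubpq hr)) hin
      (fun r _ => VV_nonneg M c r) hint hη0
    have ev2 := small_sqrt (K := K) (M := C') hη0
    have ev3 : ∀ᶠ ε in 𝓝[>] (0 : ℝ), K * ε < min (p - l) (u - q) := by
      have hc : Continuous fun ε : ℝ => K * ε := by fun_prop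
      have ht := hc.tendsto 0
      simp only [mul_zero] at ht
      exact (tendsto_nhdsWithin_of_tendsto_nhds ht).eventually_lt_const
        (lt_min (by linarith [hl.2]) (by linarith [hu.1]))
    have ev4 : ∀ᶠ ε in 𝓝[>] (0 : ℝ), 0 < κ + ε * (n.1 * d.1 + n.2 * d.2) ∧
        κ + ε * (n.1 * d.1 + n.2 * d.2) < R := by
      have hc : Continuous fun ε : ℝ => κ + ε * (n.1 * d.1 + n.2 * d.2) := by fun_prop
      have ht := hc.tendsto 0
      simp only [zero_mul, add_zero] at ht
      exact ((tendsto_nhdsWithin_of_tendsto_nhds ht).eventually_const_lt hk0).and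
        ((tendsto_nhdsWithin_of_tendsto_nhds ht).eventually_lt_const hkR)
    have ev5 : ∀ᶠ ε in 𝓝[>] (0 : ℝ), gL f h σ n.1 n.2 (c.1 + ε * d.1, c.2 + ε * d.2) (p - K * ε) *
        gL f h σ n.1 n.2 (c.1 + ε * d.1, c.2 + ε * d.2) (q + K * ε) < 0 := by
      have g1 : Continuous fun ε : ℝ =>
          gL f h σ n.1 n.2 (c.1 + ε * d.1, c.2 + ε * d.2) (p - K * ε) :=
        (gL_cont M n.1 n.2).comp (f := fun ε : ℝ => ((c.1 + ε * d.1, c.2 + ε * d.2), p - K * ε))
          (by fun_prop)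
      have g2 : Continuous fun ε : ℝ =>
          gL f h σ n.1 n.2 (c.1 + ε * d.1, c.2 + ε * d.2) (q + K * ε) :=
        (gL_cont M n.1 n.2).comp (f := fun ε : ℝ => ((c.1 + ε * d.1, c.2 + ε * d.2), q + K * ε))
          (by fun_prop)
      have hgc : Continuous fun ε : ℝ =>
          gL f h σ n.1 n.2 (c.1 + ε * d.1, c.2 + ε * d.2) (p - K * ε) *
          gL f h σ n.1 n.2 (c.1 + ε * d.1, c.2 + ε * d.2) (q + K * ε) := g1.mul g2
      have ht := hgc.tendsto 0
      simp only [zero_mul, mul_zero, add_zero, sub_zero, Prod.mk.eta] at ht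
      exact (tendsto_nhdsWithin_of_tendsto_nhds ht).eventually_lt_const hprod
    obtain ⟨ε, h1, h2, h3, h4, h5, h6'⟩ :=
      (ev1.and (ev2.and (ev3.and (ev4.and (ev5.and self_mem_nhdsWithin))))).exists
    have h6 : 0 < ε := h6'
    have hKε : 0 < K * ε := mul_pos hK0 h6
    have h31 : K * ε < p - l := h3.trans_le (min_le_left _ _)
    have h32 : K * ε < u - q := h3.trans_le (min_le_right _ _)
    set c' : ℝ × ℝ := (c.1 + ε * d.1, c.2 + ε * d.2) with hc'
    have hVge : ∀ r ∈ Icc l u, VV f h σ c r - ε * C' ≤ VV f h σ c' r := by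
      intro r hr
      have e := VV_add (f := f) (h := h) (σ := σ) c d ε r
      have h7 := VV_nonneg M d r
      have h8 := hBC r hr
      have h9 := neg_abs_le (B r)
      rw [hc', e]
      have h10 : ε * B r ≥ -(ε * C') := by nlinarith
      have h11 : 0 ≤ ε ^ 2 * VV f h σ d r := by positivity
      have h12 : B r = 2 * (v1 f h σ c r * d.1 + v2 f h σ c r * d.2) := rfl
      rw [h12] at h10
      linarith
    have hPm : p - K * ε ∈ Icc l u := ⟨by linarith, by linarith [hu.1]⟩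
    have hQm : q + K * ε ∈ Icc l u := ⟨by linarith [hl.2], by linarith⟩
    have hmem : ((c', (p - K * ε, q + K * ε)) : (ℝ × ℝ) × (ℝ × ℝ)) ∈ KK L f h σ R δ n := by
      refine ⟨⟨?_, ?_, ?_, ?_, ?_⟩, ?_, ?_, h5.le, ?_, ?_⟩
      · show 0 ≤ p - K * ε
        linarith
      · show p - K * ε ≤ q + K * ε
        linarith
      · show q + K * ε ≤ L
        linarith
      · show δ ≤ q + K * ε
        linarith
      · show p - K * ε ≤ L - δ
        linarith
      · refine gP_nonneg_of M (hKsub hPm).1 (hKsub hPm).2 ?_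
        have e1 := hVge _ hPm
        have e2 := hVl (p - K * ε) ⟨by linarith, by linarith⟩
        have e3 : a * (p - (p - K * ε)) = ε * C' := by rw [← hKa]; ring
        linarith
      · refine gP_nonneg_of M (hKsub hQm).1 (hKsub hQm).2 ?_
        have e1 := hVge _ hQm
        have e2 := hVu (q + K * ε) ⟨by linarith, by linarith⟩
        have e3 : a * (q + K * ε - q) = ε * C' := by rw [← hKa]; ring
        linarith
      · show 0 ≤ (n.1 : ℝ) * (c.1 + ε * d.1) + n.2 * (c.2 + ε * d.2)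
        have : (n.1 : ℝ) * (c.1 + ε * d.1) + n.2 * (c.2 + ε * d.2) =
          κ + ε * (n.1 * d.1 + n.2 * d.2) := by rw [hκ]; ring
        rw [this]; exact h4.1.le
      · show (n.1 : ℝ) * (c.1 + ε * d.1) + n.2 * (c.2 + ε * d.2) ≤ R
        have : (n.1 : ℝ) * (c.1 + ε * d.1) + n.2 * (c.2 + ε * d.2) =
          κ + ε * (n.1 * d.1 + n.2 * d.2) := by rw [hκ]; ring
        rw [this]; exact h4.2.le
    have h7 := hmin _ hmem
    have hsplit : Act f h σ (c', (p - K * ε, q + K * ε)) =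
        (∫ r in (p - K * ε)..p, √(1 - VV f h σ c' r)) + (∫ r in p..q, √(1 - VV f h σ c' r)) +
        ∫ r in q..(q + K * ε), √(1 - VV f h σ c' r) := by
      unfold Act
      simp only
      rw [intervalIntegral.integral_add_adjacent_intervals (ii M c' _ _) (ii M c' _ _),
        intervalIntegral.integral_add_adjacent_intervals (ii M c' _ _) (ii M c' _ _)]
    have o1 : ∫ r in (p - K * ε)..p, √(1 - VV f h σ c' r) ≤ √(ε * C') * (K * ε) := by
      have := outside M (c := c') (a := p - K * ε) (b := p) (B := ε * C') (by linarith) fun r hr => by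
        have e1 := hVge r ⟨by linarith [hr.1], by linarith [hr.2, hu.1]⟩
        have e2 := hVl r ⟨by linarith [hr.1], hr.2⟩
        have e3 : 0 ≤ a * (p - r) := mul_nonneg ha0.le (by linarith [hr.2])
        linarith
      rwa [show p - (p - K * ε) = K * ε by ring] at this
    have o2 : ∫ r in q..(q + K * ε), √(1 - VV f h σ c' r) ≤ √(ε * C') * (K * ε) := by
      have := outside M (c := c') (a := q) (b := q + K * ε) (B := ε * C') (by linarith) fun r hr => by
        have e1 := hVge r ⟨by linarith [hr.1, hl.2], by linarith [hr.2]⟩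
        have e2 := hVu r ⟨hr.1, by linarith [hr.2]⟩
        have e3 : 0 ≤ a * (r - q) := mul_nonneg ha0.le (by linarith [hr.1])
        linarith
      rwa [show q + K * ε - q = K * ε by ring] at this
    have o3 : ∫ r in p..q, √(1 - VV f h σ c' r) ≤
        ∫ r in Ioo p q, √(1 - (VV f h σ c r + ε * B r)) := by
      rw [hIoo]
      refine setIntegral_mono_on ?_ ?_ measurableSet_Ioo fun r hr => ?_
      · refine intOn_bdd (M := 1) ?_ fun r _ => ?_
        · exact (continuousOn_const.sub ((VV_contDiffOn M c').continuousOn.mono hsub)).sqrt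
        · rw [abs_of_nonneg (Real.sqrt_nonneg _)]
          exact sqrt_le_one' M c' r
      · refine intOn_bdd (M := √(1 + ε * C')) ?_ fun r hr => ?_
        · exact (continuousOn_const.sub ((hVc.mono hsub).add
            (continuousOn_const.mul (hBc.mono hsub)))).sqrt
        · rw [abs_of_nonneg (Real.sqrt_nonneg _)]
          refine Real.sqrt_le_sqrt ?_
          have e1 := VV_nonneg M c r
          have e2 := hBC r (hsubpq hr)
          have e3 := neg_abs_le (B r)
          nlinarith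
      · refine Real.sqrt_le_sqrt ?_
        have e := VV_add (f := f) (h := h) (σ := σ) c d ε r
        have h7 := VV_nonneg M d r
        have h11 : 0 ≤ ε ^ 2 * VV f h σ d r := by positivity
        have h12 : B r = 2 * (v1 f h σ c r * d.1 + v2 f h σ c r * d.2) := rfl
        rw [hc', e, h12]
        linarith
    unfold FF at h7
    rw [hsplit] at h7
    have e1 : (n.1 : ℝ) * c'.1 + n.2 * c'.2 = κ + ε * (n.1 * d.1 + n.2 * d.2) := by
      rw [hκ, hc']; ring
    have e0 : Act f h σ (c, (p, q)) = ∫ r in Ioo p q, √(1 - VV f h σ c r) := hIoo c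
    simp only at h7
    rw [e1, ← hκ, e0] at h7
    set S := ∫ r in Ioo p q, B r / √(1 - VV f h σ c r) with hS
    have fin : ε * (2 * S) ≤ ε * (2 * π * (n.1 * d.1 + n.2 * d.2) + η₀) := by
      have : η₀ = 12 * η := by rw [hη]; ring
      rw [this]
      nlinarith
    exact le_of_mul_le_mul_left fin h6
  -- equality
  have iv : ∀ g : ℝ → ℝ, ContinuousOn g (Ioo 0 L) →
      IntegrableOn (fun r => g r / √(1 - VV f h σ c r)) (Ioo p q) := by
    intro g hg
    obtain ⟨x₁, hx₁, hmax⟩ := isCompact_Icc.exists_isMaxOn (nonempty_Icc.2 hpq.le)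
      (hg.mono hsub').abs
    refine (hint.const_mul |g x₁|).mono' ?_ ?_
    · apply ContinuousOn.aestronglyMeasurable _ measurableSet_Ioo
      refine (hg.mono hsub).div (continuousOn_const.sub (hVc.mono hsub)).sqrt ?_
      intro x hx
      exact (Real.sqrt_pos.mpr (by linarith [hin x hx])).ne'
    · refine (ae_restrict_iff' measurableSet_Ioo).mpr (ae_of_all _ fun x hx => ?_)
      have hs : 0 < √(1 - VV f h σ c x) := Real.sqrt_pos.mpr (by linarith [hin x hx])
      rw [Real.norm_eq_abs, abs_div, abs_of_pos hs, mul_one_div]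
      have h1 : |g x| ≤ |g x₁| := hmax (Ioo_subset_Icc_self hx)
      gcongr
  have lin : ∀ d : ℝ × ℝ, ∫ r in Ioo p q,
      (2 * (v1 f h σ c r * d.1 + v2 f h σ c r * d.2)) / √(1 - VV f h σ c r) =
      2 * ((∫ r in Ioo p q, v1 f h σ c r / √(1 - VV f h σ c r)) * d.1 +
        (∫ r in Ioo p q, v2 f h σ c r / √(1 - VV f h σ c r)) * d.2) := by
    intro d
    rw [← integral_mul_const, ← integral_mul_const, ← integral_add ((iv _ hv1).mul_const _)
      ((iv _ hv2).mul_const _), ← integral_const_mul]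
    refine setIntegral_congr_fun measurableSet_Ioo fun r _ => ?_
    ring
  set I₁ := ∫ r in Ioo p q, v1 f h σ c r / √(1 - VV f h σ c r) with hI₁
  set I₂ := ∫ r in Ioo p q, v2 f h σ c r / √(1 - VV f h σ c r) with hI₂
  have k1 := key (1, 0)
  have k2 := key (-1, 0)
  have k3 := key (0, 1)
  have k4 := key (0, -1)
  rw [lin] at k1 k2 k3 k4
  simp only [mul_one, mul_zero, add_zero, zero_add, mul_neg] at k1 k2 k3 k4
  have q1 : 4 * I₁ = 2 * π * n.1 := by linarith
  have q2 : 4 * I₂ = 2 * π * n.2 := by linarith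
  have res := closed_reg M hp hpq hq hVp hVq hp' hq' hin (n := n.1) (m := n.2) q1 q2
  have hval : 4 * ∫ x in Ioo p q, 1 / √(1 - VV f h σ c x) = FF f h σ n (c, (p, q)) := by
    unfold FF
    have e0 : Act f h σ (c, (p, q)) = ∫ r in Ioo p q, √(1 - VV f h σ c r) := hIoo c
    simp only
    rw [e0]
    have e1 : ∫ x in Ioo p q, 1 / √(1 - VV f h σ c x) =
        (∫ r in Ioo p q, √(1 - VV f h σ c r)) + (I₁ * c.1 + I₂ * c.2) := by
      have i0 : IntegrableOn (fun r => √(1 - VV f h σ c r)) (Ioo p q) := by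
        refine intOn_bdd (M := 1) ?_ fun r _ => ?_
        · exact (continuousOn_const.sub (hVc.mono hsub)).sqrt
        · rw [abs_of_nonneg (Real.sqrt_nonneg _)]
          exact sqrt_le_one' M c r
      have i3 : IntegrableOn (fun r => v1 f h σ c r / √(1 - VV f h σ c r) * c.1 +
          v2 f h σ c r / √(1 - VV f h σ c r) * c.2) (Ioo p q) :=
        ((iv _ hv1).mul_const _).add ((iv _ hv2).mul_const _)
      rw [hI₁, hI₂, ← integral_mul_const, ← integral_mul_const,
        ← integral_add ((iv _ hv1).mul_const _) ((iv _ hv2).mul_const _), ← integral_add i0 i3]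
      refine setIntegral_congr_fun measurableSet_Ioo fun r hr => ?_
      have hpos : 0 < 1 - VV f h σ c r := by linarith [hin r hr]
      have hs : 0 < √(1 - VV f h σ c r) := Real.sqrt_pos.mpr hpos
      have h2 := Real.sq_sqrt hpos.le
      have h3 := VV_eq_dot (f := f) (h := h) (σ := σ) c r
      field_simp
      linarith
    rw [e1]
    linear_combination c.1 * q1 + c.2 * q2
  rw [← hval]
  exact res

end Pool.Agent.L7h84.TT
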