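import Pool.Agent.L7h84.TT.Stm
import Pool.Agent.H206R2.Rot2.TC
import Pool.Agent.H206R2.Rot2.TA

/-! # Sharpness: the round metric -/

open Real Set MeasureTheory Filter Topology
open scoped ContDiff

namespace Pool.Agent.L7h84.TT

/-- Conservation of `s² a'` gives the equation `s a'' + 2 s' a' = 0` also at the zeros of `s`. -/
lemma round_aux {s s1 a1 a2 : ℝ → ℝ} (hs : ∀ t, HasDerivAt s (s1 t) t)
    (ha : ∀ t, HasDerivAt a1 (a2 t) t)
    (hc : ∀ t, HasDerivAt (fun t => s t ^ 2 * a1 t) 0 t) (t : ℝ) :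
    s t * a2 t + 2 * s1 t * a1 t = 0 := by
  have h1 : HasDerivAt (fun t => s t ^ 2 * a1 t) (2 * s t * s1 t * a1 t + s t ^ 2 * a2 t) t := by
    refine (((hs t).pow 2).mul (ha t)).congr_deriv ?_
    simp
  have h2 : 2 * s t * s1 t * a1 t + s t ^ 2 * a2 t = 0 := h1.unique (hc t)
  by_cases h0 : s t = 0
  · by_cases h3 : a1 t = 0
    · rw [h0, h3]; ring
    · have hconst : ∀ x, s x ^ 2 * a1 x = s t ^ 2 * a1 t := by
        have hd : Differentiable ℝ (fun t => s t ^ 2 * a1 t) := fun x => (hc x).differentiableAt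
        have := is_const_of_deriv_eq_zero hd (fun x => (hc x).deriv)
        intro x
        exact this x t
      have hev : ∀ᶠ x in 𝓝 t, a1 x ≠ 0 := (ha t).continuousAt.eventually_ne h3
      have hz : s =ᶠ[𝓝 t] fun _ => (0 : ℝ) := by
        filter_upwards [hev] with x hx
        have h4 := hconst x
        rw [h0] at h4
        have h5 : s x ^ 2 * a1 x = 0 := by rw [h4]; ring
        rcases mul_eq_zero.1 h5 with h6 | h6
        · exact pow_eq_zero_iff (two_ne_zero) |>.1 h6
        · exact absurd h6 hx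
      have h7 : s1 t = 0 := by
        have h8 : HasDerivAt s 0 t := (hasDerivAt_const t (0 : ℝ)).congr_of_eventuallyEq hz
        exact (hs t).unique h8
      rw [h0, h7]; ring
  · have : s t * (s t * a2 t + 2 * s1 t * a1 t) = 0 := by linarith
    rcases mul_eq_zero.1 this with h | h
    · exact absurd h h0
    · exact h

/-- The curve `s exp (i a)` with `s'' - s a'² = - v² s` and `s² a'` constant closes up only after
the time `2 π / v`. -/
lemma round_osc {v T : ℝ} (hv : 0 < v) (hT : 0 < T) {s s1 s2 a a1 a2 : ℝ → ℝ}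
    (hs1 : ∀ t, HasDerivAt s (s1 t) t) (hs2 : ∀ t, HasDerivAt s1 (s2 t) t)
    (ha1 : ∀ t, HasDerivAt a (a1 t) t) (ha2 : ∀ t, HasDerivAt a1 (a2 t) t)
    (hc : ∀ t, HasDerivAt (fun t => s t ^ 2 * a1 t) 0 t)
    (heq : ∀ t, s2 t - s t * a1 t ^ 2 = -v ^ 2 * s t)
    (hper : ∀ t, (s (t + T) : ℂ) * Complex.exp (a (t + T) * Complex.I) =
      (s t : ℂ) * Complex.exp (a t * Complex.I)) (h0 : s 0 ≠ 0) : 2 * π ≤ v * T := by
  have hg1 : ∀ t, HasDerivAt (fun t => s t * Real.cos (a t - a 0))
      (s1 t * Real.cos (a t - a 0) + s t * (-Real.sin (a t - a 0) * a1 t)) t := fun t =>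
    (hs1 t).mul (((ha1 t).sub_const (a 0)).cos)
  have hg2 : ∀ t, HasDerivAt
      (fun t => s1 t * Real.cos (a t - a 0) + s t * (-Real.sin (a t - a 0) * a1 t))
      (-v ^ 2 * (s t * Real.cos (a t - a 0))) t := by
    intro t
    have e1 := ((hs2 t).mul (((ha1 t).sub_const (a 0)).cos)).add
      ((hs1 t).mul (((((ha1 t).sub_const (a 0)).sin).neg).mul (ha2 t)))
    refine e1.congr_deriv ?_
    have e2 := round_aux hs1 ha2 hc t
    have e3 := heq t
    have e4 : -v ^ 2 * (s t * Real.cos (a t - a 0)) =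
        (s2 t - s t * a1 t ^ 2) * Real.cos (a t - a 0) -
          (s t * a2 t + 2 * s1 t * a1 t) * Real.sin (a t - a 0) := by
      rw [e2, e3]; ring
    rw [e4]
    simp only [Pi.mul_apply, Pi.neg_apply]
    ring
  refine Agent.H206R2.Rot.TG.osc_period hv hT hg1 hg2 (fun t => ?_) ?_
  · have h1 := hper t
    have h2 : ∀ t, s t * Real.cos (a t - a 0) =
        ((s t : ℂ) * Complex.exp (a t * Complex.I) * Complex.exp (-(a 0 * Complex.I))).re := by
      intro t
      rw [mul_assoc, ← Complex.exp_add]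
      have : (a t : ℂ) * Complex.I + -((a 0 : ℂ) * Complex.I) = ((a t - a 0 : ℝ) : ℂ) * Complex.I := by
        push_cast; ring
      rw [this, Complex.re_ofReal_mul, Complex.exp_ofReal_mul_I_re]
    simp only [h2]
    rw [h1]
  · simpa using h0

theorem s_ROUND : S_ROUND := by
  refine ⟨⟨Agent.H206R2.Rot2.TA.round_profile2, contDiff_const, fun _ => rfl, fun _ => rfl,
    fun r => by simp⟩, ?_⟩
  intro γ v T hv hT hγ hper
  obtain ⟨r, α, β, hr, hα, hβ, hγe, h1, h2, h3, h4⟩ := hγ
  obtain ⟨hr1, hr2⟩ := Agent.H206R2.Rot2.TC.contDiff_aux hr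
  obtain ⟨ha1, ha2⟩ := Agent.H206R2.Rot2.TC.contDiff_aux hα
  obtain ⟨hb1, hb2⟩ := Agent.H206R2.Rot2.TC.contDiff_aux hβ
  have harg : ∀ x : ℝ, π * x / (2 * (π / 2)) = x := fun x => by
    have := Real.pi_ne_zero
    field_simp
  have hA : ∀ x, deriv (gA Real.sin) x = 2 * Real.sin x * Real.cos x := by
    intro x
    have : HasDerivAt (gA Real.sin) (2 * Real.sin x * Real.cos x) x := by
      refine ((Real.hasDerivAt_sin x).pow 2).congr_deriv ?_
      simp
    exact this.deriv
  have hC : ∀ x, deriv (gC Real.cos) x = -(2 * Real.cos x * Real.sin x) := by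
    intro x
    have : HasDerivAt (gC Real.cos) (-(2 * Real.cos x * Real.sin x)) x := by
      refine ((Real.hasDerivAt_cos x).pow 2).congr_deriv ?_
      simp
    exact this.deriv
  have hB0 : gB Real.sin Real.cos (fun _ => 0) = fun _ => 0 := by
    funext x; simp [gB]
  have hB : ∀ x, deriv (gB Real.sin Real.cos (fun _ => 0)) x = 0 := by
    intro x; rw [hB0]; simp
  have e1 : ∀ t, deriv (deriv r) t = Real.sin (r t) * Real.cos (r t) *
      (deriv α t ^ 2 - deriv β t ^ 2) := by
    intro t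
    rw [h1 t, hA, hB, hC]; ring
  have e2 : ∀ t, HasDerivAt (fun t => Real.sin (r t) ^ 2 * deriv α t) 0 t := by
    intro t
    have := h2 t
    simp only [hB0, zero_mul, add_zero] at this
    exact this
  have e3 : ∀ t, HasDerivAt (fun t => Real.cos (r t) ^ 2 * deriv β t) 0 t := by
    intro t
    have := h3 t
    simp only [hB0, zero_mul, zero_add] at this
    exact this
  have e4 : ∀ t, deriv r t ^ 2 + Real.sin (r t) ^ 2 * deriv α t ^ 2 +
      Real.cos (r t) ^ 2 * deriv β t ^ 2 = v ^ 2 := by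
    intro t
    have := h4 t
    simp only [hB0, zero_mul, mul_zero, add_zero, gA, gC] at this
    exact this
  have hp1 : ∀ t, ((Real.sin (r (t + T)) : ℝ) : ℂ) * Complex.exp (α (t + T) * Complex.I) =
      ((Real.sin (r t) : ℝ) : ℂ) * Complex.exp (α t * Complex.I) := by
    intro t
    have := congrArg Prod.fst (hper t)
    rw [hγe, hγe] at this
    simpa only [pt, harg] using this
  have hp2 : ∀ t, ((Real.cos (r (t + T)) : ℝ) : ℂ) * Complex.exp (β (t + T) * Complex.I) =
      ((Real.cos (r t) : ℝ) : ℂ) * Complex.exp (β t * Complex.I) := by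
    intro t
    have := congrArg Prod.snd (hper t)
    rw [hγe, hγe] at this
    simpa only [pt, harg] using this
  by_cases hz : Real.sin (r 0) = 0
  · have hc0 : Real.cos (r 0) ≠ 0 := by
      intro h
      have := Real.sin_sq_add_cos_sq (r 0)
      rw [hz, h] at this
      norm_num at this
    refine round_osc hv hT (s := fun t => Real.cos (r t)) (s1 := fun t => -Real.sin (r t) * deriv r t)
      (s2 := fun t => -(Real.cos (r t) * deriv r t) * deriv r t +
        -Real.sin (r t) * deriv (deriv r) t) (fun t => (hr1 t).cos)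
      (fun t => ((hr1 t).sin.neg).mul (hr2 t)) hb1 hb2 e3 ?_ hp2 hc0
    intro t
    have h5 := e1 t
    have h6 := e4 t
    have hc : Real.sin (r t) ^ 2 = 1 - Real.cos (r t) ^ 2 := by
      have := Real.sin_sq_add_cos_sq (r t); linarith
    rw [h5, ← h6]
    linear_combination (-Real.cos (r t) * (deriv α t ^ 2 - deriv β t ^ 2) +
      Real.cos (r t) * deriv α t ^ 2) * hc
  · refine round_osc hv hT (s := fun t => Real.sin (r t)) (s1 := fun t => Real.cos (r t) * deriv r t)
      (s2 := fun t => (-Real.sin (r t) * deriv r t) * deriv r t +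
        Real.cos (r t) * deriv (deriv r) t) (fun t => (hr1 t).sin)
      (fun t => ((hr1 t).cos).mul (hr2 t)) ha1 ha2 e2 ?_ hp1 hz
    intro t
    have h5 := e1 t
    have h6 := e4 t
    have hc : Real.sin (r t) ^ 2 = 1 - Real.cos (r t) ^ 2 := by
      have := Real.sin_sq_add_cos_sq (r t); linarith
    rw [h5, ← h6]
    linear_combination (Real.sin (r t) * deriv α t ^ 2) * hc

end Pool.Agent.L7h84.TT
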